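import Mathlib

/-!
# Solution of the linear system given by the mutations
-/

set_option autoImplicit false

open Finset

namespace Pool.Agent.T2h46.Radon

theorem closed_form {s d : ℕ} {α β : ℕ → ℝ} (hd : 2 ≤ d) (hs : d + 4 ≤ s)
    (hα : ∀ i ≤ s, α i = α (s - i))
    (hM : ∀ t a b, 1 ≤ t → t ≤ d → d + 1 + a + b = s → 0 < a + b →
      α (t + a) - α (t + b) = ((b : ℝ) - a) * (β (t + 1) - β t)) :
    ∃ lam mu nu kap : ℝ, (nu ≠ 0 → Odd d ∧ Even s) ∧
      (∀ i, 1 ≤ i → i + 1 ≤ s → α i = lam + mu * ((s : ℝ) - 2 * i) ^ 2 + nu * (-1) ^ i) ∧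
      ∀ j, 1 ≤ j → j ≤ d + 1 → β j = kap - mu * ((d : ℝ) + 2 - 2 * j) ^ 2 := by
  obtain ⟨k, hk⟩ : ∃ k, s = d + 1 + k := ⟨s - d - 1, by omega⟩
  have hk3 : 3 ≤ k := by omega
  set D : ℕ → ℝ := fun i => α (i + 2) - 2 * α (i + 1) + α i with hD
  -- windows
  have hw : ∀ t a b, 1 ≤ t → t ≤ d → a + (b + 2) = k → D (t + a) = D (t + b) := by
    intro t a b ht htd hab
    have e0 := hM t a (b + 2) ht htd (by omega) (by omega)
    have e1 := hM t (a + 1) (b + 1) ht htd (by omega) (by omega)
    have e2 := hM t (a + 2) b ht htd (by omega) (by omega)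
    simp only [hD]
    simp only [← add_assoc] at e0 e1 e2
    push_cast at e0 e1 e2
    linarith
  have hper : ∀ i, 1 ≤ i → i + 5 ≤ s → D (i + 2) = D i := by
    intro i hi his
    obtain ⟨t, a, ht, htd, hak, rfl⟩ : ∃ t a, 1 ≤ t ∧ t + 1 ≤ d ∧ a + 3 ≤ k ∧ i = t + a := by
      by_cases h1 : i + 1 ≤ d
      · exact ⟨i, 0, hi, h1, by omega, rfl⟩
      · exact ⟨d - 1, i - (d - 1), by omega, by omega, by omega, by omega⟩
    obtain ⟨b, hb⟩ : ∃ b, a + (b + 3) = k := ⟨k - a - 3, by omega⟩
    have h1 := hw t a (b + 1) ht (by omega) (by omega)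
    have h2 := hw (t + 1) (a + 1) b (by omega) htd (by omega)
    have e1 : t + 1 + (a + 1) = t + a + 2 := by omega
    have e2 : t + 1 + b = t + (b + 1) := by omega
    rw [e1, e2] at h2
    rw [h2, h1]
  have hpar : ∀ i, 1 ≤ i → i + 3 ≤ s → D i = if Even i then D 2 else D 1 := by
    intro i
    induction i using Nat.strong_induction_on with
    | _ i ih =>
      intro hi his
      by_cases h1 : i = 1
      · subst h1; simp
      by_cases h2 : i = 2
      · subst h2; simp
      obtain ⟨j, rfl⟩ : ∃ j, i = j + 2 := ⟨i - 2, by omega⟩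
      rw [hper j (by omega) (by omega), ih j (by omega) (by omega) (by omega)]
      have : Even (j + 2) ↔ Even j := by
        rw [Nat.even_add]; simp
      simp only [this]
  have heq : ¬ (Odd d ∧ Even s) → D 1 = D 2 := by
    intro hno
    by_cases hse : Even s
    · -- k is odd
      have hde : ¬ Odd d := fun h => hno ⟨h, hse⟩
      rw [Nat.not_odd_iff_even] at hde
      obtain ⟨b, hb⟩ : ∃ b, b + 2 = k := ⟨k - 2, by omega⟩
      have h1 := hw 1 0 b le_rfl (by omega) (by omega)
      have h2 := hpar (1 + b) (by omega) (by omega)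
      have h3 : Even (1 + b) := by
        obtain ⟨x, hx⟩ := hse
        obtain ⟨y, hy⟩ := hde
        exact ⟨x - y - 1, by omega⟩
      rw [if_pos h3] at h2
      rw [← h2, ← h1]
    · rw [Nat.not_even_iff_odd] at hse
      have h2 := hpar (s - 3) (by omega) (by omega)
      have h3 : Even (s - 3) := by
        obtain ⟨x, hx⟩ := hse
        exact ⟨x - 1, by omega⟩
      rw [if_pos h3] at h2
      rw [← h2]
      simp only [hD]
      have e1 := hα 1 (by omega)
      have e2 := hα 2 (by omega)
      have e3 := hα 3 (by omega)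
      have f1 : s - 3 + 2 = s - 1 := by omega
      have f2 : s - 3 + 1 = s - 2 := by omega
      rw [f1, f2, ← e1, ← e2, ← e3]
      ring
  set mu := (D 1 + D 2) / 16 with hmu
  set nu := (D 2 - D 1) / 8 with hnu
  have hnu0 : nu ≠ 0 → Odd d ∧ Even s := by
    intro h
    by_contra hno
    apply h
    rw [hnu, heq hno, sub_self, zero_div]
  set α' : ℕ → ℝ := fun i => α i - mu * ((s : ℝ) - 2 * i) ^ 2 - nu * (-1) ^ i with hα'
  have hsd : ∀ i, 1 ≤ i → i + 3 ≤ s → α' (i + 2) - 2 * α' (i + 1) + α' i = 0 := by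
    intro i hi his
    have h1 := hpar i hi his
    simp only [hD] at h1
    simp only [hα']
    push_cast
    have e1 : (-1 : ℝ) ^ (i + 2) = (-1) ^ i := by rw [pow_add]; norm_num
    have e2 : (-1 : ℝ) ^ (i + 1) = -(-1) ^ i := by rw [pow_succ]; ring
    rw [e1, e2]
    by_cases he : Even i
    · rw [if_pos he] at h1
      rw [he.neg_one_pow]
      have : α (2 + 2) - 2 * α (2 + 1) + α 2 = 8 * mu + 4 * nu := by
        have : D 2 = 8 * mu + 4 * nu := by rw [hmu, hnu]; ring
        simpa only [hD] using this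
      linear_combination h1 + this
    · rw [if_neg he] at h1
      rw [(Nat.not_even_iff_odd.1 he).neg_one_pow]
      have : α (1 + 2) - 2 * α (1 + 1) + α 1 = 8 * mu - 4 * nu := by
        have : D 1 = 8 * mu - 4 * nu := by rw [hmu, hnu]; ring
        simpa only [hD] using this
      linear_combination h1 + this
  have hlin : ∀ i, 1 ≤ i → i + 2 ≤ s →
      α' i = α' 1 + ((i : ℝ) - 1) * (α' 2 - α' 1) ∧
      α' (i + 1) = α' 1 + (i : ℝ) * (α' 2 - α' 1) := by
    intro i hi
    induction i, hi using Nat.le_induction with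
    | base =>
      intro _
      constructor
      · push_cast; ring
      · push_cast; ring
    | succ i hi ih =>
      intro his
      obtain ⟨h1, h2⟩ := ih (by omega)
      have h3 := hsd i hi (by omega)
      refine ⟨by rw [h2]; push_cast; ring, ?_⟩
      have e : i + 1 + 1 = i + 2 := rfl
      rw [e]
      push_cast
      linear_combination h3 + 2 * h2 - h1
  have hsym : α' 1 = α' (s - 1) := by
    simp only [hα']
    have e1 := hα 1 (by omega)
    rw [← e1, Nat.cast_sub (by omega : 1 ≤ s)]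
    have e2 : nu * (-1) ^ 1 = nu * (-1 : ℝ) ^ (s - 1) := by
      by_cases hn : nu = 0
      · rw [hn]; ring
      · obtain ⟨_, x, hx⟩ := hnu0 hn
        have : Odd (s - 1) := ⟨x - 1, by omega⟩
        rw [this.neg_one_pow]; ring
    rw [← e2]
    push_cast
    ring
  have hslope : α' 2 - α' 1 = 0 := by
    have h1 := (hlin (s - 2) (by omega) (by omega)).2
    have e : s - 2 + 1 = s - 1 := by omega
    rw [e, ← hsym] at h1
    have h2 : ((s - 2 : ℕ) : ℝ) * (α' 2 - α' 1) = 0 := by linarith
    rcases mul_eq_zero.1 h2 with h3 | h3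
    · exfalso
      have : s - 2 = 0 := by exact_mod_cast h3
      omega
    · exact h3
  have hconst : ∀ i, 1 ≤ i → i + 1 ≤ s → α' i = α' 1 := by
    intro i hi his
    by_cases h1 : i + 2 ≤ s
    · rw [(hlin i hi h1).1, hslope, mul_zero, add_zero]
    · have : i = s - 1 := by omega
      rw [this, ← hsym]
  have hform : ∀ i, 1 ≤ i → i + 1 ≤ s →
      α i = α' 1 + mu * ((s : ℝ) - 2 * i) ^ 2 + nu * (-1) ^ i := by
    intro i hi his
    rw [← hconst i hi his]
    simp only [hα']
    ring
  refine ⟨α' 1, mu, nu, β 1 + mu * (d : ℝ) ^ 2, hnu0, hform, ?_⟩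
  intro j hj
  induction j, hj using Nat.le_induction with
  | base =>
    intro _
    push_cast
    ring
  | succ j hj ih =>
    intro hjd
    have h1 := ih (by omega)
    have h2 := hM j 0 k hj (by omega) (by omega) (by omega)
    rw [Nat.add_zero, hform j hj (by omega), hform (j + k) (by omega) (by omega)] at h2
    have h3 : nu * (-1 : ℝ) ^ (j + k) = nu * (-1) ^ j := by
      by_cases hn : nu = 0
      · rw [hn]; ring
      · obtain ⟨⟨x, hx⟩, y, hy⟩ := hnu0 hn
        have : Even k := ⟨y - x - 1, by omega⟩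
        rw [pow_add, this.neg_one_pow, mul_one]
    rw [h3] at h2
    have hk0 : (k : ℝ) ≠ 0 := by
      have : k ≠ 0 := by omega
      exact_mod_cast this
    have hsr : (s : ℝ) = d + 1 + k := by rw [hk]; push_cast; ring
    rw [hsr] at h2
    push_cast at h2 ⊢
    have h4 : (k : ℝ) * (β (j + 1) - β j) =
        (k : ℝ) * (-(4 * mu) * (2 * j - d - 1)) := by
      linear_combination -h2
    have h5 := mul_left_cancel₀ hk0 h4
    linear_combination h5 + h1

/-- the functional vanishes on the solutions of the homogeneous system -/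
theorem functional_zero {s d : ℕ} {α β R p : ℕ → ℝ} (hd : 1 ≤ d) (hs : d + 2 ≤ s)
    (hα : ∀ i ≤ s, α i = α (s - i)) (hβ : ∀ j ≤ d + 2, β j = β (d + 2 - j))
    (hM : ∀ t a b, 1 ≤ t → t ≤ d → d + 1 + a + b = s → 0 < a + b →
      α (t + a) - α (t + b) = ((b : ℝ) - a) * (β (t + 1) - β t))
    (hR0 : R 0 = 0) (hRs : R s = 0) (hp0 : p 0 = 0) (hpd : p (d + 2) = 0)
    (h1 : ∑ j ∈ range (d + 2 + 1), p j = 0) (h2 : ∑ i ∈ range (s + 1), R i = 0)
    (h3 : ∑ i ∈ range (s + 1), ((s : ℝ) - 2 * i) ^ 2 * R i =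
      ∑ j ∈ range (d + 2 + 1), ((d : ℝ) + 2 - 2 * j) ^ 2 * p j)
    (h4 : Odd d → Even s → ∑ i ∈ range (s + 1), (-1 : ℝ) ^ i * R i = 0)
    (h5 : s = d + 2 → ∀ i ∈ Icc 1 (s - 1), R i = p i)
    (h6 : s = d + 3 → ∀ i ∈ Icc 1 (s - 1), 2 * R i = p (i - 1) + p i)
    (h7 : d = 1 → ∀ i ∈ Icc 1 (s - 1), R i = 0) :
    ∑ i ∈ range (s + 1), α i * R i + ∑ j ∈ range (d + 2 + 1), β j * p j = 0 := by
  have hpsum : ∀ (c : ℝ) (F : ℕ → ℝ), (∀ j, 1 ≤ j → j ≤ d + 1 → F j = c) →
      ∑ j ∈ range (d + 2 + 1), F j * p j = 0 := by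
    intro c F hF
    have e : ∀ j ∈ range (d + 2 + 1), F j * p j = c * p j := by
      intro j hj
      rw [mem_range] at hj
      by_cases hj0 : j = 0
      · rw [hj0, hp0]; ring
      by_cases hjd : j = d + 2
      · rw [hjd, hpd]; ring
      rw [hF j (by omega) (by omega)]
    rw [sum_congr rfl e, ← mul_sum, h1, mul_zero]
  by_cases c1 : s = d + 2
  · -- s = d + 2
    subst c1
    rw [← sum_add_distrib]
    have e : ∀ j ∈ range (d + 2 + 1), α j * R j + β j * p j = (α j + β j) * p j := by
      intro j hj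
      rw [mem_range] at hj
      by_cases hj0 : j = 0
      · rw [hj0, hp0, hR0]; ring
      by_cases hjd : j = d + 2
      · rw [hjd, hpd, hRs]; ring
      rw [h5 rfl j (mem_Icc.2 ⟨by omega, by omega⟩)]
      ring
    rw [sum_congr rfl e]
    apply hpsum (α 1 + β 1) (fun j => α j + β j)
    intro j hj
    induction j, hj using Nat.le_induction with
    | base => intro _; rfl
    | succ j hj ih =>
      intro hjd
      have g1 := ih (by omega)
      have g2 := hM j 0 1 hj (by omega) (by omega) (by omega)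
      push_cast at g2
      rw [Nat.add_zero] at g2
      linarith
  by_cases c2 : s = d + 3
  · subst c2
    have e : ∑ i ∈ range (d + 3 + 1), α i * (2 * R i) =
        ∑ j ∈ range (d + 2 + 1), (α j + α (j + 1)) * p j := by
      rw [sum_range_succ', sum_range_succ, hR0, hRs]
      have e1 : ∀ j ∈ range (d + 2), α (j + 1) * (2 * R (j + 1)) =
          α (j + 1) * p j + α (j + 1) * p (j + 1) := by
        intro j hj
        rw [mem_range] at hj
        rw [h6 rfl (j + 1) (mem_Icc.2 ⟨by omega, by omega⟩), Nat.add_sub_cancel]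
        ring
      rw [sum_congr rfl e1, sum_add_distrib]
      have e2 : ∑ j ∈ range (d + 2 + 1), (α j + α (j + 1)) * p j =
          ∑ j ∈ range (d + 2 + 1), α (j + 1) * p j + ∑ j ∈ range (d + 2 + 1), α j * p j := by
        rw [← sum_add_distrib]
        apply sum_congr rfl
        intro j _
        ring
      rw [e2, sum_range_succ (fun j => α (j + 1) * p j) (d + 2), hpd,
        sum_range_succ' (fun j => α j * p j) (d + 2), hp0]
      ring
    have e' : 2 * (∑ i ∈ range (d + 3 + 1), α i * R i + ∑ j ∈ range (d + 2 + 1), β j * p j) =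
        ∑ j ∈ range (d + 2 + 1), (α j + α (j + 1) + 2 * β j) * p j := by
      have e3 : ∑ j ∈ range (d + 2 + 1), (α j + α (j + 1) + 2 * β j) * p j =
          ∑ j ∈ range (d + 2 + 1), (α j + α (j + 1)) * p j +
            2 * ∑ j ∈ range (d + 2 + 1), β j * p j := by
        rw [mul_sum, ← sum_add_distrib]
        apply sum_congr rfl
        intro j _
        ring
      rw [e3, ← e, mul_add, mul_sum]
      congr 1
      apply sum_congr rfl
      intro i _
      ring
    have e'' := hpsum (α 1 + α 2 + 2 * β 1) (fun j => α j + α (j + 1) + 2 * β j) (by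
      intro j hj
      induction j, hj using Nat.le_induction with
      | base => intro _; rfl
      | succ j hj ih =>
        intro hjd
        have g1 := ih (by omega)
        have g2 := hM j 0 2 hj (by omega) (by omega) (by omega)
        push_cast at g2
        rw [Nat.add_zero] at g2
        have f : j + 1 + 1 = j + 2 := rfl
        rw [f]
        linarith)
    rw [e''] at e'
    linarith
  by_cases c3 : d = 1
  · subst c3
    have e : ∑ i ∈ range (s + 1), α i * R i = 0 := by
      apply sum_eq_zero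
      intro i hi
      rw [mem_range] at hi
      by_cases hi0 : i = 0
      · rw [hi0, hR0, mul_zero]
      by_cases his : i = s
      · rw [his, hRs, mul_zero]
      rw [h7 rfl i (mem_Icc.2 ⟨by omega, by omega⟩), mul_zero]
    rw [e, zero_add]
    apply hpsum (β 1)
    intro j hj1 hj2
    by_cases hj : j = 1
    · rw [hj]
    · have : j = 2 := by omega
      rw [this, hβ 2 (by omega)]
  obtain ⟨lam, mu, nu, kap, hnu, ha, hb⟩ := closed_form (by omega) (by omega) hα hM
  have e1 : ∀ i ∈ range (s + 1), α i * R i =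
      lam * R i + mu * (((s : ℝ) - 2 * i) ^ 2 * R i) + nu * ((-1) ^ i * R i) := by
    intro i hi
    rw [mem_range] at hi
    by_cases hi0 : i = 0
    · rw [hi0, hR0]; ring
    by_cases his : i = s
    · rw [his, hRs]; ring
    rw [ha i (by omega) (by omega)]
    ring
  have e2 : ∀ j ∈ range (d + 2 + 1), β j * p j =
      kap * p j - mu * (((d : ℝ) + 2 - 2 * j) ^ 2 * p j) := by
    intro j hj
    rw [mem_range] at hj
    by_cases hj0 : j = 0
    · rw [hj0, hp0]; ring
    by_cases hjd : j = d + 2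
    · rw [hjd, hpd]; ring
    rw [hb j (by omega) (by omega)]
    ring
  have e3 : nu * ∑ i ∈ range (s + 1), (-1 : ℝ) ^ i * R i = 0 := by
    by_cases hn : nu = 0
    · rw [hn, zero_mul]
    · rw [h4 (hnu hn).1 (hnu hn).2, mul_zero]
  rw [sum_congr rfl e1, sum_congr rfl e2, sum_add_distrib, sum_add_distrib, sum_sub_distrib,
    ← mul_sum, ← mul_sum, ← mul_sum, ← mul_sum, ← mul_sum, h1, h2, e3, h3]
  ring

end Pool.Agent.T2h46.Radon
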