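import Pool.Agent.T2h46.Radon.Config

/-!
# Pairs of point sets in `V(s, d)` which differ by a mutation
-/

set_option autoImplicit false
set_option linter.unusedSectionVars false

open Module Finset Filter Topology

namespace Pool.Agent.T2h46.Radon

section reindex
variable {W : Type*} [AddCommGroup W] [Module ℝ W] [FiniteDimensional ℝ W] {ι κ : Type*}
  [DecidableEq ι] [DecidableEq κ]

theorem cell_map (v : κ → W) (e : ι ↪ κ) {J X : Finset ι} :
    Cell v (J.map e) ∅ (X.map e) ↔ Cell (fun i => v (e i)) J ∅ X := by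
  constructor
  · rintro ⟨f, -, h2, h3⟩
    refine ⟨f, by simp, fun i hi hx => ?_, fun i hi hx => ?_⟩
    · exact h2 (e i) (mem_map_of_mem e hi) (mem_map_of_mem e hx)
    · exact h3 (e i) (mem_map_of_mem e hi) (fun h => hx ((mem_map' e).1 h))
  · rintro ⟨f, -, h2, h3⟩
    refine ⟨f, by simp, fun i hi hx => ?_, fun i hi hx => ?_⟩
    · obtain ⟨j, hj, rfl⟩ := Finset.mem_map.1 hi
      exact h2 j hj ((mem_map' e).1 hx)
    · obtain ⟨j, hj, rfl⟩ := Finset.mem_map.1 hi
      exact h3 j hj (fun h => hx (mem_map_of_mem e h))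

theorem nn_map (v : κ → W) (e : ι ↪ κ) (J X : Finset ι) :
    nn v (J.map e) ∅ (X.map e) = nn (fun i => v (e i)) J ∅ X := by
  by_cases h : Cell v (J.map e) ∅ (X.map e)
  · rw [nn_eq_zero h, nn_eq_zero ((cell_map v e).1 h)]
  · rw [nn_eq_one h, nn_eq_one (fun h' => h ((cell_map v e).2 h'))]

theorem RR_map (v : κ → W) (e : ι ↪ κ) (J : Finset ι) (i : ℕ) :
    RR v (J.map e) i = RR (fun i => v (e i)) J i := by
  unfold RR
  rw [powersetCard_map, Finset.sum_map]
  apply Finset.sum_congr rfl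
  intro X _
  exact nn_map v e J X

theorem PP_map (v : κ → W) (e : ι ↪ κ) (J : Finset ι) (m i : ℕ) :
    PP v (J.map e) m i = PP (fun i => v (e i)) J m i := by
  unfold PP
  rw [powersetCard_map, Finset.sum_map]
  apply Finset.sum_congr rfl
  intro T _
  exact RR_map v e T i

theorem GP_map {v : κ → W} (e : ι ↪ κ) {J : Finset ι} (h : GP (fun i => v (e i)) J) :
    GP v (J.map e) := by
  intro T hT hc
  obtain ⟨T', hT', rfl⟩ := Finset.subset_map_iff.1 hT
  rw [card_map] at hc
  apply indep_of_cells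
  intro X hX
  obtain ⟨X', _, rfl⟩ := Finset.subset_map_iff.1 hX
  rw [cell_map]
  apply cell_of_indep (disjoint_empty_right _)
  rw [union_empty]
  exact h T' hT' hc

end reindex

theorem mem_V_of_gp {s d : ℕ} {ι : Type} [Fintype ι] [DecidableEq ι] (x : ι → E d)
    (hd : 1 ≤ d) (h : GP (fun i => hom (x i)) univ) (hc : Fintype.card ι = s) :
    ∃ y ∈ V s d, (∀ i, ordered s y.1 i = (RR (fun i => hom (x i)) univ i : ℝ)) ∧
      ∀ j, ordered (d + 2) y.2 j = (PP (fun i => hom (x i)) univ (d + 2) j : ℝ) := by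
  have hinj : Function.Injective x := by
    intro i j hij
    by_contra hne
    have h1 := h {i, j} (subset_univ _) (by
      rw [finrank_W, card_pair hne]; omega)
    have h2 := h1.injOn
    apply hne
    apply h2 (by simp) (by simp)
    simp [hij]
  set S : Finset (E d) := univ.map ⟨x, hinj⟩ with hS
  have hSc : S.card = s := by rw [hS, card_map, card_univ, hc]
  have hG : GP (hom (d := d)) S := GP_map (v := hom (d := d)) ⟨x, hinj⟩ h
  refine ⟨(radonVector s S, primitiveVector S), ⟨S, hSc, generalPosition_of_gp hG, rfl⟩, ?_, ?_⟩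
  · intro i
    have h1 := radonVector_ordered S i
    rw [hSc] at h1
    simp only
    rw [h1, hS, RR_map]
    rfl
  · intro j
    simp only
    rw [primitiveVector_ordered hG, hS, PP_map]
    rfl

theorem exists_pair {s d t a b : ℕ} (hd : 1 ≤ d) (ht : 1 ≤ t) (htd : t ≤ d)
    (hs : d + 1 + a + b = s) (hab : 0 < a + b) :
    ∃ y ∈ V s d, ∃ z ∈ V s d, ∀ G G' : ℕ → ℝ,
      (∑ i ∈ range (s + 1), G i * ordered s y.1 i +
          ∑ j ∈ range (d + 2 + 1), G' j * ordered (d + 2) y.2 j =
        ∑ i ∈ range (s + 1), G i * ordered s z.1 i +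
          ∑ j ∈ range (d + 2 + 1), G' j * ordered (d + 2) z.2 j) →
      G (t + a) + G (d + 1 - t + b) + a * (G' (t + 1) + G' (d + 1 - t)) +
          b * (G' t + G' (d + 1 - t + 1)) =
        G (t + b) + G (d + 1 - t + a) + b * (G' (t + 1) + G' (d + 1 - t)) +
          a * (G' t + G' (d + 1 - t + 1)) := by
  obtain ⟨x, T, h, lam, e, H, hT, hlam⟩ := exists_degen (a := a) (b := b) hd ht htd
  have hcard : Fintype.card (Option (Fin d ⊕ (Fin a ⊕ Fin b))) = s := by
    simp only [Fintype.card_option, Fintype.card_sum, Fintype.card_fin]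
    omega
  have hne : T ≠ univ := by
    rintro rfl
    have h1 := H.card
    rw [card_univ, hcard, finrank_W] at h1
    omega
  -- a small negative number
  have hsm := eventually_small (fun i => hom (x i)) univ none ((e, 0) : E d × ℝ)
  have hsm' : ∀ᶠ ε : ℝ in 𝓝 0, Small (fun i => hom (x i)) univ none ((e, 0) : E d × ℝ) (-ε) := by
    have h1 : Tendsto (fun ε : ℝ => -ε) (𝓝 0) (𝓝 0) := by
      have h2 : Continuous (fun ε : ℝ => -ε) := continuous_neg
      have h3 := h2.tendsto 0
      simpa using h3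
    exact h1.eventually hsm
  have h3 : ∃ᶠ ε : ℝ in 𝓝 0, ε < 0 := frequently_lt_nhds 0
  obtain ⟨ε, hε, hs1, hs2⟩ := (h3.and_eventually (hsm.and hsm')).exists
  have hε' : 0 < ε * lam none := by rw [hlam]; linarith
  have hp : ∀ δ : ℝ, pert (fun i => hom (x i)) none ((e, 0) : E d × ℝ) δ =
      fun i => hom (x i + (if i = none then δ else 0) • e) := by
    intro δ
    funext i
    unfold pert hom
    split_ifs <;> simp
  have g1 := H.gp hs1 hε.ne
  have g2 := H.gp hs2 (neg_ne_zero.2 hε.ne)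
  have hdiff := H.difference hs1 hs2 hε' hT hne
  rw [hp] at g1 g2
  rw [hp, hp, finrank_W, card_univ, hcard] at hdiff
  obtain ⟨y, hy, hy1, hy2⟩ := mem_V_of_gp _ hd g1 hcard
  obtain ⟨z, hz, hz1, hz2⟩ := mem_V_of_gp _ hd g2 hcard
  refine ⟨y, hy, z, hz, fun G G' hGG => ?_⟩
  simp only [hy1, hy2, hz1, hz2] at hGG
  exact hdiff G G' hGG

end Pool.Agent.T2h46.Radon
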