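import Pool.Agent.T2h46.Radon.Vectors

/-!
# The relations hold
-/

set_option autoImplicit false
set_option linter.unusedSectionVars false

open Module Finset

namespace Pool.Agent.T2h46.Radon

section weights
variable {W : Type*} [AddCommGroup W] [Module ℝ W] [FiniteDimensional ℝ W]
  {ι : Type*} [DecidableEq ι] {v : ι → W}

theorem RR_weight (J : Finset ι) (G : ℕ → ℤ) :
    ∑ i ∈ range (J.card + 1), G i * RR v J i = ∑ X ∈ J.powerset, G X.card * nn v J ∅ X :=
  sum_card J (fun X => nn v J ∅ X) G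

theorem PP_weight (J : Finset ι) (m : ℕ) (G : ℕ → ℤ) :
    ∑ j ∈ range (m + 1), G j * PP v J m j =
      ∑ T ∈ J.powersetCard m, ∑ Y ∈ T.powerset, G Y.card * nn v T ∅ Y := by
  unfold PP
  simp only [mul_sum]
  rw [Finset.sum_comm]
  apply Finset.sum_congr rfl
  intro T hT
  have h := sum_card T (fun X => nn v T ∅ X) G
  rw [(mem_powersetCard.1 hT).2] at h
  rw [← h]
  apply Finset.sum_congr rfl
  intro j _
  rw [mul_sum]

theorem sum_nn {U J : Finset ι} (h : GP v U) (hJ : J ⊆ U) :
    ∑ X ∈ J.powerset, nn v J ∅ X = 2 ^ J.card - Cc J.card (finrank ℝ W) := by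
  have hA : Adm v U J ∅ := ⟨h, hJ, empty_subset _, disjoint_empty_right _, by simp⟩
  have := total J ∅ hA
  unfold nn
  rw [sum_sub_distrib, this, sum_const, card_powerset]
  simp

theorem two_noncells {U T : Finset ι} (h : GP v U) (hT : T ⊆ U)
    (hc : T.card = finrank ℝ W + 1) : ∑ X ∈ T.powerset, nn v T ∅ X = 2 := by
  rw [sum_nn h hT, hc, Cc_succ]
  have h1 := Nat.sum_range_choose (finrank ℝ W)
  rw [Finset.sum_range_succ, Nat.choose_self] at h1
  have h2 : ∑ k ∈ range (finrank ℝ W), ((finrank ℝ W).choose k : ℤ) + 1 = 2 ^ finrank ℝ W := by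
    exact_mod_cast h1
  rw [pow_succ]
  linarith

end weights

/-- an upper set of given size is unique -/
theorem upset_unique {α : Type*} [DecidableEq α] (S : Finset α) (u : α → ℝ)
    (hu : ∀ x ∈ S, ∀ y ∈ S, u x = u y → x = y) (i : ℕ) (hi : i ≤ S.card) :
    ∃ X ⊆ S, X.card = i ∧ (∀ x ∈ X, ∀ y ∈ S, y ∉ X → u y < u x) ∧
      ∀ X' ⊆ S, X'.card = i → (∀ x ∈ X', ∀ y ∈ S, y ∉ X' → u y < u x) → X' = X := by
  have hex : ∃ X ⊆ S, X.card = i ∧ (∀ x ∈ X, ∀ y ∈ S, y ∉ X → u y < u x) := by
    induction i with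
    | zero => exact ⟨∅, empty_subset _, rfl, by simp⟩
    | succ i ih =>
      obtain ⟨X, hX, hc, h⟩ := ih (by omega)
      have hne : (S \ X).Nonempty := by
        rw [← card_pos, card_sdiff_of_subset hX]
        omega
      obtain ⟨m, hm, hmax⟩ := exists_max_image (S \ X) u hne
      rw [mem_sdiff] at hm
      refine ⟨insert m X, insert_subset hm.1 hX, by rw [card_insert_of_notMem hm.2, hc], ?_⟩
      intro x hx y hy hyX
      rw [mem_insert, not_or] at hyX
      rcases mem_insert.1 hx with rfl | hx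
      · have h1 := hmax y (mem_sdiff.2 ⟨hy, hyX.2⟩)
        exact lt_of_le_of_ne h1 (fun he => hyX.1 (hu y hy x hm.1 he))
      · exact h x hx y hy hyX.2
  obtain ⟨X, hX, hc, h⟩ := hex
  refine ⟨X, hX, hc, h, ?_⟩
  intro X' hX' hc' h'
  by_contra hne
  have h1 : ¬ X' ⊆ X := fun hs => hne (eq_of_subset_of_card_le hs (by omega))
  have h2 : ¬ X ⊆ X' := fun hs => hne (eq_of_subset_of_card_le hs (by omega)).symm
  obtain ⟨a, ha, ha'⟩ := not_subset.1 h1
  obtain ⟨b, hb, hb'⟩ := not_subset.1 h2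
  exact lt_asymm (h' a ha b (hX hb) hb') (h b hb a (hX' ha) ha')

/-- the cells of points on a line -/
theorem line_cell (S X : Finset (E 1)) (hX : X ⊆ S) (h0 : X.Nonempty) (h1 : (S \ X).Nonempty) :
    Cell (hom (d := 1)) S ∅ X ↔ (∀ x ∈ X, ∀ y ∈ S, y ∉ X → y 0 < x 0) ∨
      (∀ x ∈ X, ∀ y ∈ S, y ∉ X → x 0 < y 0) := by
  have lin : ∀ (f : Dual ℝ (E 1 × ℝ)) (x : E 1), f (x, 0) = x 0 * f (EuclideanSpace.single 0 1, 0) := by
    intro f x
    have : ((x, (0 : ℝ)) : E 1 × ℝ) = x 0 • (EuclideanSpace.single (0 : Fin 1) (1 : ℝ), (0 : ℝ)) := by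
      rw [Prod.smul_mk, smul_zero, Prod.mk.injEq]
      refine ⟨?_, rfl⟩
      ext k
      fin_cases k
      simp
    rw [this, map_smul, smul_eq_mul]
  constructor
  · rintro ⟨f, -, h2, h3⟩
    obtain ⟨a, ha⟩ : ∃ a, a = f (EuclideanSpace.single (0 : Fin 1) (1 : ℝ), (0 : ℝ)) := ⟨_, rfl⟩
    have key : ∀ x ∈ X, ∀ y ∈ S, y ∉ X → 0 < (x 0 - y 0) * a := by
      intro x hx y hy hyX
      have b1 := h2 x (hX hx) hx
      have b2 := h3 y hy hyX
      rw [dual_hom, lin, ← ha] at b1 b2
      linarith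
    rcases lt_trichotomy a 0 with h | h | h
    · right
      intro x hx y hy hyX
      have := key x hx y hy hyX
      nlinarith
    · exfalso
      obtain ⟨x, hx⟩ := h0
      obtain ⟨y, hy⟩ := h1
      rw [mem_sdiff] at hy
      have := key x hx y hy.1 hy.2
      rw [h, mul_zero] at this
      exact lt_irrefl _ this
    · left
      intro x hx y hy hyX
      have := key x hx y hy hyX
      nlinarith
  · obtain ⟨m, hm, hmin⟩ := exists_min_image X (fun x : E 1 => x 0) h0
    obtain ⟨M, hM, hmax⟩ := exists_max_image X (fun x : E 1 => x 0) h0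
    obtain ⟨m', hm', hmin'⟩ := exists_min_image (S \ X) (fun x : E 1 => x 0) h1
    obtain ⟨M', hM', hmax'⟩ := exists_max_image (S \ X) (fun x : E 1 => x 0) h1
    have pr : ∀ (c : ℝ) (x : E 1), ((EuclideanSpace.proj (𝕜 := ℝ) (0 : Fin 1)).toLinearMap ∘ₗ
        LinearMap.fst ℝ (E 1) ℝ - c • LinearMap.snd ℝ (E 1) ℝ : Dual ℝ (E 1 × ℝ)) (hom x) =
        x 0 - c := by
      intro c x
      simp [hom]
    rintro (h | h)
    · rw [mem_sdiff] at hM'
      have b := h m hm M' hM'.1 hM'.2
      refine ⟨(EuclideanSpace.proj (𝕜 := ℝ) (0 : Fin 1)).toLinearMap ∘ₗ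
        LinearMap.fst ℝ (E 1) ℝ - ((m 0 + M' 0) / 2) • LinearMap.snd ℝ (E 1) ℝ, by simp, ?_, ?_⟩
      · intro x _ hx
        rw [pr]
        have := hmin x hx
        simp only at this
        linarith
      · intro x hx hxX
        rw [pr]
        have := hmax' x (mem_sdiff.2 ⟨hx, hxX⟩)
        simp only at this
        linarith
    · rw [mem_sdiff] at hm'
      have b := h M hM m' hm'.1 hm'.2
      refine ⟨-((EuclideanSpace.proj (𝕜 := ℝ) (0 : Fin 1)).toLinearMap ∘ₗ
        LinearMap.fst ℝ (E 1) ℝ - ((M 0 + m' 0) / 2) • LinearMap.snd ℝ (E 1) ℝ), by simp, ?_, ?_⟩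
      · intro x _ hx
        rw [LinearMap.neg_apply, pr]
        have := hmax x hx
        simp only at this
        linarith
      · intro x hx hxX
        rw [LinearMap.neg_apply, pr]
        have := hmin' x (mem_sdiff.2 ⟨hx, hxX⟩)
        simp only at this
        linarith

theorem line_count (S : Finset (E 1)) (i : ℕ) (h1 : 1 ≤ i) (h2 : i < S.card) :
    RR (hom (d := 1)) S i = (S.card.choose i : ℤ) - 2 := by
  classical
  have hinj : ∀ x ∈ S, ∀ y ∈ S, x 0 = y 0 → x = y := by
    intro x _ y _ h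
    ext k
    fin_cases k
    exact h
  obtain ⟨X, hX, hXc, hXu, hXq⟩ := upset_unique S (fun x : E 1 => x 0) hinj i h2.le
  obtain ⟨Y, hY, hYc, hYu, hYq⟩ := upset_unique S (fun x : E 1 => - x 0)
    (fun x hx y hy h => hinj x hx y hy (neg_inj.1 h)) i h2.le
  have hXY : X ≠ Y := by
    rintro rfl
    obtain ⟨x, hx⟩ : X.Nonempty := by rw [← card_pos]; omega
    obtain ⟨y, hy⟩ : (S \ X).Nonempty := by
      rw [← card_pos, card_sdiff_of_subset hX]; omega
    rw [mem_sdiff] at hy
    have a1 := hXu x hx y hy.1 hy.2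
    have a2 := hYu x hx y hy.1 hy.2
    simp only at a1 a2
    linarith
  unfold RR
  have e : ∀ Z ∈ S.powersetCard i, nn (hom (d := 1)) S ∅ Z =
      1 - ((if Z = X then 1 else 0) + if Z = Y then 1 else 0) := by
    intro Z hZ
    rw [mem_powersetCard] at hZ
    have hZ0 : Z.Nonempty := by rw [← card_pos]; omega
    have hZ1 : (S \ Z).Nonempty := by
      rw [← card_pos, card_sdiff_of_subset hZ.1]; omega
    have hcell := line_cell S Z hZ.1 hZ0 hZ1
    by_cases hZX : Z = X
    · have hne : Z ≠ Y := hZX ▸ hXY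
      rw [if_pos hZX, if_neg hne, nn_eq_zero (hcell.2 (Or.inl (by
        intro x hx y hy hyZ
        rw [hZX] at hx hyZ
        exact hXu x hx y hy hyZ)))]
      norm_num
    · by_cases hZY : Z = Y
      · rw [if_neg hZX, if_pos hZY, nn_eq_zero (hcell.2 (Or.inr (by
          intro x hx y hy hyZ
          rw [hZY] at hx hyZ
          have := hYu x hx y hy hyZ
          simp only at this
          linarith)))]
        norm_num
      · rw [if_neg hZX, if_neg hZY, nn_eq_one]
        · norm_num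
        · intro hc
          rcases hcell.1 hc with h | h
          · exact hZX (hXq Z hZ.1 hZ.2 h)
          · refine hZY (hYq Z hZ.1 hZ.2 ?_)
            intro x hx y hy hyZ
            have := h x hx y hy hyZ
            simp only
            linarith
  rw [sum_congr rfl e, sum_sub_distrib, sum_add_distrib, sum_ite_eq', sum_ite_eq',
    if_pos (mem_powersetCard.2 ⟨hX, hXc⟩), if_pos (mem_powersetCard.2 ⟨hY, hYc⟩), sum_const,
    card_powersetCard]
  simp

section main
variable {d : ℕ} {S : Finset (E d)}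

theorem rel1 (hG : GP (hom (d := d)) S) :
    ∑ j, primitiveVector S j = (S.card.choose (d + 2) : ℝ) := by
  have h1 := sum_ordered (d + 2) (primitiveVector S) (fun _ => 1)
  have h2 := PP_weight (v := hom (d := d)) S (d + 2) (fun _ => 1)
  have h3 : ∑ T ∈ S.powersetCard (d + 2), ∑ Y ∈ T.powerset, (1 : ℤ) * nn (hom (d := d)) T ∅ Y =
      2 * (S.card.choose (d + 2)) := by
    rw [sum_congr rfl (g := fun _ => (2 : ℤ)), sum_const, card_powersetCard]
    · simp [mul_comm]
    · intro T hT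
      rw [mem_powersetCard] at hT
      simp only [one_mul]
      exact two_noncells hG hT.1 (by rw [finrank_W, hT.2])
  rw [h3] at h2
  have h4 : ∑ i ∈ range (d + 2 + 1), (1 : ℝ) * ordered (d + 2) (primitiveVector S) i =
      2 * (S.card.choose (d + 2) : ℝ) := by
    have : ∑ j ∈ range (d + 2 + 1), (1 : ℝ) * (PP (hom (d := d)) S (d + 2) j : ℝ) =
      2 * (S.card.choose (d + 2) : ℝ) := by exact_mod_cast h2
    rw [← this]
    apply sum_congr rfl
    intro i _
    rw [primitiveVector_ordered hG]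
  rw [h4] at h1
  have h5 : ∑ k : Fin ((d + 2) / 2), ((1 : ℝ) + 1) * primitiveVector S k =
      2 * ∑ k, primitiveVector S k := by
    rw [mul_sum]
    apply sum_congr rfl
    intro k _
    ring
  linarith

theorem rel2 (hG : GP (hom (d := d)) S) (hS : d + 2 ≤ S.card) :
    ∑ i, radonVector S.card S i =
      2 ^ (S.card - 1) - ∑ k ∈ range (d + 1), ((S.card - 1).choose k : ℝ) := by
  have h1 := sum_ordered S.card (radonVector S.card S) (fun _ => 1)
  have h2 := RR_weight (v := hom (d := d)) S (fun _ => 1)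
  have h3 : ∑ X ∈ S.powerset, (1 : ℤ) * nn (hom (d := d)) S ∅ X =
      2 ^ S.card - 2 * ∑ k ∈ range (d + 1), ((S.card - 1).choose k : ℤ) := by
    simp only [one_mul]
    rw [sum_nn hG (Subset.refl S), finrank_W]
    obtain ⟨c, hc⟩ : ∃ c, S.card = c + 1 := ⟨S.card - 1, by omega⟩
    rw [hc, Cc_succ]
    simp
  rw [h3] at h2
  have h4 : ∑ i ∈ range (S.card + 1), (1 : ℝ) * ordered S.card (radonVector S.card S) i =
      2 ^ S.card - 2 * ∑ k ∈ range (d + 1), ((S.card - 1).choose k : ℝ) := by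
    have : ∑ j ∈ range (S.card + 1), (1 : ℝ) * (RR (hom (d := d)) S j : ℝ) =
      2 ^ S.card - 2 * ∑ k ∈ range (d + 1), ((S.card - 1).choose k : ℝ) := by exact_mod_cast h2
    rw [← this]
    apply sum_congr rfl
    intro i _
    rw [radonVector_ordered]
  rw [h4] at h1
  have h5 : ∑ k : Fin (S.card / 2), ((1 : ℝ) + 1) * radonVector S.card S k =
      2 * ∑ k, radonVector S.card S k := by
    rw [mul_sum]
    apply sum_congr rfl
    intro k _
    ring
  have h6 : (2 : ℝ) ^ S.card = 2 * 2 ^ (S.card - 1) := by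
    rw [← pow_succ']
    congr 1
    omega
  linarith

theorem rel3 (hG : GP (hom (d := d)) S) :
    ∑ i : Fin (S.card / 2), (((S.card : ℝ) - 2 * ((i : ℝ) + 1)) ^ 2 - S.card) *
      radonVector S.card S i =
    ∑ j : Fin ((d + 2) / 2), (((d : ℝ) + 2 - 2 * ((j : ℝ) + 1)) ^ 2 - (d + 2)) *
      primitiveVector S j := by
  have h1 := sum_ordered S.card (radonVector S.card S)
    (fun i => (2 * (i : ℝ) - S.card) ^ 2 - S.card)
  have h2 := RR_weight (v := hom (d := d)) S (fun i => (2 * (i : ℤ) - S.card) ^ 2 - S.card)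
  have h3 := sum_ordered (d + 2) (primitiveVector S)
    (fun i => (2 * (i : ℝ) - (d + 2)) ^ 2 - (d + 2))
  have h4 := PP_weight (v := hom (d := d)) S (d + 2)
    (fun i => (2 * (i : ℤ) - (d + 2 : ℕ)) ^ 2 - (d + 2 : ℕ))
  have h5 := quad hG (Subset.refl S)
  rw [finrank_W] at h5
  have h6 : ∑ i ∈ range (S.card + 1), ((2 * (i : ℤ) - S.card) ^ 2 - S.card) *
      RR (hom (d := d)) S i = ∑ j ∈ range (d + 2 + 1),
        ((2 * (j : ℤ) - (d + 2 : ℕ)) ^ 2 - (d + 2 : ℕ)) * PP (hom (d := d)) S (d + 2) j := by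
    rw [h2, h4]
    exact h5
  have h7 : ∑ i ∈ range (S.card + 1), ((2 * (i : ℝ) - S.card) ^ 2 - S.card) *
      ordered S.card (radonVector S.card S) i = ∑ j ∈ range (d + 2 + 1),
        ((2 * (j : ℝ) - (d + 2)) ^ 2 - (d + 2)) * ordered (d + 2) (primitiveVector S) j := by
    have h8 : ∑ i ∈ range (S.card + 1), ((2 * (i : ℝ) - S.card) ^ 2 - S.card) *
      (RR (hom (d := d)) S i : ℝ) = ∑ j ∈ range (d + 2 + 1),
        ((2 * (j : ℝ) - (d + 2)) ^ 2 - (d + 2)) * (PP (hom (d := d)) S (d + 2) j : ℝ) := by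
      exact_mod_cast h6
    rw [sum_congr rfl (fun i _ => by rw [radonVector_ordered]), h8]
    apply sum_congr rfl
    intro i _
    rw [primitiveVector_ordered hG]
  rw [h1, h3] at h7
  have e1 : ∑ k : Fin (S.card / 2), ((2 * (((k : ℕ) + 1 : ℕ) : ℝ) - S.card) ^ 2 - S.card +
      ((2 * ((S.card - ((k : ℕ) + 1) : ℕ) : ℝ) - S.card) ^ 2 - S.card)) *
        radonVector S.card S k = 2 * ∑ i : Fin (S.card / 2),
          (((S.card : ℝ) - 2 * ((i : ℝ) + 1)) ^ 2 - S.card) * radonVector S.card S i := by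
    rw [mul_sum]
    apply sum_congr rfl
    intro k _
    have hk : (k : ℕ) < S.card / 2 := k.2
    rw [Nat.cast_sub (by omega)]
    push_cast
    ring
  have e2 : ∑ k : Fin ((d + 2) / 2), ((2 * (((k : ℕ) + 1 : ℕ) : ℝ) - (d + 2)) ^ 2 - (d + 2) +
      ((2 * ((d + 2 - ((k : ℕ) + 1) : ℕ) : ℝ) - (d + 2)) ^ 2 - (d + 2))) *
        primitiveVector S k = 2 * ∑ i : Fin ((d + 2) / 2),
          (((d : ℝ) + 2 - 2 * ((i : ℝ) + 1)) ^ 2 - (d + 2)) * primitiveVector S i := by
    rw [mul_sum]
    apply sum_congr rfl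
    intro k _
    have hk : (k : ℕ) < (d + 2) / 2 := k.2
    rw [Nat.cast_sub (by omega)]
    push_cast
    ring
  rw [e1, e2] at h7
  linarith

theorem rel4 (hG : GP (hom (d := d)) S) (hS : d + 2 ≤ S.card) (hd : Odd d) (hs : Even S.card) :
    ∑ i : Fin (S.card / 2), (-1 : ℝ) ^ ((i : ℕ) + 1) * radonVector S.card S i = 0 := by
  have h1 := sum_ordered S.card (radonVector S.card S) (fun i => (-1) ^ i)
  have h2 := RR_weight (v := hom (d := d)) S (fun i => (-1) ^ i)
  have hne : S.Nonempty := by rw [← card_pos]; omega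
  have h3 : ∑ X ∈ S.powerset, (-1 : ℤ) ^ X.card * nn (hom (d := d)) S ∅ X = 0 := by
    have h4 := alt_sum hG (Subset.refl S) (by rw [finrank_W]; omega)
      (by rw [finrank_W]; exact hd.add_one) hne
    unfold nn
    simp only [mul_sub, mul_one]
    rw [sum_sub_distrib, h4, sum_powerset_neg_one_pow_card_of_nonempty hne, sub_zero]
  rw [h3] at h2
  have h5 : ∑ i ∈ range (S.card + 1), (-1 : ℝ) ^ i * ordered S.card (radonVector S.card S) i =
      0 := by
    have h6 : ∑ i ∈ range (S.card + 1), (-1 : ℝ) ^ i * (RR (hom (d := d)) S i : ℝ) = 0 := by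
      exact_mod_cast h2
    rw [← h6]
    apply sum_congr rfl
    intro i _
    rw [radonVector_ordered]
  rw [h5] at h1
  have e1 : ∑ k : Fin (S.card / 2), ((-1 : ℝ) ^ ((k : ℕ) + 1) +
      (-1) ^ (S.card - ((k : ℕ) + 1))) * radonVector S.card S k =
        2 * ∑ i : Fin (S.card / 2), (-1 : ℝ) ^ ((i : ℕ) + 1) * radonVector S.card S i := by
    rw [mul_sum]
    apply sum_congr rfl
    intro k _
    have hk : (k : ℕ) < S.card / 2 := k.2
    have : (-1 : ℝ) ^ (S.card - ((k : ℕ) + 1)) = (-1) ^ ((k : ℕ) + 1) := by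
      have h7 : (-1 : ℝ) ^ (S.card - ((k : ℕ) + 1)) * (-1) ^ ((k : ℕ) + 1) = 1 := by
        rw [← pow_add, Nat.sub_add_cancel (by omega)]
        exact hs.neg_one_pow
      rcases neg_one_pow_eq_or ℝ ((k : ℕ) + 1) with h8 | h8 <;> rw [h8] at h7 ⊢ <;> linarith
    rw [this]
    ring
  rw [e1] at h1
  linarith

theorem rel5 (hG : GP (hom (d := d)) S) (hS : S.card = d + 2) (i : ℕ) :
    ordered S.card (radonVector S.card S) i = ordered (d + 2) (primitiveVector S) i := by
  rw [radonVector_ordered, primitiveVector_ordered hG]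
  unfold RR PP
  rw [← hS, powersetCard_self, sum_singleton]

theorem powersetCard_pred {α : Type*} [DecidableEq α] (S : Finset α) {m : ℕ}
    (hS : S.card = m + 1) : S.powersetCard m = S.image (fun p => S.erase p) := by
  ext T
  rw [mem_powersetCard, mem_image]
  constructor
  · rintro ⟨h1, h2⟩
    have h3 : (S \ T).card = 1 := by rw [card_sdiff_of_subset h1]; omega
    obtain ⟨p, hp⟩ := card_eq_one.1 h3
    have hpS : p ∈ S \ T := by rw [hp]; exact mem_singleton_self p
    rw [mem_sdiff] at hpS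
    refine ⟨p, hpS.1, ?_⟩
    rw [← sdiff_singleton_eq_erase, ← hp, Finset.sdiff_sdiff_eq_self h1]
  · rintro ⟨p, hp, rfl⟩
    exact ⟨erase_subset p S, by rw [card_erase_of_mem hp]; omega⟩

theorem rel6 (hG : GP (hom (d := d)) S) (hS : S.card = d + 3) (i : ℕ) :
    2 * ordered S.card (radonVector S.card S) (i + 1) =
      ordered (d + 2) (primitiveVector S) i + ordered (d + 2) (primitiveVector S) (i + 1) := by
  rw [radonVector_ordered, primitiveVector_ordered hG, primitiveVector_ordered hG]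
  have hA : Adm (hom (d := d)) S S ∅ :=
    ⟨hG, Subset.refl _, empty_subset _, disjoint_empty_right _, by simp⟩
  have key := del_sum (d + 1) S ∅ hA (by rw [finrank_W]; simp) (by rw [hS])
  have h1 : 2 * RR (hom (d := d)) S (i + 1) = PP (hom (d := d)) S (d + 2) i +
      PP (hom (d := d)) S (d + 2) (i + 1) := by
    have h2 : 2 * RR (hom (d := d)) S (i + 1) =
        ∑ p ∈ S, ∑ X ∈ S.powersetCard (i + 1), nn (hom (d := d)) (S.erase p) ∅ X := by
      unfold RR
      rw [mul_sum, sum_comm]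
      apply sum_congr rfl
      intro X hX
      rw [key X (mem_powersetCard.1 hX).1]
    have hinj : Set.InjOn (fun p => S.erase p) (S : Set (E d)) := erase_injOn S
    have h3 : ∀ j, PP (hom (d := d)) S (d + 2) j =
        ∑ p ∈ S, ∑ X ∈ (S.erase p).powersetCard j, nn (hom (d := d)) (S.erase p) ∅ X := by
      intro j
      unfold PP
      rw [powersetCard_pred S (by rw [hS]), sum_image hinj]
    rw [h2, h3, h3, ← sum_add_distrib]
    apply sum_congr rfl
    intro p hp
    have e : insert p (S.erase p) = S := insert_erase hp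
    have e2 : S.powersetCard (i + 1) = (S.erase p).powersetCard (i + 1) ∪
        ((S.erase p).powersetCard i).image (insert p) := by
      conv_lhs => rw [← e]
      rw [powersetCard_succ_insert (notMem_erase p S)]
    rw [e2, sum_union, sum_image, add_comm]
    · congr 1
      apply sum_congr rfl
      intro X hX
      apply nn_congr
      intro x hx
      have : x ≠ p := (mem_erase.1 hx).1
      simp [this]
    · intro X hX Y hY h
      have hpX : p ∉ X := fun hx =>
        notMem_erase p S ((mem_powersetCard.1 (mem_coe.1 hX)).1 hx)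
      have hpY : p ∉ Y := fun hx =>
        notMem_erase p S ((mem_powersetCard.1 (mem_coe.1 hY)).1 hx)
      have := congrArg (fun s => s.erase p) h
      simpa [hpX, hpY] using this
    · rw [Finset.disjoint_left]
      intro X hX hX'
      rw [mem_image] at hX'
      obtain ⟨Y, _, rfl⟩ := hX'
      exact notMem_erase p S ((mem_powersetCard.1 hX).1 (mem_insert_self p Y))
  exact_mod_cast h1

end main

/-- all relations hold -/
theorem system_of_generalPosition {s d : ℕ} {S : Finset (E d)} (hs : d + 2 ≤ s)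
    (hc : S.card = s) (h : GeneralPosition S) :
    System s d (radonVector s S) (primitiveVector S) := by
  subst hc
  have hG : GP (hom (d := d)) S := gp_of_generalPosition h (by omega)
  refine ⟨rel1 hG, rel2 hG hs, rel3 hG, fun h1 h2 => rel4 hG hs h1 h2, fun h1 i _ => rel5 hG h1 i,
    fun h1 i hi => ?_, fun h1 i hi => ?_⟩
  · rw [mem_Icc] at hi
    obtain ⟨j, rfl⟩ : ∃ j, i = j + 1 := ⟨i - 1, by omega⟩
    rw [Nat.add_sub_cancel]
    exact rel6 hG h1 j
  · subst h1
    rw [mem_Icc] at hi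
    rw [radonVector_ordered, line_count S i hi.1 (by omega)]
    push_cast
    rfl

end Pool.Agent.T2h46.Radon
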