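import Mathlib

/-!
# Sign vectors of linear functionals on a finite family of vectors

`Cell v J K X`: some functional vanishes on `v k`, `k ∈ K`, is positive on `v i`, `i ∈ J ∩ X`, and
negative on `v i`, `i ∈ J \ X`.  The number of these sign vectors satisfies a deletion-contraction
recursion, from which all counting identities are deduced.
-/

set_option autoImplicit false
set_option linter.unusedSectionVars false

open Module Finset

namespace Pool.Agent.T2h46.Radon

section basic
variable {W : Type*} [AddCommGroup W] [Module ℝ W] {ι : Type*} [DecidableEq ι]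

/-- the sign vector `X` on `J` is realized by a functional vanishing on `K` -/
def Cell (v : ι → W) (J K X : Finset ι) : Prop :=
  ∃ f : Dual ℝ W, (∀ k ∈ K, f (v k) = 0) ∧ (∀ i ∈ J, i ∈ X → 0 < f (v i)) ∧
    ∀ i ∈ J, i ∉ X → f (v i) < 0

/-- linear general position on `U` -/
def GP (v : ι → W) (U : Finset ι) : Prop :=
  ∀ T ⊆ U, T.card ≤ finrank ℝ W → LinearIndepOn ℝ v (T : Set ι)

theorem prescribe {v : ι → W} {T : Finset ι} (h : LinearIndepOn ℝ v (T : Set ι)) (c : ι → ℝ) :
    ∃ f : Dual ℝ W, ∀ i ∈ T, f (v i) = c i := by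
  have h' : LinearIndependent ℝ (fun i : (T : Set ι) => v i) := h
  rw [linearIndependent_iff_ker] at h'
  obtain ⟨g, hg⟩ := LinearMap.exists_leftInverse_of_injective _ h'
  refine ⟨(Finsupp.linearCombination ℝ (fun i : (T : Set ι) => c i)) ∘ₗ g, fun i hi => ?_⟩
  have h1 := LinearMap.congr_fun hg (Finsupp.single (⟨i, hi⟩ : (T : Set ι)) 1)
  simp only [LinearMap.comp_apply, Finsupp.linearCombination_single, one_smul,
    LinearMap.id_apply] at h1
  rw [LinearMap.comp_apply, h1, Finsupp.linearCombination_single, one_smul]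

theorem vanish [FiniteDimensional ℝ W] {v : ι → W} {T : Finset ι}
    (h : LinearIndepOn ℝ v (T : Set ι)) (hT : T.card = finrank ℝ W) (f : Dual ℝ W)
    (hf : ∀ i ∈ T, f (v i) = 0) : f = 0 := by
  have h' : LinearIndependent ℝ (fun i : (T : Set ι) => v i) := h
  have hs : Submodule.span ℝ (Set.range (fun i : (T : Set ι) => v i)) = ⊤ := by
    apply h'.span_eq_top_of_card_eq_finrank'
    simpa using hT
  ext w
  have hw : w ∈ Submodule.span ℝ (Set.range (fun i : (T : Set ι) => v i)) := by
    rw [hs]; trivial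
  rw [LinearMap.zero_apply]
  induction hw using Submodule.span_induction with
  | mem x hx =>
    obtain ⟨i, rfl⟩ := hx
    exact hf i i.2
  | zero => simp
  | add x y _ _ hx hy => rw [map_add, hx, hy, add_zero]
  | smul a x _ hx => rw [map_smul, hx, smul_zero]

theorem Cell.mono {v : ι → W} {J J' K X : Finset ι} (hJ : J' ⊆ J) (h : Cell v J K X) :
    Cell v J' K X := by
  obtain ⟨f, h1, h2, h3⟩ := h
  exact ⟨f, h1, fun i hi => h2 i (hJ hi), fun i hi => h3 i (hJ hi)⟩

theorem Cell.congr {v : ι → W} {J K X Y : Finset ι} (h : ∀ i ∈ J, i ∈ X ↔ i ∈ Y) :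
    Cell v J K X ↔ Cell v J K Y := by
  constructor
  · rintro ⟨f, h1, h2, h3⟩
    exact ⟨f, h1, fun i hi hx => h2 i hi ((h i hi).2 hx),
      fun i hi hx => h3 i hi (fun hx' => hx ((h i hi).1 hx'))⟩
  · rintro ⟨f, h1, h2, h3⟩
    exact ⟨f, h1, fun i hi hx => h2 i hi ((h i hi).1 hx),
      fun i hi hx => h3 i hi (fun hx' => hx ((h i hi).2 hx'))⟩

theorem cell_compl {v : ι → W} {J K X : Finset ι} : Cell v J K (J \ X) ↔ Cell v J K X := by
  constructor
  · rintro ⟨f, h1, h2, h3⟩
    refine ⟨-f, fun k hk => by simp [h1 k hk], fun i hi hx => ?_, fun i hi hx => ?_⟩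
    · have := h3 i hi (by simp [hx])
      simpa using this
    · have := h2 i hi (by simp [hx, hi])
      simpa using this
  · rintro ⟨f, h1, h2, h3⟩
    refine ⟨-f, fun k hk => by simp [h1 k hk], fun i hi hx => ?_, fun i hi hx => ?_⟩
    · have := h3 i hi (by simp at hx; exact hx.2)
      simpa using this
    · have := h2 i hi (by simp [hi] at hx; exact hx)
      simpa using this

theorem cell_of_indep {v : ι → W} {J K X : Finset ι} (hd : Disjoint J K)
    (h : LinearIndepOn ℝ v ((J ∪ K : Finset ι) : Set ι)) : Cell v J K X := by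
  obtain ⟨f, hf⟩ := prescribe h (fun i => if i ∈ K then 0 else if i ∈ X then 1 else -1)
  refine ⟨f, fun k hk => ?_, fun i hi hx => ?_, fun i hi hx => ?_⟩
  · rw [hf k (mem_union_right _ hk), if_pos hk]
  · rw [hf i (mem_union_left _ hi), if_neg (fun hk => Finset.disjoint_left.1 hd hi hk), if_pos hx]
    norm_num
  · rw [hf i (mem_union_left _ hi), if_neg (fun hk => Finset.disjoint_left.1 hd hi hk), if_neg hx]
    norm_num

theorem not_cell_of_full [FiniteDimensional ℝ W] {v : ι → W} {J K X : Finset ι}
    (hJ : J.Nonempty) (hK : ∃ T ⊆ K, T.card = finrank ℝ W ∧ LinearIndepOn ℝ v (T : Set ι)) :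
    ¬ Cell v J K X := by
  rintro ⟨f, h1, h2, h3⟩
  obtain ⟨T, hT, hc, hi⟩ := hK
  have hf : f = 0 := vanish hi hc f (fun i hi => h1 i (hT hi))
  obtain ⟨j, hj⟩ := hJ
  by_cases hx : j ∈ X
  · have := h2 j hj hx
    rw [hf] at this
    simp at this
  · have := h3 j hj hx
    rw [hf] at this
    simp at this

theorem GP.exists_full {v : ι → W} {U K : Finset ι} (h : GP v U) (hK : K ⊆ U)
    (hc : finrank ℝ W ≤ K.card) :
    ∃ T ⊆ K, T.card = finrank ℝ W ∧ LinearIndepOn ℝ v (T : Set ι) := by
  obtain ⟨T, hT, hT'⟩ := Finset.exists_subset_card_eq hc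
  exact ⟨T, hT, hT', h T (hT.trans hK) hT'.le⟩

/-- a small perturbation of a functional keeps finitely many signs -/
theorem perturb {v : ι → W} {J K X : Finset ι} {f g : Dual ℝ W}
    (hK : ∀ k ∈ K, f (v k) = 0) (hKg : ∀ k ∈ K, g (v k) = 0)
    (hp : ∀ i ∈ J, i ∈ X → 0 < f (v i)) (hn : ∀ i ∈ J, i ∉ X → f (v i) < 0) :
    ∃ ε : ℝ, 0 < ε ∧ ∀ δ : ℝ, |δ| ≤ ε → (∀ k ∈ K, (f + δ • g) (v k) = 0) ∧
      (∀ i ∈ J, i ∈ X → 0 < (f + δ • g) (v i)) ∧ ∀ i ∈ J, i ∉ X → (f + δ • g) (v i) < 0 := by
  classical
  -- choose ε with ε |g (v i)| < |f (v i)|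
  have key : ∃ ε : ℝ, 0 < ε ∧ ∀ i ∈ J, ε * |g (v i)| < |f (v i)| := by
    have hpos : ∀ i ∈ J, 0 < |f (v i)| := by
      intro i hi
      by_cases hx : i ∈ X
      · exact abs_pos.2 (hp i hi hx).ne'
      · exact abs_pos.2 (hn i hi hx).ne
    clear hp hn
    induction J using Finset.induction_on with
    | empty => exact ⟨1, one_pos, by simp⟩
    | insert a J ha ih =>
      obtain ⟨ε, hε, h⟩ := ih (fun i hi => hpos i (mem_insert_of_mem hi))
      have ha' := hpos a (mem_insert_self a J)
      refine ⟨min ε (|f (v a)| / (|g (v a)| + 1)), lt_min hε (by positivity), fun i hi => ?_⟩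
      rcases mem_insert.1 hi with rfl | hi
      · calc min ε (|f (v i)| / (|g (v i)| + 1)) * |g (v i)|
            ≤ (|f (v i)| / (|g (v i)| + 1)) * |g (v i)| :=
              mul_le_mul_of_nonneg_right (min_le_right _ _) (abs_nonneg _)
          _ < |f (v i)| := by
              rw [div_mul_eq_mul_div, div_lt_iff₀ (by positivity)]
              nlinarith [abs_nonneg (g (v i))]
      · exact lt_of_le_of_lt (mul_le_mul_of_nonneg_right (min_le_left _ _) (abs_nonneg _)) (h i hi)
  obtain ⟨ε, hε, h⟩ := key
  refine ⟨ε, hε, fun δ hδ => ⟨fun k hk => ?_, fun i hi hx => ?_, fun i hi hx => ?_⟩⟩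
  · simp [hK k hk, hKg k hk]
  · have h1 := h i hi
    have h2 := hp i hi hx
    rw [abs_of_pos h2] at h1
    have h3 : |δ * g (v i)| < f (v i) := by
      rw [abs_mul]
      exact lt_of_le_of_lt (mul_le_mul_of_nonneg_right hδ (abs_nonneg _)) h1
    have h4 := (abs_lt.1 h3).1
    simp only [LinearMap.add_apply, LinearMap.smul_apply, smul_eq_mul]
    linarith
  · have h1 := h i hi
    have h2 := hn i hi hx
    rw [abs_of_neg h2] at h1
    have h3 : |δ * g (v i)| < -f (v i) := by
      rw [abs_mul]
      exact lt_of_le_of_lt (mul_le_mul_of_nonneg_right hδ (abs_nonneg _)) h1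
    have h4 := (abs_lt.1 h3).2
    simp only [LinearMap.add_apply, LinearMap.smul_apply, smul_eq_mul]
    linarith

open Classical in
/-- the indicator of `Cell` -/
noncomputable def cc (v : ι → W) (J K X : Finset ι) : ℤ := if Cell v J K X then 1 else 0

open Classical in
/-- deletion-contraction for the indicators -/
theorem cc_rec {v : ι → W} {J K X : Finset ι} {p : ι} (hpJ : p ∉ J) (hpX : p ∉ X)
    (hind : LinearIndepOn ℝ v ((insert p K : Finset ι) : Set ι)) (hpK : p ∉ K) :
    cc v (insert p J) K X + cc v (insert p J) K (insert p X) =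
      cc v J K X + cc v J (insert p K) X := by
  -- a functional vanishing on K with value 1 at p
  obtain ⟨g, hg⟩ := prescribe hind (fun i => if i = p then 1 else 0)
  have hgp : g (v p) = 1 := by rw [hg p (mem_insert_self p K), if_pos rfl]
  have hgK : ∀ k ∈ K, g (v k) = 0 := by
    intro k hk
    rw [hg k (mem_insert_of_mem hk), if_neg (by rintro rfl; exact hpK hk)]
  -- cell minus
  have m1 : Cell v (insert p J) K X → Cell v J K X := Cell.mono (subset_insert p J)
  have m2 : Cell v (insert p J) K (insert p X) → Cell v J K X := by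
    intro h
    refine (Cell.congr ?_).1 (h.mono (subset_insert p J))
    intro i hi
    rw [mem_insert]
    constructor
    · rintro (rfl | h)
      · exact absurd hi hpJ
      · exact h
    · exact Or.inr
  have m3 : Cell v J (insert p K) X → Cell v (insert p J) K X ∧
      Cell v (insert p J) K (insert p X) := by
    rintro ⟨f, h1, h2, h3⟩
    obtain ⟨ε, hε, h⟩ := perturb (K := K) (fun k hk => h1 k (mem_insert_of_mem hk)) hgK h2 h3
    have hfp := h1 p (mem_insert_self p K)
    constructor
    · obtain ⟨a1, a2, a3⟩ := h (-ε) (by rw [abs_neg, abs_of_pos hε])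
      refine ⟨_, a1, fun i hi hx => ?_, fun i hi hx => ?_⟩
      · rcases mem_insert.1 hi with rfl | hi
        · exact absurd hx hpX
        · exact a2 i hi hx
      · rcases mem_insert.1 hi with rfl | hi
        · simp [hfp, hgp, hε]
        · exact a3 i hi hx
    · obtain ⟨a1, a2, a3⟩ := h ε (by rw [abs_of_pos hε])
      refine ⟨_, a1, fun i hi hx => ?_, fun i hi hx => ?_⟩
      · rcases mem_insert.1 hi with rfl | hi'
        · simp [hfp, hgp, hε]
        · refine a2 i hi' ?_
          rcases mem_insert.1 hx with hx | hx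
          · exact absurd (hx ▸ hi') hpJ
          · exact hx
      · rcases mem_insert.1 hi with rfl | hi
        · exact absurd (mem_insert_self i X) hx
        · exact a3 i hi (fun hx' => hx (mem_insert_of_mem hx'))
  have m4 : Cell v (insert p J) K X → Cell v (insert p J) K (insert p X) →
      Cell v J (insert p K) X := by
    rintro ⟨f, h1, h2, h3⟩ ⟨f', h1', h2', h3'⟩
    have b1 : f (v p) < 0 := h3 p (mem_insert_self p J) hpX
    have b2 : 0 < f' (v p) := h2' p (mem_insert_self p J) (mem_insert_self p X)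
    refine ⟨f' (v p) • f - f (v p) • f', fun k hk => ?_, fun i hi hx => ?_, fun i hi hx => ?_⟩
    · rcases mem_insert.1 hk with rfl | hk
      · simp [mul_comm]
      · simp [h1 k hk, h1' k hk]
    · have c1 := h2 i (mem_insert_of_mem hi) hx
      have c2 := h2' i (mem_insert_of_mem hi) (mem_insert_of_mem hx)
      simp only [LinearMap.sub_apply, LinearMap.smul_apply, smul_eq_mul]
      nlinarith [mul_pos b2 c1, mul_pos (neg_pos.2 b1) c2]
    · have c1 := h3 i (mem_insert_of_mem hi) hx
      have c2 := h3' i (mem_insert_of_mem hi) (by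
        rw [mem_insert]
        rintro (rfl | h)
        · exact hpJ hi
        · exact hx h)
      simp only [LinearMap.sub_apply, LinearMap.smul_apply, smul_eq_mul]
      nlinarith [mul_pos b2 (neg_pos.2 c1), mul_pos (neg_pos.2 b1) (neg_pos.2 c2)]
  have m5 : Cell v J K X → Cell v (insert p J) K X ∨ Cell v (insert p J) K (insert p X) := by
    rintro ⟨f, h1, h2, h3⟩
    rcases lt_trichotomy (f (v p)) 0 with h0 | h0 | h0
    · left
      refine ⟨f, h1, fun i hi hx => ?_, fun i hi hx => ?_⟩
      · rcases mem_insert.1 hi with rfl | hi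
        · exact absurd hx hpX
        · exact h2 i hi hx
      · rcases mem_insert.1 hi with rfl | hi
        · exact h0
        · exact h3 i hi hx
    · left
      refine (m3 ⟨f, fun k hk => ?_, h2, h3⟩).1
      rcases mem_insert.1 hk with rfl | hk
      · exact h0
      · exact h1 k hk
    · right
      refine ⟨f, h1, fun i hi hx => ?_, fun i hi hx => ?_⟩
      · rcases mem_insert.1 hi with rfl | hi'
        · exact h0
        · refine h2 i hi' ?_
          rcases mem_insert.1 hx with hx | hx
          · exact absurd (hx ▸ hi') hpJ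
          · exact hx
      · rcases mem_insert.1 hi with rfl | hi
        · exact absurd (mem_insert_self i X) hx
        · exact h3 i hi (fun hx' => hx (mem_insert_of_mem hx'))
  unfold cc
  by_cases e1 : Cell v (insert p J) K X <;> by_cases e2 : Cell v (insert p J) K (insert p X)
  · rw [if_pos e1, if_pos e2, if_pos (m1 e1), if_pos (m4 e1 e2)]
  · rw [if_pos e1, if_neg e2, if_pos (m1 e1), if_neg (fun h => e2 (m3 h).2)]
  · rw [if_neg e1, if_pos e2, if_pos (m2 e2), if_neg (fun h => e1 (m3 h).1)]; norm_num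
  · rw [if_neg e1, if_neg e2, if_neg (fun h => by rcases m5 h with h | h; exacts [e1 h, e2 h]),
      if_neg (fun h => e1 (m3 h).1)]

end basic

end Pool.Agent.T2h46.Radon
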