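import Pool.Agent.T2h46.Radon.MutSum

/-!
# Degenerate positions with prescribed type
-/

set_option autoImplicit false
set_option linter.unusedSectionVars false

open Module Finset Polynomial Filter Topology

namespace Pool.Agent.T2h46.Radon

/-- the moment curve -/
noncomputable def curve (d : ℕ) (t : ℝ) : E d := WithLp.toLp 2 (fun i => t ^ ((i : ℕ) + 1))

/-- the functional of a polynomial of degree at most `d` -/
noncomputable def pf (d : ℕ) (p : ℝ[X]) : Dual ℝ (E d × ℝ) :=
  p.coeff 0 • LinearMap.snd ℝ (E d) ℝ + ∑ i : Fin d, p.coeff ((i : ℕ) + 1) •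
    ((EuclideanSpace.proj i : E d →L[ℝ] ℝ).toLinearMap ∘ₗ LinearMap.fst ℝ (E d) ℝ)

theorem pf_apply {d : ℕ} (p : ℝ[X]) (x : E d) (r : ℝ) :
    pf d p (x, r) = p.coeff 0 * r + ∑ i : Fin d, p.coeff ((i : ℕ) + 1) * x i := by
  unfold pf
  simp [LinearMap.sum_apply]

theorem pf_curve {d : ℕ} {p : ℝ[X]} (hp : p.natDegree ≤ d) (t : ℝ) :
    pf d p (hom (curve d t)) = p.eval t := by
  unfold hom
  rw [pf_apply, Polynomial.eval_eq_sum_range' (Nat.lt_succ_of_le hp), Finset.sum_range_succ']
  have : ∑ i : Fin d, p.coeff ((i : ℕ) + 1) * (curve d t) i =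
      ∑ i : Fin d, (fun k : ℕ => p.coeff (k + 1) * t ^ (k + 1)) (i : ℕ) := by
    apply Finset.sum_congr rfl
    intro i _
    rfl
  rw [this, Fin.sum_univ_eq_sum_range (fun k : ℕ => p.coeff (k + 1) * t ^ (k + 1)) d]
  ring

theorem gp_curve {d : ℕ} {κ : Type*} [DecidableEq κ] {τ : κ → ℝ} (hτ : Function.Injective τ)
    (T : Finset κ) (hT : T.card ≤ d + 1) :
    LinearIndepOn ℝ (fun k => hom (curve d (τ k))) (T : Set κ) := by
  apply indep_of_cells
  intro X _
  set p := Lagrange.interpolate T τ (fun i => if i ∈ X then (1 : ℝ) else -1) with hp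
  have hdeg : p.natDegree ≤ d := by
    have h1 := Lagrange.degree_interpolate_lt (s := T) (v := τ)
      (fun i => if i ∈ X then (1 : ℝ) else -1) hτ.injOn
    rw [← hp] at h1
    rw [Polynomial.natDegree_le_iff_degree_le]
    have h2 : p.degree < ((d + 1 : ℕ) : WithBot ℕ) := lt_of_lt_of_le h1 (by exact_mod_cast hT)
    by_cases h0 : p = 0
    · rw [h0, degree_zero]; exact bot_le
    · rw [degree_eq_natDegree h0] at h2 ⊢
      have : p.natDegree < d + 1 := by exact_mod_cast h2
      exact_mod_cast Nat.lt_succ_iff.1 this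
  refine ⟨pf d p, by simp, fun i hi hx => ?_, fun i hi hx => ?_⟩
  · rw [pf_curve hdeg, hp, Lagrange.eval_interpolate_at_node _ hτ.injOn hi, if_pos hx]
    norm_num
  · rw [pf_curve hdeg, hp, Lagrange.eval_interpolate_at_node _ hτ.injOn hi, if_neg hx]
    norm_num

/-- avoiding finitely many hyperplanes near a point -/
theorem avoid {m : ℕ} {K : Type*} (s : Finset K) (φ : K → Dual ℝ (Fin m → ℝ))
    (hφ : ∀ k ∈ s, φ k ≠ 0) (μ : Fin m → ℝ) {δ : ℝ} (hδ : 0 < δ) :
    ∃ ν : Fin m → ℝ, (∀ i, |ν i - μ i| < δ) ∧ ∀ k ∈ s, φ k ν ≠ 0 := by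
  obtain ⟨u, hu⟩ := Module.Dual.exists_forall_ne_zero_of_forall_exists
    (fun k : s => φ k) (by
      intro k
      by_contra hcon
      push Not at hcon
      apply hφ k k.2
      ext1 x
      ext
      simpa using hcon _)
  have h1 : ∀ i : Fin m, ∀ᶠ ε : ℝ in 𝓝[≠] 0, |(μ i + ε * u i) - μ i| < δ := by
    intro i
    have hc : Continuous fun ε : ℝ => |(μ i + ε * u i) - μ i| := by fun_prop
    have h0 : |(μ i + 0 * u i) - μ i| < δ := by simpa using hδ
    exact (hc.continuousAt.eventually (gt_mem_nhds h0)).filter_mono nhdsWithin_le_nhds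
  have h2 : ∀ k ∈ s, ∀ᶠ ε : ℝ in 𝓝[≠] 0, φ k (μ + ε • u) ≠ 0 := by
    intro k hk
    have huk := hu ⟨k, hk⟩
    simp only at huk
    by_cases h0 : φ k μ = 0
    · filter_upwards [self_mem_nhdsWithin] with ε hε
      rw [map_add, map_smul, h0, zero_add, smul_eq_mul]
      exact mul_ne_zero hε huk
    · have hc : Continuous fun ε : ℝ => φ k μ + ε * φ k u := by fun_prop
      have h3 : φ k μ + 0 * φ k u ≠ 0 := by simpa using h0
      have h4 := (hc.continuousAt.eventually_ne h3).filter_mono
        (nhdsWithin_le_nhds (s := {0}ᶜ))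
      filter_upwards [h4] with ε hε
      rw [map_add, map_smul, smul_eq_mul]
      exact hε
  have h3 := (Filter.eventually_all.2 h1).and ((Filter.eventually_all_finset s).2 h2)
  obtain ⟨ε, hε1, hε2⟩ := h3.exists
  exact ⟨μ + ε • u, fun i => by simpa using hε1 i, hε2⟩

section config
variable (d a b : ℕ)

/-- the parameters of the points on the moment curve -/
noncomputable def tau : Fin d ⊕ (Fin a ⊕ Fin b) → ℝ
  | Sum.inl i => (i : ℕ)
  | Sum.inr (Sum.inl m) => (d : ℝ) + (m : ℕ)
  | Sum.inr (Sum.inr m) => (d : ℝ) - 1 - 1 / ((m : ℕ) + 2)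

variable {d a b}

theorem aux_lt (m : ℕ) : 0 < 1 / ((m : ℝ) + 2) ∧ 1 / ((m : ℝ) + 2) < 1 := by
  have hm : (0 : ℝ) ≤ m := Nat.cast_nonneg m
  constructor
  · positivity
  · rw [div_lt_one (by positivity)]
    linarith

theorem aux_ne (i : Fin d) (m : ℕ) : ((i : ℕ) : ℝ) ≠ (d : ℝ) - 1 - 1 / ((m : ℝ) + 2) := by
  obtain ⟨h1, h2⟩ := aux_lt m
  have hi : (i : ℕ) < d := i.2
  intro h
  have h3 : ((i : ℕ) : ℝ) < (d : ℝ) - 1 := by linarith
  have h4 : ((i : ℕ) : ℝ) + 1 < (d : ℝ) := by linarith
  have h5 : (i : ℕ) + 1 < d := by exact_mod_cast h4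
  have h6 : ((i : ℕ) : ℝ) + 2 ≤ (d : ℝ) := by exact_mod_cast (by omega : (i : ℕ) + 2 ≤ d)
  linarith

theorem tau_inj : Function.Injective (tau d a b) := by
  rintro (i | i | i) (j | j | j) h
  · simp only [tau] at h
    have : i = j := Fin.ext (by exact_mod_cast h)
    rw [this]
  · simp only [tau] at h
    exfalso
    have h1 : (i : ℕ) = d + (j : ℕ) := by exact_mod_cast h
    have := i.2
    omega
  · simp only [tau] at h
    exact absurd h (aux_ne i j)
  · simp only [tau] at h
    exfalso
    have h1 : d + (i : ℕ) = (j : ℕ) := by exact_mod_cast h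
    have := j.2
    omega
  · simp only [tau] at h
    have h1 : d + (i : ℕ) = d + (j : ℕ) := by exact_mod_cast h
    have : i = j := Fin.ext (by omega)
    rw [this]
  · simp only [tau] at h
    exfalso
    have := aux_lt j
    have h2 : (0 : ℝ) ≤ ((i : ℕ) : ℝ) := Nat.cast_nonneg _
    linarith
  · simp only [tau] at h
    exact absurd h.symm (aux_ne j i)
  · simp only [tau] at h
    exfalso
    have := aux_lt i
    have h2 : (0 : ℝ) ≤ ((j : ℕ) : ℝ) := Nat.cast_nonneg _
    linarith
  · simp only [tau] at h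
    have h1 : 1 / (((i : ℕ) : ℝ) + 2) = 1 / (((j : ℕ) : ℝ) + 2) := by linarith
    have h2 : (((i : ℕ) : ℝ) + 2) = (((j : ℕ) : ℝ) + 2) := by
      rw [div_eq_div_iff (by positivity) (by positivity)] at h1
      linarith
    have h3 : (i : ℕ) = (j : ℕ) := by
      have : ((i : ℕ) : ℝ) = ((j : ℕ) : ℝ) := by linarith
      exact_mod_cast this
    rw [Fin.ext h3]

/-- the polynomial vanishing at `0, …, d - 1` -/
noncomputable def poly (d : ℕ) : ℝ[X] := ∏ i ∈ range d, (X - C (i : ℝ))

theorem poly_natDegree : (poly d).natDegree = d := by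
  unfold poly
  rw [natDegree_prod_of_monic _ _ (fun i _ => monic_X_sub_C _)]
  have : ∀ i ∈ range d, (X - C (i : ℝ) : ℝ[X]).natDegree = 1 := fun i _ => natDegree_X_sub_C _
  rw [Finset.sum_congr rfl this]
  simp

theorem poly_eval (t : ℝ) : (poly d).eval t = ∏ i ∈ range d, (t - (i : ℝ)) := by
  unfold poly
  rw [eval_prod]
  simp

theorem poly_coeff : (poly d).coeff d = 1 := by
  have h1 : (poly d).Monic := by
    unfold poly
    exact monic_prod_of_monic _ _ (fun i _ => monic_X_sub_C _)
  have h2 := h1.coeff_natDegree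
  rwa [poly_natDegree] at h2

theorem exists_degen {t : ℕ} (hd : 1 ≤ d) (ht : 1 ≤ t) (htd : t ≤ d) :
    ∃ (x : Option (Fin d ⊕ (Fin a ⊕ Fin b)) → E d)
      (T : Finset (Option (Fin d ⊕ (Fin a ⊕ Fin b)))) (h : Dual ℝ (E d × ℝ))
      (lam : Option (Fin d ⊕ (Fin a ⊕ Fin b)) → ℝ) (e : E d),
      Degen (fun i => hom (x i)) univ T h lam none (e, 0) ∧
        Typ (fun i => hom (x i)) univ T h lam t (d + 1 - t) a b ∧ lam none = -1 := by
  classical
  set w : Fin d ⊕ (Fin a ⊕ Fin b) → E d × ℝ := fun k => hom (curve d (tau d a b k)) with hw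
  have hgp : ∀ T : Finset (Fin d ⊕ (Fin a ⊕ Fin b)), T.card ≤ d + 1 →
      LinearIndepOn ℝ w (T : Set _) := fun T hT => gp_curve tau_inj T hT
  set D : Finset (Fin d ⊕ (Fin a ⊕ Fin b)) := univ.map Function.Embedding.inl with hD
  have hDc : D.card = d := by simp [hD]
  have hDmem : ∀ k, k ∈ D ↔ ∃ i : Fin d, k = Sum.inl i := by
    intro k
    simp only [hD, Finset.mem_map, mem_univ, true_and, Function.Embedding.inl_apply]
    exact ⟨fun ⟨i, hi⟩ => ⟨i, hi.symm⟩, fun ⟨i, hi⟩ => ⟨i, hi.symm⟩⟩
  -- functionals for the small sets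
  have hfun : ∀ T : Finset (Fin d ⊕ (Fin a ⊕ Fin b)), T.card ≤ d → T ≠ D →
      ∃ f : Dual ℝ (E d × ℝ), (∀ k ∈ T, f (w k) = 0) ∧ ∃ i : Fin d, f (w (Sum.inl i)) ≠ 0 := by
    intro T hT hTD
    obtain ⟨i, hi⟩ : ∃ i : Fin d, Sum.inl i ∉ T := by
      by_contra hcon
      push Not at hcon
      have hsub : D ⊆ T := by
        intro k hk
        obtain ⟨i, rfl⟩ := (hDmem k).1 hk
        exact hcon i
      exact hTD (eq_of_subset_of_card_le hsub (by rw [hDc]; exact hT)).symm
    obtain ⟨f, hf⟩ := prescribe (hgp (insert (Sum.inl i) T) (by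
      rw [card_insert_of_notMem hi]; omega)) (fun k => if k = Sum.inl i then 1 else 0)
    refine ⟨f, fun k hk => ?_, i, ?_⟩
    · rw [hf k (mem_insert_of_mem hk), if_neg (by rintro rfl; exact hi hk)]
    · rw [hf _ (mem_insert_self _ _), if_pos rfl]
      norm_num
  choose! F hF0 hF1 using hfun
  -- generic coefficients
  set bad : Finset (Finset (Fin d ⊕ (Fin a ⊕ Fin b))) :=
    univ.filter (fun T => T.card ≤ d ∧ T ≠ D) with hbad
  set φ : Finset (Fin d ⊕ (Fin a ⊕ Fin b)) → Dual ℝ (Fin d → ℝ) := fun T =>
    ∑ i : Fin d, F T (w (Sum.inl i)) • LinearMap.proj i with hφ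
  have hφa : ∀ T μ, φ T μ = ∑ i : Fin d, F T (w (Sum.inl i)) * μ i := by
    intro T μ
    simp [hφ, LinearMap.sum_apply]
  have hφ0 : ∀ T ∈ bad, φ T ≠ 0 := by
    intro T hT h0
    rw [hbad, mem_filter] at hT
    obtain ⟨i, hi⟩ := hF1 T hT.2.1 hT.2.2
    apply hi
    have h1 := hφa T (Pi.single i 1)
    rw [h0, LinearMap.zero_apply] at h1
    rw [Finset.sum_eq_single i] at h1
    · simpa using h1.symm
    · intro j _ hj
      rw [Pi.single_eq_of_ne hj, mul_zero]
    · intro h2
      exact absurd (mem_univ _) h2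
  obtain ⟨ν, hν1, hν2⟩ := avoid bad φ hφ0
    (fun i : Fin d => if (i : ℕ) < t then 2 * (d : ℝ) else -1) (δ := 1 / 2) (by norm_num)
  have hνpos : ∀ i : Fin d, (i : ℕ) < t → 2 * (d : ℝ) - 1 / 2 < ν i := by
    intro i hi
    have := hν1 i
    simp only [if_pos hi] at this
    have := (abs_lt.1 this).1
    linarith
  have hνneg : ∀ i : Fin d, ¬ (i : ℕ) < t → ν i < -1 / 2 ∧ -(3 / 2) < ν i := by
    intro i hi
    have := hν1 i
    simp only [if_neg hi] at this
    have := (abs_lt.1 this)
    constructor <;> linarith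
  have hd' : (1 : ℝ) ≤ d := by exact_mod_cast hd
  have hνge : ∀ i : Fin d, -(3 / 2) ≤ ν i := by
    intro i
    by_cases hi : (i : ℕ) < t
    · have := hνpos i hi
      linarith
    · exact (hνneg i hi).2.le
  set N := ∑ i : Fin d, ν i with hN
  have hNpos : 0 < N := by
    rw [hN, ← add_sum_erase univ ν (mem_univ (⟨0, hd⟩ : Fin d))]
    have h1 := hνpos ⟨0, hd⟩ ht
    have h2 : ((univ.erase (⟨0, hd⟩ : Fin d)).card : ℕ) • (-(3 / 2) : ℝ) ≤
        ∑ i ∈ univ.erase (⟨0, hd⟩ : Fin d), ν i :=
      card_nsmul_le_sum _ _ _ (fun i _ => hνge i)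
    rw [card_erase_of_mem (mem_univ _), card_univ, Fintype.card_fin, nsmul_eq_mul,
      Nat.cast_sub hd] at h2
    push_cast at h2
    linarith
  set μ : Fin d → ℝ := fun i => ν i / N with hμ
  have hμsum : ∑ i, μ i = 1 := by
    rw [hμ, ← sum_div, ← hN]
    exact div_self hNpos.ne'
  have hμpos : ∀ i : Fin d, 0 < μ i ↔ (i : ℕ) < t := by
    intro i
    constructor
    · intro h1
      by_contra h2
      have h3 := (hνneg i h2).1
      have h4 : μ i ≤ 0 := div_nonpos_of_nonpos_of_nonneg (by linarith) hNpos.le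
      linarith
    · intro h1
      have := hνpos i h1
      exact div_pos (by linarith) hNpos
  have hμne : ∀ i : Fin d, μ i ≠ 0 := by
    intro i h1
    by_cases h2 : (i : ℕ) < t
    · exact absurd h1 ((hμpos i).2 h2).ne'
    · have h3 := (hνneg i h2).1
      have h4 : μ i < 0 := div_neg_of_neg_of_pos (by linarith) hNpos
      linarith
  -- the points
  set x : Option (Fin d ⊕ (Fin a ⊕ Fin b)) → E d := fun o =>
    o.elim (∑ i : Fin d, μ i • curve d (tau d a b (Sum.inl i))) (fun k => curve d (tau d a b k))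
    with hx
  have hxs : ∀ k, hom (x (some k)) = w k := fun k => rfl
  have hxn : hom (x none) = ∑ i : Fin d, μ i • w (Sum.inl i) := by
    have e1 : ∑ i : Fin d, μ i • w (Sum.inl i) =
        (∑ i : Fin d, μ i • curve d (tau d a b (Sum.inl i)), ∑ i : Fin d, μ i) := by
      apply Prod.ext
      · rw [Prod.fst_sum]
        rfl
      · rw [Prod.snd_sum]
        apply Finset.sum_congr rfl
        intro i _
        simp [hw, hom]
    rw [e1, hμsum]
    rfl
  set lam : Option (Fin d ⊕ (Fin a ⊕ Fin b)) → ℝ := fun o =>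
    o.elim (-1) (fun k => Sum.elim μ (fun _ => 1) k) with hlam
  set h := pf d (poly d) with hh
  have hcurve : ∀ t, h (hom (curve d t)) = ∏ i ∈ range d, (t - (i : ℝ)) := by
    intro t
    rw [hh, pf_curve poly_natDegree.le, poly_eval]
  have hD0 : ∀ i : Fin d, h (w (Sum.inl i)) = 0 := by
    intro i
    rw [hw]
    simp only
    rw [hcurve]
    apply Finset.prod_eq_zero (mem_range.2 i.2)
    simp [tau]
  have hA0 : ∀ m : Fin a, 0 < h (w (Sum.inr (Sum.inl m))) := by
    intro m
    rw [hw]
    simp only
    rw [hcurve]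
    apply Finset.prod_pos
    intro i hi
    have h1 : (i : ℝ) < d := by exact_mod_cast mem_range.1 hi
    have h2 : (0 : ℝ) ≤ ((m : ℕ) : ℝ) := Nat.cast_nonneg _
    simp only [tau]
    linarith
  have hB0 : ∀ m : Fin b, h (w (Sum.inr (Sum.inr m))) < 0 := by
    intro m
    rw [hw]
    simp only
    rw [hcurve]
    obtain ⟨d', rfl⟩ : ∃ d', d = d' + 1 := ⟨d - 1, by omega⟩
    rw [Finset.prod_range_succ]
    obtain ⟨h1, h2⟩ := aux_lt m
    apply mul_neg_of_pos_of_neg
    · apply Finset.prod_pos
      intro i hi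
      have h1 : (i : ℝ) + 1 ≤ d' := by exact_mod_cast mem_range.1 hi
      simp only [tau]
      push_cast
      linarith
    · simp only [tau]
      push_cast
      linarith
  set T := insertNone D with hT
  have hTn : none ∈ T := by simp [hT]
  have hTs : ∀ k, some k ∈ T ↔ k ∈ D := by intro k; simp [hT]
  refine ⟨x, T, h, lam, EuclideanSpace.single ⟨d - 1, by omega⟩ 1, ?_, ?_, rfl⟩
  · refine ⟨subset_univ _, ?_, ?_, ?_, ?_, hTn, ?_, ?_, ?_⟩
    · rw [hT, card_insertNone, hDc, finrank_W]
    · rintro (_ | k) hi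
      · simp only [hxn]
        rw [map_sum]
        apply Finset.sum_eq_zero
        intro i _
        rw [map_smul, hD0, smul_zero]
      · rw [hTs, hDmem] at hi
        obtain ⟨i, rfl⟩ := hi
        exact hD0 i
    · rintro (_ | k) _ hi
      · exact absurd hTn hi
      · rw [hTs, hDmem] at hi
        rcases k with i | m | m
        · exact absurd ⟨i, rfl⟩ hi
        · exact (hA0 m).ne'
        · exact (hB0 m).ne
    · rw [hh, pf_apply, Finset.sum_eq_single (⟨d - 1, by omega⟩ : Fin d)]
      · have e1 : ((⟨d - 1, by omega⟩ : Fin d) : ℕ) + 1 = d := by simp only; omega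
        rw [e1, poly_coeff]
        simp
      · intro i _ hi
        rw [EuclideanSpace.single_apply, if_neg hi, mul_zero]
      · intro h1
        exact absurd (mem_univ _) h1
    · rintro (_ | k) hi
      · simp [hlam]
      · rw [hTs, hDmem] at hi
        obtain ⟨i, rfl⟩ := hi
        exact hμne i
    · rw [hT, Finset.sum_insertNone, hD, Finset.sum_map]
      simp only [hxn, hxs]
      have : ∀ i : Fin d, lam (some (Function.Embedding.inl i)) •
          w (Function.Embedding.inl i : Fin d ⊕ (Fin a ⊕ Fin b)) = μ i • w (Sum.inl i) :=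
        fun i => rfl
      rw [Finset.sum_congr rfl (fun i _ => this i)]
      simp [hlam]
    · intro T' _ hc hne
      rw [finrank_W] at hc
      apply indep_of_cells
      intro X _
      by_cases hn : none ∈ T'
      · -- the point `none` is used
        have hcard : (eraseNone T').card + 1 = T'.card := by
          rw [← card_insertNone, insertNone_eraseNone, insert_eq_of_mem hn]
        have hne' : eraseNone T' ≠ D := by
          intro he
          apply hne
          rw [hT, ← he, insertNone_eraseNone, insert_eq_of_mem hn]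
        obtain ⟨f, hf⟩ := prescribe (hgp (eraseNone T') (by omega))
          (fun k => if some k ∈ X then 1 else -1)
        have hF := hF0 (eraseNone T') (by omega) hne'
        have hFn : F (eraseNone T') (hom (x none)) ≠ 0 := by
          rw [hxn, map_sum]
          have h1 := hν2 (eraseNone T') (by
            rw [hbad, mem_filter]
            exact ⟨mem_univ _, by omega, hne'⟩)
          rw [hφa] at h1
          intro h2
          apply h1
          have h3 : ∑ i : Fin d, F (eraseNone T') (w (Sum.inl i)) * ν i =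
              N * ∑ i : Fin d, F (eraseNone T') (μ i • w (Sum.inl i)) := by
            rw [mul_sum]
            apply Finset.sum_congr rfl
            intro i _
            rw [map_smul, smul_eq_mul, hμ]
            field_simp
          rw [h3, h2, mul_zero]
        set c := ((if (none : Option (Fin d ⊕ (Fin a ⊕ Fin b))) ∈ X then (1 : ℝ) else -1) -
          f (hom (x none))) / F (eraseNone T') (hom (x none)) with hcdef
        have hval : ∀ o ∈ T', (f + c • F (eraseNone T')) (hom (x o)) =
            if o ∈ X then 1 else -1 := by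
          rintro (_ | k) ho
          · simp only [LinearMap.add_apply, LinearMap.smul_apply, smul_eq_mul, hcdef]
            rw [div_mul_cancel₀ _ hFn]
            ring
          · have hk : k ∈ eraseNone T' := mem_eraseNone.2 ho
            simp only [LinearMap.add_apply, LinearMap.smul_apply, smul_eq_mul]
            rw [hxs, hF k hk, mul_zero, add_zero, hf k hk]
        refine ⟨f + c • F (eraseNone T'), by simp, fun o ho hX => ?_, fun o ho hX => ?_⟩
        · have h1 := hval o ho
          rw [if_pos hX] at h1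
          exact lt_of_lt_of_eq one_pos h1.symm
        · have h1 := hval o ho
          rw [if_neg hX] at h1
          exact lt_of_eq_of_lt h1 (by norm_num)
      · have hcard : (eraseNone T').card = T'.card := by
          have h1 := card_insertNone (eraseNone T')
          rw [insertNone_eraseNone, card_insert_of_notMem hn] at h1
          omega
        obtain ⟨f, hf⟩ := prescribe (hgp (eraseNone T') (by omega))
          (fun k => if some k ∈ X then 1 else -1)
        refine ⟨f, by simp, ?_, ?_⟩
        · rintro (_ | k) ho hX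
          · exact absurd ho hn
          · have h1 := hf k (mem_eraseNone.2 ho)
            rw [if_pos hX] at h1
            exact lt_of_lt_of_eq one_pos h1.symm
        · rintro (_ | k) ho hX
          · exact absurd ho hn
          · have h1 := hf k (mem_eraseNone.2 ho)
            rw [if_neg hX] at h1
            exact lt_of_eq_of_lt h1 (by norm_num)
  · have hlam1 : ∀ i : Fin d, lam (some (Sum.inl i)) = μ i := fun i => rfl
    have ht1 : (T.filter (fun i => 0 < lam i)).card = t := by
      have e1 : T.filter (fun i => 0 < lam i) =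
          (univ.filter (fun i : Fin d => (i : ℕ) < t)).image (fun i => some (Sum.inl i)) := by
        ext o
        rw [mem_filter, mem_image]
        constructor
        · rintro ⟨h1, h2⟩
          rcases o with _ | k
          · simp [hlam] at h2
            linarith
          · rw [hTs, hDmem] at h1
            obtain ⟨i, rfl⟩ := h1
            exact ⟨i, mem_filter.2 ⟨mem_univ _, (hμpos i).1 h2⟩, rfl⟩
        · rintro ⟨i, hi, rfl⟩
          rw [mem_filter] at hi
          exact ⟨(hTs _).2 ((hDmem _).2 ⟨i, rfl⟩), (hμpos i).2 hi.2⟩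
      rw [e1, card_image_of_injective _ (fun i j hij => by simpa using hij),
        Fin.card_filter_val_lt]
      omega
    refine ⟨ht1, ?_, ?_, ?_⟩
    · have h1 := card_filter_add_card_filter_not (s := T) (fun i => 0 < lam i)
      have h2 : T.filter (fun i => ¬ 0 < lam i) = T.filter (fun i => lam i < 0) := by
        apply filter_congr
        rintro (_ | k) hi
        · simp [hlam]
        · rw [hTs, hDmem] at hi
          obtain ⟨i, rfl⟩ := hi
          rw [hlam1, not_lt]
          exact ⟨fun h' => lt_of_le_of_ne h' (hμne i), fun h' => h'.le⟩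
      rw [h2, ht1, hT, card_insertNone, hDc, ← hT] at h1
      omega
    · have e1 : (univ \ T).filter (fun i => 0 < h (hom (x i))) =
          univ.image (fun m : Fin a => some (Sum.inr (Sum.inl m))) := by
        ext o
        rw [mem_filter, Finset.mem_sdiff, mem_image]
        constructor
        · rintro ⟨⟨_, h1⟩, h2⟩
          rcases o with _ | i | m | m
          · exact absurd hTn h1
          · exact absurd ((hTs _).2 ((hDmem _).2 ⟨i, rfl⟩)) h1
          · exact ⟨m, mem_univ _, rfl⟩
          · have := hB0 m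
            rw [hxs] at h2
            linarith
        · rintro ⟨m, _, rfl⟩
          refine ⟨⟨mem_univ _, fun h1 => ?_⟩, hA0 m⟩
          rw [hTs, hDmem] at h1
          obtain ⟨i, hi⟩ := h1
          simp at hi
      rw [e1, card_image_of_injective _ (fun i j hij => by simpa using hij), card_univ,
        Fintype.card_fin]
    · have e1 : (univ \ T).filter (fun i => h (hom (x i)) < 0) =
          univ.image (fun m : Fin b => some (Sum.inr (Sum.inr m))) := by
        ext o
        rw [mem_filter, Finset.mem_sdiff, mem_image]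
        constructor
        · rintro ⟨⟨_, h1⟩, h2⟩
          rcases o with _ | i | m | m
          · exact absurd hTn h1
          · exact absurd ((hTs _).2 ((hDmem _).2 ⟨i, rfl⟩)) h1
          · have := hA0 m
            rw [hxs] at h2
            linarith
          · exact ⟨m, mem_univ _, rfl⟩
        · rintro ⟨m, _, rfl⟩
          refine ⟨⟨mem_univ _, fun h1 => ?_⟩, hB0 m⟩
          rw [hTs, hDmem] at h1
          obtain ⟨i, hi⟩ := h1
          simp at hi
      rw [e1, card_image_of_injective _ (fun i j hij => by simpa using hij), card_univ,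
        Fintype.card_fin]

end config

end Pool.Agent.T2h46.Radon
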