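import Pool.Agent.T2h46.Radon.Cells

/-!
# Counting identities for the sign vectors
-/

set_option autoImplicit false
set_option linter.unusedSectionVars false

open Module Finset

namespace Pool.Agent.T2h46.Radon

/-- number of cells -/
def Cc : ℕ → ℕ → ℤ
  | 0, _ => 1
  | _ + 1, 0 => 0
  | j + 1, m + 1 => Cc j (m + 1) + Cc j m

theorem Cc_succ (j m : ℕ) : Cc (j + 1) m = 2 * ∑ k ∈ range m, (j.choose k : ℤ) := by
  induction j generalizing m with
  | zero =>
    cases m with
    | zero => simp [Cc]
    | succ m =>
      rw [Finset.sum_range_succ']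
      simp [Cc, Nat.choose]
  | succ j ih =>
    cases m with
    | zero => simp [Cc]
    | succ m =>
      rw [Cc, ih, ih, Finset.sum_range_succ' (fun k => ((j + 1).choose k : ℤ)),
        Finset.sum_range_succ' (fun k => (j.choose k : ℤ))]
      have : ∀ k, ((j + 1).choose (k + 1) : ℤ) = (j.choose k : ℤ) + (j.choose (k + 1) : ℤ) := by
        intro k
        rw [Nat.choose_succ_succ]
        push_cast
        ring
      simp only [this, Finset.sum_add_distrib, Nat.choose_zero_right]
      ring

theorem Cc_pos (j m : ℕ) : 0 < Cc j (m + 1) := by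
  cases j with
  | zero => simp [Cc]
  | succ j =>
    rw [Cc_succ, Finset.sum_range_succ']
    have : (0 : ℤ) ≤ ∑ k ∈ range m, (j.choose (k + 1) : ℤ) :=
      Finset.sum_nonneg fun _ _ => by positivity
    simp only [Nat.choose_zero_right]
    push_cast
    linarith

section count
variable {W : Type*} [AddCommGroup W] [Module ℝ W] [FiniteDimensional ℝ W]
  {ι : Type*} [DecidableEq ι] {v : ι → W}

/-- indicator of the sign vectors which are not realized -/
noncomputable def nn (v : ι → W) (J K X : Finset ι) : ℤ := 1 - cc v J K X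

theorem cc_eq_one {J K X : Finset ι} (h : Cell v J K X) : cc v J K X = 1 := by
  classical
  unfold cc
  rw [if_pos h]

theorem cc_eq_zero {J K X : Finset ι} (h : ¬ Cell v J K X) : cc v J K X = 0 := by
  classical
  unfold cc
  rw [if_neg h]

theorem cc_congr {J K X Y : Finset ι} (h : ∀ i ∈ J, i ∈ X ↔ i ∈ Y) : cc v J K X = cc v J K Y := by
  by_cases h1 : Cell v J K X
  · rw [cc_eq_one h1, cc_eq_one ((Cell.congr h).1 h1)]
  · rw [cc_eq_zero h1, cc_eq_zero (fun h2 => h1 ((Cell.congr h).2 h2))]

theorem nn_congr {J K X Y : Finset ι} (h : ∀ i ∈ J, i ∈ X ↔ i ∈ Y) : nn v J K X = nn v J K Y := by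
  unfold nn; rw [cc_congr h]

theorem nn_eq_zero {J K X : Finset ι} (h : Cell v J K X) : nn v J K X = 0 := by
  unfold nn; rw [cc_eq_one h]; norm_num

theorem nn_eq_one {J K X : Finset ι} (h : ¬ Cell v J K X) : nn v J K X = 1 := by
  unfold nn; rw [cc_eq_zero h]; norm_num

/-- the standing hypotheses on `J` and `K` -/
structure Adm (v : ι → W) (U J K : Finset ι) : Prop where
  gp : GP v U
  hJ : J ⊆ U
  hK : K ⊆ U
  dis : Disjoint J K
  card : K.card ≤ finrank ℝ W

theorem Adm.sub {U J J' K : Finset ι} (h : Adm v U J K) (hJ : J' ⊆ J) : Adm v U J' K :=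
  ⟨h.gp, hJ.trans h.hJ, h.hK, Finset.disjoint_of_subset_left hJ h.dis, h.card⟩

theorem Adm.contract {U J K : Finset ι} {p : ι} (h : Adm v U (insert p J) K) (hp : p ∉ J)
    (hc : K.card < finrank ℝ W) : Adm v U J (insert p K) := by
  refine ⟨h.gp, (subset_insert p J).trans h.hJ, ?_, ?_, ?_⟩
  · rw [insert_subset_iff]
    exact ⟨h.hJ (mem_insert_self p J), h.hK⟩
  · rw [Finset.disjoint_insert_right]
    exact ⟨hp, Finset.disjoint_of_subset_left (subset_insert p J) h.dis⟩
  · exact (card_insert_le p K).trans hc

theorem Adm.notMem {U J K : Finset ι} {p : ι} (h : Adm v U (insert p J) K) : p ∉ K := fun hk =>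
  Finset.disjoint_left.1 h.dis (mem_insert_self p J) hk

theorem Adm.rec' {U J K X : Finset ι} {p : ι} (h : Adm v U (insert p J) K) (hp : p ∉ J)
    (hpX : p ∉ X) (hc : K.card < finrank ℝ W) :
    cc v (insert p J) K X + cc v (insert p J) K (insert p X) =
      cc v J K X + cc v J (insert p K) X := by
  apply cc_rec hp hpX _ h.notMem
  have h1 := h.contract hp hc
  exact h.gp _ h1.hK h1.card

theorem Adm.recn {U J K X : Finset ι} {p : ι} (h : Adm v U (insert p J) K) (hp : p ∉ J)
    (hpX : p ∉ X) (hc : K.card < finrank ℝ W) :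
    nn v (insert p J) K X + nn v (insert p J) K (insert p X) =
      nn v J K X + nn v J (insert p K) X := by
  have := h.rec' hp hpX hc
  unfold nn
  linarith

theorem Adm.zero {U J K X : Finset ι} (h : Adm v U J K) (hJ : J.Nonempty)
    (hc : K.card = finrank ℝ W) : cc v J K X = 0 :=
  cc_eq_zero (not_cell_of_full hJ (h.gp.exists_full h.hK hc.ge))

theorem Adm.one {U J K X : Finset ι} (h : Adm v U J K)
    (hc : J.card + K.card ≤ finrank ℝ W) : cc v J K X = 1 := by
  apply cc_eq_one
  apply cell_of_indep h.dis
  apply h.gp _ (union_subset h.hJ h.hK)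
  rw [card_union_of_disjoint h.dis]
  exact hc

/-- the number of cells -/
theorem total {U : Finset ι} (J : Finset ι) : ∀ K : Finset ι, Adm v U J K →
    ∑ X ∈ J.powerset, cc v J K X = Cc J.card (finrank ℝ W - K.card) := by
  induction J using Finset.induction_on with
  | empty =>
    intro K h
    rw [powerset_empty, sum_singleton, card_empty, Cc]
    exact cc_eq_one ⟨0, by simp, by simp, by simp⟩
  | insert p J hp ih =>
    intro K h
    rw [card_insert_of_notMem hp]
    rcases h.card.lt_or_eq with hc | hc
    · rw [sum_powerset_insert hp, ← sum_add_distrib]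
      have h1 : ∀ X ∈ J.powerset, cc v (insert p J) K X + cc v (insert p J) K (insert p X) =
          cc v J K X + cc v J (insert p K) X := by
        intro X hX
        exact h.rec' hp (fun hx => hp (mem_powerset.1 hX hx)) hc
      rw [sum_congr rfl h1, sum_add_distrib, ih K (h.sub (subset_insert p J)),
        ih (insert p K) (h.contract hp hc), card_insert_of_notMem h.notMem]
      obtain ⟨m, hm⟩ : ∃ m, finrank ℝ W - K.card = m + 1 := ⟨finrank ℝ W - K.card - 1, by omega⟩
      have hm' : finrank ℝ W - (K.card + 1) = m := by omega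
      rw [hm, hm', Cc]
    · rw [hc, Nat.sub_self, Cc]
      apply sum_eq_zero
      intro X _
      exact h.zero (insert_nonempty p J) hc

/-- the flip lemma -/
theorem flip {J : Finset ι} {Θ : Finset ι → ℤ}
    (h : ∀ q ∈ J, ∀ X ⊆ J, q ∉ X → Θ X + Θ (insert q X) = 0)
    {X₀ : Finset ι} (hX₀ : X₀ ⊆ J) (h0 : Θ X₀ = 0) : ∀ X ⊆ J, Θ X = 0 := by
  have key : ∀ X : Finset ι, X ⊆ J → Θ X = (-1) ^ X.card * Θ ∅ := by
    intro X
    induction X using Finset.induction_on with
    | empty => intro _; simp
    | insert q X hq ih =>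
      intro hX
      rw [insert_subset_iff] at hX
      have h1 := h q hX.1 X hX.2 hq
      have h2 := ih hX.2
      rw [card_insert_of_notMem hq, pow_succ]
      linear_combination h1 - h2
  have h1 := key X₀ hX₀
  rw [h0] at h1
  have h2 : Θ ∅ = 0 := by
    rcases neg_one_pow_eq_or ℤ X₀.card with h3 | h3 <;> rw [h3] at h1 <;> linarith
  intro X hX
  rw [key X hX, h2, mul_zero]

/-! ### The quadratic relation -/

/-- sign of `i` in `X` -/
def sg (i : ι) (X : Finset ι) : ℤ := if i ∈ X then 1 else -1

theorem sg_insert {i p : ι} (h : i ≠ p) (X : Finset ι) : sg i (insert p X) = sg i X := by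
  unfold sg
  simp [h]

theorem sum_weight {U J K : Finset ι} {p : ι} (h : Adm v U (insert p J) K) (hp : p ∉ J)
    (hc : K.card < finrank ℝ W) (F : Finset ι → ℤ) (hF : ∀ X, F (insert p X) = F X) :
    ∑ X ∈ (insert p J).powerset, F X * nn v (insert p J) K X =
      ∑ X ∈ J.powerset, F X * nn v J K X + ∑ X ∈ J.powerset, F X * nn v J (insert p K) X := by
  rw [sum_powerset_insert hp, ← sum_add_distrib, ← sum_add_distrib]
  apply sum_congr rfl
  intro X hX
  rw [hF, ← mul_add, ← mul_add, h.recn hp (fun hx => hp (mem_powerset.1 hX hx)) hc]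

theorem quad_pair {U : Finset ι} {i j : ι} (hij : i ≠ j) (J₀ : Finset ι) :
    i ∉ J₀ → j ∉ J₀ → ∀ K : Finset ι, Adm v U (insert i (insert j J₀)) K →
    ∑ X ∈ (insert i (insert j J₀)).powerset, sg i X * sg j X * nn v (insert i (insert j J₀)) K X =
      ∑ T ∈ (insert i (insert j J₀)).powerset,
        if T.card = finrank ℝ W - K.card + 1 ∧ i ∈ T ∧ j ∈ T then
          ∑ Y ∈ T.powerset, sg i Y * sg j Y * nn v T K Y else 0 := by
  induction J₀ using Finset.induction_on with
  | empty =>
    intro _ _ K h
    have hJc : (insert i (insert j (∅ : Finset ι))).card = 2 := by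
      rw [card_insert_of_notMem (by simp [hij]), card_insert_of_notMem (by simp)]; rfl
    rcases h.card.lt_or_eq with hc | hc
    · -- m ≥ 1
      have hsum : ∑ T ∈ (insert i (insert j (∅ : Finset ι))).powerset,
          (if T.card = finrank ℝ W - K.card + 1 ∧ i ∈ T ∧ j ∈ T then
            ∑ Y ∈ T.powerset, sg i Y * sg j Y * nn v T K Y else 0) =
          if (insert i (insert j (∅ : Finset ι))).card = finrank ℝ W - K.card + 1 then
            ∑ Y ∈ (insert i (insert j (∅ : Finset ι))).powerset, sg i Y * sg j Y *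
              nn v (insert i (insert j (∅ : Finset ι))) K Y else 0 := by
        rw [sum_eq_single (insert i (insert j (∅ : Finset ι)))]
        · simp
        · intro T hT hne
          rw [if_neg]
          rintro ⟨_, h1, h2⟩
          apply hne
          apply Subset.antisymm (mem_powerset.1 hT)
          intro x hx
          simp only [mem_insert, notMem_empty, or_false] at hx
          rcases hx with rfl | rfl
          · exact h1
          · exact h2
        · intro h1
          exact absurd (mem_powerset_self _) h1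
      rw [hsum, hJc]
      split_ifs with h1
      · rfl
      · apply sum_eq_zero
        intro X _
        have : cc v (insert i (insert j (∅ : Finset ι))) K X = 1 := h.one (by rw [hJc]; omega)
        unfold nn
        rw [this]; ring
    · rw [sum_eq_zero (s := (insert i (insert j (∅ : Finset ι))).powerset) (f := fun T =>
        if T.card = finrank ℝ W - K.card + 1 ∧ i ∈ T ∧ j ∈ T then
            ∑ Y ∈ T.powerset, sg i Y * sg j Y * nn v T K Y else 0)]
      · have hi : i ∉ (insert j (∅ : Finset ι)) := by simp [hij]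
        rw [sum_powerset_insert hi, ← sum_add_distrib]
        apply sum_eq_zero
        intro X hX
        have hiX : i ∉ X := fun hx => hi (mem_powerset.1 hX hx)
        unfold nn
        rw [h.zero (insert_nonempty _ _) hc, h.zero (insert_nonempty _ _) hc,
          sg_insert hij.symm]
        unfold sg
        rw [if_neg hiX, if_pos (mem_insert_self i X)]
        ring
      · intro T _
        apply if_neg
        rintro ⟨h1, h2, h3⟩
        rw [hc, Nat.sub_self] at h1
        exact hij (card_le_one.1 (by omega) i h2 j h3)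
  | insert p J₀ hp ih =>
    intro hi hj K h
    rw [mem_insert, not_or] at hi hj
    have e : insert i (insert j (insert p J₀)) = insert p (insert i (insert j J₀)) := by
      ext x; simp only [mem_insert]; tauto
    have hpJ : p ∉ insert i (insert j J₀) := by
      simp only [mem_insert, not_or]
      exact ⟨Ne.symm hi.1, Ne.symm hj.1, hp⟩
    rw [e] at h ⊢
    set J := insert i (insert j J₀) with hJdef
    rcases h.card.lt_or_eq with hc | hc
    · rw [sum_weight h hpJ hc (fun X => sg i X * sg j X) (fun X => by
        rw [sg_insert hi.1, sg_insert hj.1])]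
      rw [ih hi.2 hj.2 K (h.sub (subset_insert p J)), ih hi.2 hj.2 (insert p K)
        (h.contract hpJ hc), sum_powerset_insert hpJ]
      congr 1
      apply sum_congr rfl
      intro T hT
      have hpT : p ∉ T := fun hx => hpJ (mem_powerset.1 hT hx)
      have hK' : (insert p K).card = K.card + 1 := card_insert_of_notMem h.notMem
      have c1 : (T.card = finrank ℝ W - (insert p K).card + 1 ∧ i ∈ T ∧ j ∈ T) ↔
          ((insert p T).card = finrank ℝ W - K.card + 1 ∧ i ∈ insert p T ∧ j ∈ insert p T) := by
        rw [card_insert_of_notMem hpT, hK', mem_insert, mem_insert]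
        constructor
        · rintro ⟨a1, a2, a3⟩
          exact ⟨by omega, Or.inr a2, Or.inr a3⟩
        · rintro ⟨a1, a2, a3⟩
          exact ⟨by omega, a2.resolve_left hi.1, a3.resolve_left hj.1⟩
      by_cases hcond : (T.card = finrank ℝ W - (insert p K).card + 1 ∧ i ∈ T ∧ j ∈ T)
      · rw [if_pos hcond, if_pos (c1.1 hcond)]
        have hT' : Adm v U (insert p T) K := h.sub (insert_subset_insert p (mem_powerset.1 hT))
        rw [sum_weight hT' hpT hc (fun X => sg i X * sg j X) (fun X => by
          rw [sg_insert hi.1, sg_insert hj.1])]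
        rw [sum_eq_zero (s := T.powerset) (f := fun X => sg i X * sg j X * nn v T K X), zero_add]
        intro X _
        have : cc v T K X = 1 := (hT'.sub (subset_insert p T)).one (by
          have := hcond.1
          rw [hK'] at this
          omega)
        unfold nn
        rw [this]; ring
      · rw [if_neg hcond, if_neg (fun hh => hcond (c1.2 hh))]
    · rw [sum_eq_zero (s := (insert p J).powerset) (f := fun T =>
        if T.card = finrank ℝ W - K.card + 1 ∧ i ∈ T ∧ j ∈ T then
            ∑ Y ∈ T.powerset, sg i Y * sg j Y * nn v T K Y else 0)]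
      · have e2 : insert p J = insert i (insert j (insert p J₀)) := e.symm
        have hi' : i ∉ insert j (insert p J₀) := by
          simp only [mem_insert, not_or]
          exact ⟨hij, hi.1, hi.2⟩
        rw [e2, sum_powerset_insert hi', ← sum_add_distrib]
        apply sum_eq_zero
        intro X hX
        have hiX : i ∉ X := fun hx => hi' (mem_powerset.1 hX hx)
        rw [← e2]
        unfold nn
        rw [h.zero (insert_nonempty _ _) hc, h.zero (insert_nonempty _ _) hc,
          sg_insert hij.symm]
        unfold sg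
        rw [if_neg hiX, if_pos (mem_insert_self i X)]
        ring
      · intro T _
        apply if_neg
        rintro ⟨h1, h2, h3⟩
        rw [hc, Nat.sub_self] at h1
        exact hij (card_le_one.1 (by omega) i h2 j h3)

theorem sum_sg {J X : Finset ι} (hX : X ⊆ J) :
    ∑ i ∈ J, sg i X = 2 * (X.card : ℤ) - J.card := by
  unfold sg
  have h1 : ∀ i ∈ J, (if i ∈ X then (1 : ℤ) else -1) = 2 * (if i ∈ X then 1 else 0) - 1 := by
    intro i _
    split_ifs <;> norm_num
  rw [sum_congr rfl h1, sum_sub_distrib, ← mul_sum, ← sum_filter, sum_const, sum_const,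
    filter_mem_eq_inter, inter_eq_right.2 hX]
  simp

theorem sum_pairs {J X : Finset ι} (hX : X ⊆ J) :
    ∑ i ∈ J, ∑ j ∈ J, (if i ≠ j then sg i X * sg j X else 0) =
      (2 * (X.card : ℤ) - J.card) ^ 2 - J.card := by
  have h1 : ∀ i ∈ J, ∑ j ∈ J, (if i ≠ j then sg i X * sg j X else 0) =
      sg i X * (∑ j ∈ J, sg j X) - 1 := by
    intro i hi
    rw [mul_sum]
    have : ∀ j ∈ J, (if i ≠ j then sg i X * sg j X else 0) =
        sg i X * sg j X - if i = j then 1 else 0 := by
      intro j _
      by_cases h : i = j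
      · subst h
        have : sg i X * sg i X = 1 := by unfold sg; split_ifs <;> norm_num
        rw [this]; simp
      · simp [h]
    rw [sum_congr rfl this, sum_sub_distrib, sum_ite_eq J i, if_pos hi]
  rw [sum_congr rfl h1, sum_sub_distrib, ← sum_mul, sum_sg hX, sum_const]
  simp
  ring

/-- The quadratic relation. -/
theorem quad {U J : Finset ι} (h : GP v U) (hJ : J ⊆ U) :
    ∑ X ∈ J.powerset, ((2 * (X.card : ℤ) - J.card) ^ 2 - J.card) * nn v J ∅ X =
      ∑ T ∈ J.powersetCard (finrank ℝ W + 1), ∑ Y ∈ T.powerset,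
        ((2 * (Y.card : ℤ) - (finrank ℝ W + 1 : ℕ)) ^ 2 - (finrank ℝ W + 1 : ℕ)) * nn v T ∅ Y := by
  have hA : Adm v U J ∅ := ⟨h, hJ, empty_subset _, disjoint_empty_right _, by simp⟩
  have h1 : ∀ X ∈ J.powerset, ((2 * (X.card : ℤ) - J.card) ^ 2 - J.card) * nn v J ∅ X =
      ∑ i ∈ J, ∑ j ∈ J, (if i ≠ j then sg i X * sg j X * nn v J ∅ X else 0) := by
    intro X hX
    rw [← sum_pairs (mem_powerset.1 hX), sum_mul]
    apply sum_congr rfl
    intro i _
    rw [sum_mul]
    apply sum_congr rfl
    intro j _
    split_ifs <;> simp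
  rw [sum_congr rfl h1, sum_comm]
  have h2 : ∀ i ∈ J, ∑ X ∈ J.powerset, ∑ j ∈ J, (if i ≠ j then sg i X * sg j X * nn v J ∅ X else 0)
      = ∑ T ∈ J.powersetCard (finrank ℝ W + 1), if i ∈ T then ∑ j ∈ J, if i ≠ j ∧ j ∈ T then
        ∑ Y ∈ T.powerset, sg i Y * sg j Y * nn v T ∅ Y else 0 else 0 := by
    intro i hi
    rw [sum_comm]
    have h3 : ∀ j ∈ J, ∑ X ∈ J.powerset, (if i ≠ j then sg i X * sg j X * nn v J ∅ X else 0) =
        ∑ T ∈ J.powersetCard (finrank ℝ W + 1), if i ∈ T then if i ≠ j ∧ j ∈ T then
        ∑ Y ∈ T.powerset, sg i Y * sg j Y * nn v T ∅ Y else 0 else 0 := by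
      intro j hj
      by_cases hij : i = j
      · subst hij
        simp
      · have e : J = insert i (insert j ((J.erase i).erase j)) := by
          rw [insert_erase (mem_erase.2 ⟨Ne.symm hij, hj⟩), insert_erase hi]
        have h4 := quad_pair (v := v) (U := U) hij ((J.erase i).erase j) (by simp) (by simp) ∅
          (by rw [← e]; exact hA)
        rw [← e] at h4
        simp only [if_pos hij]
        rw [h4, powersetCard_eq_filter, sum_filter]
        apply sum_congr rfl
        intro T _
        rw [card_empty, Nat.sub_zero]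
        by_cases a1 : T.card = finrank ℝ W + 1 <;> by_cases a2 : i ∈ T <;> by_cases a3 : j ∈ T <;>
          simp [a1, a2, a3, hij]
    rw [sum_congr rfl h3, sum_comm]
    apply sum_congr rfl
    intro T _
    split_ifs <;> simp
  rw [sum_congr rfl h2, sum_comm]
  apply sum_congr rfl
  intro T hT
  rw [mem_powersetCard] at hT
  rw [← sum_filter, filter_mem_eq_inter, inter_eq_right.2 hT.1]
  have h6 : ∀ i ∈ T, (∑ j ∈ J, if i ≠ j ∧ j ∈ T then
        ∑ Y ∈ T.powerset, sg i Y * sg j Y * nn v T ∅ Y else 0) =
      ∑ Y ∈ T.powerset, ∑ j ∈ T, (if i ≠ j then sg i Y * sg j Y else 0) * nn v T ∅ Y := by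
    intro i _
    rw [sum_comm]
    have : ∀ j ∈ J, (if i ≠ j ∧ j ∈ T then
        ∑ Y ∈ T.powerset, sg i Y * sg j Y * nn v T ∅ Y else 0) = if j ∈ T then
        ∑ Y ∈ T.powerset, (if i ≠ j then sg i Y * sg j Y else 0) * nn v T ∅ Y else 0 := by
      intro j _
      by_cases a1 : i = j <;> by_cases a2 : j ∈ T <;> simp [a1, a2]
    rw [sum_congr rfl this, ← sum_filter, filter_mem_eq_inter, inter_eq_right.2 hT.1]
  rw [sum_congr rfl h6, sum_comm]
  apply sum_congr rfl
  intro Y hY
  rw [← hT.2, ← sum_pairs (mem_powerset.1 hY), sum_mul]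
  apply sum_congr rfl
  intro i _
  rw [sum_mul]

end count

end Pool.Agent.T2h46.Radon
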