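import Mathlib

/-!
# Radon vectors and primitive Radon vectors: definitions
-/

set_option autoImplicit false

open Finset

namespace Pool.Agent.T2h46.Radon

/-- Euclidean `d`-space. -/
abbrev E (d : ℕ) := EuclideanSpace ℝ (Fin d)

/-- `S` is in general position: no `d + 1` of its points lie on an affine hyperplane
`{x | f x = c}` (`f ≠ 0` a linear functional). -/
def GeneralPosition {d : ℕ} (S : Finset (E d)) : Prop :=
  ∀ T ⊆ S, T.card = d + 1 → ¬ ∃ (f : E d →ₗ[ℝ] ℝ) (c : ℝ), f ≠ 0 ∧ ∀ x ∈ T, f x = c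

/-- `A` and `B` are disjoint nonempty finite sets of points whose convex hulls meet. -/
def HullsMeet {d : ℕ} (A B : Finset (E d)) : Prop :=
  A.Nonempty ∧ B.Nonempty ∧ Disjoint A B ∧
    (convexHull ℝ (A : Set (E d)) ∩ convexHull ℝ (B : Set (E d))).Nonempty

/-- The Radon partitions of `S` of type `{i, |S| - i}`: the unordered pairs `{A, B}` of disjoint
nonempty sets with union `S` whose convex hulls meet, one of which has `i` points. -/
def radonPartitions {d : ℕ} (S : Finset (E d)) (i : ℕ) : Set (Sym2 (Finset (E d))) :=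
  {p | ∃ A B : Finset (E d), p = s(A, B) ∧ HullsMeet A B ∧
    (A : Set (E d)) ∪ (B : Set (E d)) = (S : Set (E d)) ∧ A.card = i}

/-- `{A, B}` is a primitive Radon partition in `S`: `A`, `B` are disjoint nonempty subsets of `S`
whose convex hulls meet, and this is not true for any smaller pair. -/
def IsPrimitive {d : ℕ} (S A B : Finset (E d)) : Prop :=
  A ⊆ S ∧ B ⊆ S ∧ HullsMeet A B ∧
    ∀ A' B' : Finset (E d), A' ⊆ A → B' ⊆ B → HullsMeet A' B' → A' = A ∧ B' = B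

/-- The primitive Radon partitions in `S` of type `{i, d + 2 - i}`. -/
def primitivePartitions {d : ℕ} (S : Finset (E d)) (i : ℕ) : Set (Sym2 (Finset (E d))) :=
  {p | ∃ A B : Finset (E d), p = s(A, B) ∧ IsPrimitive S A B ∧ A.card = i ∧
    B.card = d + 2 - i}

/-- The Radon vector `(r_1, …, r_⌊s/2⌋)` of a set `S` of `s` points. -/
noncomputable def radonVector {d : ℕ} (s : ℕ) (S : Finset (E d)) : Fin (s / 2) → ℝ :=
  fun i => (radonPartitions S (i + 1)).ncard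

/-- The primitive Radon vector `(P_1, …, P_(⌊d/2⌋+1))`; note `⌊d/2⌋ + 1 = ⌊(d + 2)/2⌋`. -/
noncomputable def primitiveVector {d : ℕ} (S : Finset (E d)) : Fin ((d + 2) / 2) → ℝ :=
  fun i => (primitivePartitions S (i + 1)).ncard

/-- `V(s, d)`: the pairs `(r(S), P(S))` for the `s`-point sets `S` in general position in `ℝ^d`. -/
def V (s d : ℕ) : Set ((Fin (s / 2) → ℝ) × (Fin ((d + 2) / 2) → ℝ)) :=
  {x | ∃ S : Finset (E d), S.card = s ∧ GeneralPosition S ∧
    x = (radonVector s S, primitiveVector S)}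

/-- the coordinate `v_j`, `1 ≤ j ≤ m`, of the vector `v = (v_1, …, v_m)`; it is `0` for other `j` -/
def coord {m : ℕ} (v : Fin m → ℝ) (j : ℕ) : ℝ :=
  if h : 1 ≤ j ∧ j ≤ m then v ⟨j - 1, by omega⟩ else 0

/-- If `v_j` counts unordered pairs of type `{j, n - j}` (`1 ≤ j ≤ n / 2`), then `ordered n v i`
counts the ordered pairs of type `(i, n - i)`: it is `2 v_i` if `i = n / 2`, otherwise `v_i` or
`v_(n - i)`, whichever exists (and `0` for `i = 0` and `i ≥ n`). -/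
def ordered (n : ℕ) (v : Fin (n / 2) → ℝ) (i : ℕ) : ℝ :=
  if 2 * i = n then 2 * coord v i else coord v (min i (n - i))

/-- The system of linear equations for `(r, P)`:
(1) `∑ P_j = C(s, d+2)`;
(2) `∑ r_i = 2^(s-1) - ∑_{k ≤ d} C(s-1, k)`;
(3) `∑ ((s-2i)² - s) r_i = ∑ ((d+2-2j)² - (d+2)) P_j`;
(4) if `d` is odd and `s` is even: `∑ (-1)^i r_i = 0`;
and for small `d` or `s - d`, with `R_i`, `p_i` the numbers of ordered pairs,
(5) if `s = d + 2`: `R_i = p_i`;
(6) if `s = d + 3`: `2 R_i = p_(i-1) + p_i`;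
(7) if `d = 1`: `R_i = C(s, i) - 2` (`1 ≤ i ≤ s - 1` in each case). -/
def System (s d : ℕ) (r : Fin (s / 2) → ℝ) (P : Fin ((d + 2) / 2) → ℝ) : Prop :=
  (∑ j, P j = (s.choose (d + 2) : ℝ)) ∧
  (∑ i, r i = 2 ^ (s - 1) - ∑ k ∈ range (d + 1), ((s - 1).choose k : ℝ)) ∧
  (∑ i : Fin (s / 2), (((s : ℝ) - 2 * ((i : ℝ) + 1)) ^ 2 - s) * r i =
    ∑ j : Fin ((d + 2) / 2), (((d : ℝ) + 2 - 2 * ((j : ℝ) + 1)) ^ 2 - (d + 2)) * P j) ∧
  (Odd d → Even s → ∑ i : Fin (s / 2), (-1 : ℝ) ^ ((i : ℕ) + 1) * r i = 0) ∧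
  (s = d + 2 → ∀ i ∈ Icc 1 (s - 1), ordered s r i = ordered (d + 2) P i) ∧
  (s = d + 3 → ∀ i ∈ Icc 1 (s - 1),
    2 * ordered s r i = ordered (d + 2) P (i - 1) + ordered (d + 2) P i) ∧
  (d = 1 → ∀ i ∈ Icc 1 (s - 1), ordered s r i = (s.choose i : ℝ) - 2)

end Pool.Agent.T2h46.Radon
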