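import Pool.Agent.T2h46.Radon.Count

/-!
# Euler's relation for the cells, and the deletion identity for `n + 2` vectors
-/

set_option autoImplicit false
set_option linter.unusedSectionVars false

open Module Finset

namespace Pool.Agent.T2h46.Radon

section euler
variable {W : Type*} [AddCommGroup W] [Module ℝ W] [FiniteDimensional ℝ W]
  {ι : Type*} [DecidableEq ι] {v : ι → W}

theorem zero' {U J K X : Finset ι} (h : GP v U) (hK : K ⊆ U) (hc : finrank ℝ W ≤ K.card)
    (hJ : J.Nonempty) : cc v J K X = 0 :=
  cc_eq_zero (not_cell_of_full hJ (h.exists_full hK hc))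

/-- alternating number of the faces of the cell `X` -/
noncomputable def phi (v : ι → W) (J K X : Finset ι) : ℤ :=
  ∑ F ∈ J.powerset, (-1) ^ F.card * (if F = J then 0 else cc v (J \ F) (K ∪ F) X)

theorem phi_flip {U J K X : Finset ι} {p : ι} (h : Adm v U (insert p J) K) (hp : p ∉ J)
    (hpX : p ∉ X) (hc : K.card < finrank ℝ W) (hJ : finrank ℝ W ≤ J.card + K.card) :
    phi v (insert p J) K X + phi v (insert p J) K (insert p X) =
      phi v J K X - phi v J (insert p K) X := by
  have hpK := h.notMem
  have e1 : ∀ Y : Finset ι, phi v (insert p J) K Y =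
      ∑ F ∈ J.powerset, ((-1) ^ F.card * cc v (insert p (J \ F)) (K ∪ F) Y -
        (-1) ^ F.card * (if F = J then 0 else cc v (J \ F) (insert p (K ∪ F)) Y)) := by
    intro Y
    unfold phi
    rw [sum_powerset_insert hp, ← sum_add_distrib]
    apply sum_congr rfl
    intro F hF
    rw [mem_powerset] at hF
    have hpF : p ∉ F := fun hx => hp (hF hx)
    have a1 : F ≠ insert p J := by
      rintro rfl
      exact hpF (mem_insert_self p J)
    have a2 : insert p J \ F = insert p (J \ F) := insert_sdiff_of_notMem _ hpF
    have a3 : (insert p F = insert p J) ↔ F = J := by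
      constructor
      · intro h1
        have := congrArg (fun s => s.erase p) h1
        simpa [hpF, hp] using this
      · rintro rfl; rfl
    have a4 : insert p J \ insert p F = J \ F := by
      ext x
      simp only [mem_sdiff, mem_insert, not_or]
      constructor
      · rintro ⟨h1 | h1, h2, h3⟩
        · exact absurd h1 h2
        · exact ⟨h1, h3⟩
      · rintro ⟨h1, h2⟩
        exact ⟨Or.inr h1, by rintro rfl; exact hp h1, h2⟩
    have a5 : K ∪ insert p F = insert p (K ∪ F) := by
      ext x; simp only [mem_union, mem_insert]; tauto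
    rw [if_neg a1, a2, a4, a5, card_insert_of_notMem hpF, pow_succ]
    simp only [a3]
    ring
  rw [e1, e1]
  unfold phi
  rw [← sum_add_distrib, ← sum_sub_distrib]
  apply sum_congr rfl
  intro F hF
  rw [mem_powerset] at hF
  have hpF : p ∉ F := fun hx => hp (hF hx)
  have hKF : K ∪ F ⊆ U := union_subset h.hK (hF.trans ((subset_insert p J).trans h.hJ))
  have hpKF : insert p (K ∪ F) ⊆ U := by
    rw [insert_subset_iff]
    exact ⟨h.hJ (mem_insert_self p J), hKF⟩
  have a6 : cc v (J \ F) (insert p (K ∪ F)) (insert p X) = cc v (J \ F) (insert p (K ∪ F)) X := by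
    apply cc_congr
    intro i hi
    have : i ≠ p := by rintro rfl; exact hp (mem_sdiff.1 hi).1
    simp [this]
  have a7 : insert p K ∪ F = insert p (K ∪ F) := insert_union _ _ _
  rw [a6, a7]
  by_cases hFJ : F = J
  · simp only [if_pos hFJ]
    have hfull : finrank ℝ W ≤ (K ∪ F).card := by
      rw [hFJ, card_union_of_disjoint
        (Finset.disjoint_of_subset_left (subset_insert p J) h.dis).symm]
      omega
    rw [zero' h.gp hKF hfull (insert_nonempty _ _), zero' h.gp hKF hfull (insert_nonempty _ _)]
    ring
  · simp only [if_neg hFJ]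
    have hne : (J \ F).Nonempty := by
      rw [sdiff_nonempty]
      intro h1
      exact hFJ (Subset.antisymm hF h1)
    have key : cc v (insert p (J \ F)) (K ∪ F) X + cc v (insert p (J \ F)) (K ∪ F) (insert p X) =
        cc v (J \ F) (K ∪ F) X + cc v (J \ F) (insert p (K ∪ F)) X := by
      by_cases hlt : (K ∪ F).card < finrank ℝ W
      · have hA : Adm v U (insert p (J \ F)) (K ∪ F) := by
          refine ⟨h.gp, (insert_subset_insert p sdiff_subset).trans h.hJ, hKF, ?_, hlt.le⟩
          rw [disjoint_union_right]
          refine ⟨Finset.disjoint_of_subset_left (insert_subset_insert p sdiff_subset) h.dis, ?_⟩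
          rw [disjoint_insert_left]
          exact ⟨hpF, sdiff_disjoint⟩
        exact hA.rec' (fun hx => hp (mem_sdiff.1 hx).1) hpX hlt
      · push Not at hlt
        rw [zero' h.gp hKF hlt (insert_nonempty _ _), zero' h.gp hKF hlt (insert_nonempty _ _),
          zero' h.gp hKF hlt hne, zero' h.gp hpKF (hlt.trans (card_le_card (subset_insert _ _))) hne]
    linear_combination (-1) ^ F.card * key

theorem face_cell {U J K F X : Finset ι} (h : Adm v U J K) (hF : F ⊆ J) (hFJ : F ≠ J)
    (hc : Cell v (J \ F) (K ∪ F) X) : Cell v J K X := by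
  have hne : (J \ F).Nonempty := by
    rw [sdiff_nonempty]
    intro h1
    exact hFJ (Subset.antisymm hF h1)
  have hKF : K ∪ F ⊆ U := union_subset h.hK (hF.trans h.hJ)
  have hlt : (K ∪ F).card ≤ finrank ℝ W := by
    by_contra hcon
    push Not at hcon
    exact not_cell_of_full hne (h.gp.exists_full hKF hcon.le) hc
  obtain ⟨g, hg⟩ := prescribe (h.gp _ hKF hlt)
    (fun i => if i ∈ K then 0 else if i ∈ X then 1 else -1)
  obtain ⟨f, h1, h2, h3⟩ := hc
  have hgK : ∀ k ∈ K, g (v k) = 0 := fun k hk => by
    rw [hg k (mem_union_left _ hk), if_pos hk]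
  obtain ⟨ε, hε, h4⟩ := perturb (K := K) (fun k hk => h1 k (mem_union_left _ hk)) hgK h2 h3
  obtain ⟨b1, b2, b3⟩ := h4 ε (by rw [abs_of_pos hε])
  refine ⟨f + ε • g, b1, fun i hi hx => ?_, fun i hi hx => ?_⟩
  · by_cases hiF : i ∈ F
    · have hiK : i ∉ K := fun hk => Finset.disjoint_left.1 h.dis hi hk
      have : g (v i) = 1 := by rw [hg i (mem_union_right _ hiF), if_neg hiK, if_pos hx]
      simp [h1 i (mem_union_right _ hiF), this, hε]
    · exact b2 i (mem_sdiff.2 ⟨hi, hiF⟩) hx
  · by_cases hiF : i ∈ F
    · have hiK : i ∉ K := fun hk => Finset.disjoint_left.1 h.dis hi hk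
      have : g (v i) = -1 := by rw [hg i (mem_union_right _ hiF), if_neg hiK, if_neg hx]
      simp [h1 i (mem_union_right _ hiF), this, hε]
    · exact b3 i (mem_sdiff.2 ⟨hi, hiF⟩) hx

theorem exists_noncell {U J K : Finset ι} (h : Adm v U J K)
    (hc : finrank ℝ W < J.card + K.card) : ∃ X ⊆ J, ¬ Cell v J K X := by
  have hdep : ¬ LinearIndepOn ℝ v ((J ∪ K : Finset ι) : Set ι) := by
    intro hind
    have h' : LinearIndependent ℝ (fun i : ((J ∪ K : Finset ι) : Set ι) => v i) := hind
    have := h'.fintype_card_le_finrank
    simp only [coe_sort_coe, Fintype.card_coe] at this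
    rw [card_union_of_disjoint h.dis] at this
    omega
  rw [linearIndepOn_finset_iff] at hdep
  push Not at hdep
  obtain ⟨c, hc0, i₀, hi₀, hne⟩ := hdep
  have hindK := h.gp K h.hK h.card
  -- some coefficient in J is nonzero
  have hJne : ∃ j ∈ J, c j ≠ 0 := by
    by_contra hcon
    push Not at hcon
    have h1 : ∑ i ∈ K, c i • v i = 0 := by
      rw [sum_union h.dis, sum_eq_zero (s := J) (fun i hi => by rw [hcon i hi, zero_smul]),
        zero_add] at hc0
      exact hc0
    rw [linearIndepOn_finset_iff] at hindK
    rcases mem_union.1 hi₀ with h2 | h2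
    · exact hne (hcon i₀ h2)
    · exact hne (hindK c h1 i₀ h2)
  obtain ⟨j, hj, hcj⟩ := hJne
  refine ⟨J.filter (fun i => 0 < c i), filter_subset _ _, ?_⟩
  rintro ⟨f, h1, h2, h3⟩
  have h4 := congrArg f hc0
  rw [map_sum, map_zero, sum_union h.dis] at h4
  have h5 : ∑ i ∈ K, f (c i • v i) = 0 := sum_eq_zero fun i hi => by
    rw [map_smul, h1 i hi, smul_zero]
  rw [h5, add_zero] at h4
  have h6 : ∀ i ∈ J, 0 ≤ f (c i • v i) := by
    intro i hi
    rw [map_smul, smul_eq_mul]
    by_cases hp : 0 < c i
    · exact (mul_pos hp (h2 i hi (mem_filter.2 ⟨hi, hp⟩))).le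
    · push Not at hp
      have := h3 i hi (fun hh => absurd (mem_filter.1 hh).2 (not_lt.2 hp))
      exact mul_nonneg_of_nonpos_of_nonpos hp this.le
  have h7 := (sum_eq_zero_iff_of_nonneg h6).1 h4 j hj
  rw [map_smul, smul_eq_mul, mul_eq_zero] at h7
  rcases h7 with h7 | h7
  · exact hcj h7
  · by_cases hx : j ∈ J.filter (fun i => 0 < c i)
    · exact (h2 j hj hx).ne' h7
    · exact (h3 j hj hx).ne h7

/-- Euler's relation for a cell -/
theorem euler {U : Finset ι} (j : ℕ) : ∀ (J K : Finset ι), Adm v U J K → J.card = j →
    J.Nonempty → finrank ℝ W ≤ J.card + K.card → ∀ X ⊆ J,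
    phi v J K X = (-1) ^ (finrank ℝ W - K.card + 1) * cc v J K X := by
  induction j with
  | zero =>
    intro J K _ h1 h2
    rw [card_eq_zero] at h1
    rw [h1] at h2
    exact absurd h2 (by simp)
  | succ j ih =>
    intro J K h hj hne hle X hX
    rcases h.card.lt_or_eq with hc | hc
    · rcases hle.lt_or_eq with hlt | heq
      · -- induction step by flips
        have key := flip (J := J)
          (Θ := fun X => phi v J K X - (-1) ^ (finrank ℝ W - K.card + 1) * cc v J K X) ?_
          (exists_noncell h hlt).choose_spec.1 ?_ X hX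
        · linarith
        · intro q hq X hX hqX
          have e : insert q (J.erase q) = J := insert_erase hq
          have hA : Adm v U (insert q (J.erase q)) K := by rw [e]; exact h
          have hq' : q ∉ J.erase q := notMem_erase q J
          have hcard : (J.erase q).card = j := by rw [card_erase_of_mem hq, hj]; rfl
          have f1 := phi_flip hA hq' hqX hc (by rw [hcard]; omega)
          have f2 := hA.rec' hq' hqX hc
          rw [e] at f1 f2
          have hXe : X ⊆ J.erase q := fun x hx => mem_erase.2 ⟨by
            rintro rfl; exact hqX hx, hX hx⟩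
          have hne' : (J.erase q).Nonempty := by
            rw [← card_pos, hcard]
            omega
          have i1 := ih (J.erase q) K (h.sub (erase_subset q J)) hcard hne'
            (by rw [hcard]; omega) X hXe
          have hKc : (insert q K).card = K.card + 1 := card_insert_of_notMem hA.notMem
          have i2 := ih (J.erase q) (insert q K) (hA.contract hq' hc) hcard hne'
            (by rw [hcard, hKc]; omega) X hXe
          rw [hKc] at i2
          obtain ⟨m, hm⟩ : ∃ m, finrank ℝ W - K.card = m + 1 :=
            ⟨finrank ℝ W - K.card - 1, by omega⟩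
          have hm' : finrank ℝ W - (K.card + 1) = m := by omega
          rw [hm] at i1 ⊢
          rw [hm'] at i2
          rw [pow_succ (-1 : ℤ) (m + 1)] at i1 ⊢
          linear_combination f1 + i1 - i2 - (-1) ^ (m + 1) * (-1) * f2
        · have hX0 := (exists_noncell h hlt).choose_spec.2
          rw [cc_eq_zero hX0, mul_zero, sub_zero]
          unfold phi
          apply sum_eq_zero
          intro F hF
          split_ifs with hFJ
          · rw [mul_zero]
          · rw [cc_eq_zero (fun hh => hX0 (face_cell h (mem_powerset.1 hF) hFJ hh)), mul_zero]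
      · -- |J| = m
        have h1 : cc v J K X = 1 := h.one (by omega)
        rw [h1, mul_one]
        unfold phi
        have h2 : ∀ F ∈ J.powerset, (-1 : ℤ) ^ F.card *
            (if F = J then 0 else cc v (J \ F) (K ∪ F) X) =
            (-1) ^ F.card - if F = J then (-1) ^ J.card else 0 := by
          intro F hF
          rw [mem_powerset] at hF
          split_ifs with hFJ
          · rw [hFJ]; ring
          · have hA : Adm v U (J \ F) (K ∪ F) := by
              refine ⟨h.gp, sdiff_subset.trans h.hJ, union_subset h.hK (hF.trans h.hJ), ?_, ?_⟩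
              · rw [disjoint_union_right]
                exact ⟨Finset.disjoint_of_subset_left sdiff_subset h.dis, sdiff_disjoint⟩
              · calc (K ∪ F).card ≤ K.card + F.card := card_union_le _ _
                  _ ≤ K.card + J.card := Nat.add_le_add_left (card_le_card hF) _
                  _ = finrank ℝ W := by omega
            rw [hA.one (by
              have a1 := card_sdiff_of_subset hF
              have a2 := card_union_le K F
              have a3 := card_le_card hF
              omega)]
            ring
        rw [sum_congr rfl h2, sum_sub_distrib, sum_powerset_neg_one_pow_card_of_nonempty hne,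
          sum_ite_eq' J.powerset J, if_pos (mem_powerset_self J)]
        have h3 : finrank ℝ W - K.card = J.card := by omega
        rw [h3, pow_succ]
        ring
    · -- m = 0
      rw [h.zero hne hc, mul_zero]
      unfold phi
      apply sum_eq_zero
      intro F hF
      rw [mem_powerset] at hF
      split_ifs with hFJ
      · rw [mul_zero]
      · have hne2 : (J \ F).Nonempty := by
          rw [sdiff_nonempty]
          intro h1
          exact hFJ (Subset.antisymm hF h1)
        rw [zero' h.gp (union_subset h.hK (hF.trans h.hJ))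
          (hc.ge.trans (card_le_card subset_union_left)) hne2, mul_zero]

/-- alternating sum over the cells -/
theorem alt_sum {U J : Finset ι} (h : GP v U) (hJ : J ⊆ U) (hc : finrank ℝ W ≤ J.card)
    (hn : Even (finrank ℝ W)) (hne : J.Nonempty) :
    ∑ X ∈ J.powerset, (-1) ^ X.card * cc v J ∅ X = 0 := by
  have hA : Adm v U J ∅ := ⟨h, hJ, empty_subset _, disjoint_empty_right _, by simp⟩
  have h1 : ∑ X ∈ J.powerset, (-1) ^ X.card * phi v J ∅ X =
      ∑ X ∈ J.powerset, (-1) ^ X.card * cc v J ∅ X := by
    unfold phi
    simp only [mul_sum]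
    have hne0 : ¬ (∅ : Finset ι) = J := fun hh => by rw [← hh] at hne; simp at hne
    rw [sum_comm, sum_eq_single ∅]
    · simp [hne0]
    · intro F hF hF0
      obtain ⟨p, hp⟩ := nonempty_iff_ne_empty.2 hF0
      have hpJ : p ∈ J := mem_powerset.1 hF hp
      have e : insert p (J.erase p) = J := insert_erase hpJ
      have : ∑ X ∈ (insert p (J.erase p)).powerset, (-1 : ℤ) ^ X.card * ((-1) ^ F.card *
          (if F = J then 0 else cc v (J \ F) (∅ ∪ F) X)) = 0 := by
        rw [sum_powerset_insert (notMem_erase p J), ← sum_add_distrib]
        apply sum_eq_zero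
        intro X hX
        have hpX : p ∉ X := fun hx => notMem_erase p J (mem_powerset.1 hX hx)
        have hcg : cc v (J \ F) (∅ ∪ F) (insert p X) = cc v (J \ F) (∅ ∪ F) X := by
          apply cc_congr
          intro i hi
          have : i ≠ p := by rintro rfl; exact (mem_sdiff.1 hi).2 hp
          simp [this]
        rw [hcg, card_insert_of_notMem hpX, pow_succ]
        ring
      rw [e] at this
      exact this
    · intro hh
      exact absurd (empty_mem_powerset J) hh
  have h2 : ∑ X ∈ J.powerset, (-1) ^ X.card * phi v J ∅ X =
      - ∑ X ∈ J.powerset, (-1) ^ X.card * cc v J ∅ X := by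
    rw [← sum_neg_distrib]
    apply sum_congr rfl
    intro X hX
    rw [euler J.card J ∅ hA rfl hne (by simpa using hc) X (mem_powerset.1 hX), card_empty,
      Nat.sub_zero, pow_succ, hn.neg_one_pow]
    ring
  linarith

/-- deletion identity for `m + 2` elements -/
theorem del_sum {U : Finset ι} (m : ℕ) : ∀ (J K : Finset ι), Adm v U J K →
    finrank ℝ W - K.card = m → J.card = m + 2 → ∀ X ⊆ J,
    ∑ p ∈ J, nn v (J.erase p) K X = 2 * nn v J K X := by
  induction m with
  | zero =>
    intro J K h hm hJ X hX
    have hc : K.card = finrank ℝ W := by have := h.card; omega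
    have h1 : ∀ p ∈ J, nn v (J.erase p) K X = 1 := by
      intro p hp
      unfold nn
      rw [(h.sub (erase_subset p J)).zero (by
        rw [← card_pos, card_erase_of_mem hp, hJ]; norm_num) hc]
      norm_num
    rw [sum_congr rfl h1, sum_const, hJ]
    unfold nn
    rw [h.zero (by rw [← card_pos, hJ]; norm_num) hc]
    norm_num
  | succ m ih =>
    intro J K h hm hJ X hX
    have hc : K.card < finrank ℝ W := by omega
    -- existence of a cell
    obtain ⟨X₀, hX₀, hcell⟩ : ∃ X₀ ∈ J.powerset, cc v J K X₀ ≠ 0 := by
      by_contra hcon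
      push Not at hcon
      have h1 := total J K h
      rw [sum_eq_zero hcon, hm] at h1
      exact absurd h1 (Cc_pos _ _).ne
    have hcell' : Cell v J K X₀ := by
      by_contra hh
      exact hcell (cc_eq_zero hh)
    have key := flip (J := J)
      (Θ := fun X => ∑ p ∈ J, nn v (J.erase p) K X - 2 * nn v J K X) ?_
      (mem_powerset.1 hX₀) ?_ X hX
    · linarith
    · intro q hq X hX hqX
      have e : insert q (J.erase q) = J := insert_erase hq
      have hq' : q ∉ J.erase q := notMem_erase q J
      have hA : Adm v U (insert q (J.erase q)) K := by rw [e]; exact h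
      have hcard : (J.erase q).card = m + 2 := by rw [card_erase_of_mem hq, hJ]; rfl
      have f1 := hA.recn hq' hqX hc
      rw [e] at f1
      have hXe : X ⊆ J.erase q := fun x hx => mem_erase.2 ⟨by
            rintro rfl; exact hqX hx, hX hx⟩
      have hKc : (insert q K).card = K.card + 1 := card_insert_of_notMem hA.notMem
      have f2 := ih (J.erase q) (insert q K) (hA.contract hq' hc) (by rw [hKc]; omega) hcard X hXe
      have f3 : nn v (J.erase q) K (insert q X) = nn v (J.erase q) K X := by
        apply nn_congr
        intro i hi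
        have : i ≠ q := (mem_erase.1 hi).1
        simp [this]
      have f4 : ∀ p ∈ J.erase q, nn v (J.erase p) K X + nn v (J.erase p) K (insert q X) =
          nn v ((J.erase q).erase p) (insert q K) X := by
        intro p hp
        have hpq : p ≠ q := (mem_erase.1 hp).1
        have hpJ : p ∈ J := (mem_erase.1 hp).2
        have e2 : J.erase p = insert q ((J.erase q).erase p) := by
          ext x
          simp only [mem_erase, mem_insert]
          constructor
          · rintro ⟨h1, h2⟩
            by_cases hxq : x = q
            · exact Or.inl hxq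
            · exact Or.inr ⟨h1, hxq, h2⟩
          · rintro (rfl | ⟨h1, _, h3⟩)
            · exact ⟨Ne.symm hpq, hq⟩
            · exact ⟨h1, h3⟩
        have hA2 : Adm v U (insert q ((J.erase q).erase p)) K := by
          rw [← e2]; exact h.sub (erase_subset p J)
        have hq2 : q ∉ (J.erase q).erase p := fun hx => hq' (mem_erase.1 hx).2
        have f5 := hA2.recn hq2 hqX hc
        rw [e2, f5]
        have f6 : cc v ((J.erase q).erase p) K X = 1 := by
          apply (hA2.sub (subset_insert q _)).one
          rw [card_erase_of_mem hp, hcard]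
          omega
        unfold nn
        rw [f6]
        ring
      have f7 : ∀ Y : Finset ι, ∑ p ∈ J, nn v (J.erase p) K Y =
          nn v (J.erase q) K Y + ∑ p ∈ J.erase q, nn v (J.erase p) K Y := by
        intro Y
        rw [← add_sum_erase J _ hq]
      rw [f7 X, f7 (insert q X), f3]
      have f8 : ∑ p ∈ J.erase q, nn v (J.erase p) K X +
          ∑ p ∈ J.erase q, nn v (J.erase p) K (insert q X) =
          2 * nn v (J.erase q) (insert q K) X := by
        rw [← sum_add_distrib, sum_congr rfl f4, f2]
      linear_combination f8 - 2 * f1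
    · rw [nn_eq_zero hcell']
      rw [sum_eq_zero (fun p _ => nn_eq_zero (hcell'.mono (erase_subset p J)))]
      ring

end euler

end Pool.Agent.T2h46.Radon
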