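import Pool.Agent.T2h46.Radon.Defs
import Pool.Agent.T2h46.Radon.Euler

/-!
# Convex hulls and cells
-/

set_option autoImplicit false
set_option linter.unusedSectionVars false

open Module Finset

namespace Pool.Agent.T2h46.Radon

open scoped Classical in
noncomputable instance decE (d : ℕ) : DecidableEq (E d) := Classical.decEq _

/-- homogeneous coordinates -/
def hom {d : ℕ} (x : E d) : E d × ℝ := (x, 1)

theorem finrank_W (d : ℕ) : finrank ℝ (E d × ℝ) = d + 1 := by
  rw [Module.finrank_prod]
  simp

/-- functionals on `E d × ℝ` -/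
theorem dual_hom {d : ℕ} (f : Dual ℝ (E d × ℝ)) (x : E d) :
    f (hom x) = f (x, 0) + f (0, 1) := by
  rw [← map_add]
  simp [hom]

theorem gp_of_generalPosition {d : ℕ} {S : Finset (E d)} (h : GeneralPosition S)
    (hS : d + 1 ≤ S.card) : GP (hom (d := d)) S := by
  -- first for d + 1 points
  have key : ∀ T ⊆ S, T.card = d + 1 → LinearIndepOn ℝ (hom (d := d)) (T : Set (E d)) := by
    intro T hT hc
    by_contra hdep
    apply h T hT hc
    have hspan : Submodule.span ℝ (Set.range (fun i : (T : Set (E d)) => hom (i : E d))) ≠ ⊤ := by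
      intro htop
      apply hdep
      have h1 : LinearIndependent ℝ (fun i : (T : Set (E d)) => hom (i : E d)) := by
        rw [linearIndependent_iff_card_eq_finrank_span]
        unfold Set.finrank
        rw [htop, finrank_top, finrank_W]
        simp [hc]
      exact h1
    obtain ⟨g, hg0, hg⟩ := Submodule.exists_le_ker_of_lt_top _ (lt_top_iff_ne_top.2 hspan)
    have hgT : ∀ x ∈ T, g (hom x) = 0 := fun x hx =>
      LinearMap.mem_ker.1 (hg (Submodule.subset_span ⟨⟨x, hx⟩, rfl⟩))
    refine ⟨g ∘ₗ LinearMap.inl ℝ (E d) ℝ, -g (0, 1), ?_, ?_⟩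
    · intro h0
      apply hg0
      obtain ⟨x, hx⟩ : T.Nonempty := by rw [← card_pos, hc]; omega
      have h1 := hgT x hx
      rw [dual_hom] at h1
      have h2 : ∀ y : E d, g (y, 0) = 0 := fun y => by
        have := LinearMap.congr_fun h0 y
        simpa using this
      rw [h2, zero_add] at h1
      ext y
      · simpa using h2 y
      · simpa using h1
    · intro x hx
      have h1 := hgT x hx
      rw [dual_hom] at h1
      simp only [LinearMap.comp_apply, LinearMap.inl_apply]
      linarith
  intro T hT hc
  rw [finrank_W] at hc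
  obtain ⟨T', hTT', hT'S, hc'⟩ := Finset.exists_subsuperset_card_eq hT hc hS
  exact (key T' hT'S hc').mono (by exact_mod_cast hTT')

theorem generalPosition_of_gp {d : ℕ} {S : Finset (E d)} (h : GP (hom (d := d)) S) :
    GeneralPosition S := by
  rintro T hT hc ⟨f, c, hf, hfc⟩
  have h1 := h T hT (by rw [finrank_W, hc])
  have h2 := vanish h1 (by rw [finrank_W, hc])
    (f ∘ₗ LinearMap.fst ℝ (E d) ℝ - c • LinearMap.snd ℝ (E d) ℝ) (by
      intro x hx
      simp [hom, hfc x hx])
  apply hf
  ext x
  have h3 := LinearMap.congr_fun h2 (x, 0)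
  simpa using h3

theorem hulls_iff {d : ℕ} {A B : Finset (E d)} (hd : Disjoint A B) :
    (convexHull ℝ (A : Set (E d)) ∩ convexHull ℝ (B : Set (E d))).Nonempty ↔
      ¬ Cell (hom (d := d)) (A ∪ B) ∅ A := by
  constructor
  · rintro ⟨x, hxA, hxB⟩ ⟨f, -, h2, h3⟩
    -- the affine functional y ↦ f (y, 1)
    have hA : ∀ y ∈ convexHull ℝ (A : Set (E d)), 0 < f (y, 0) + f (0, 1) := by
      intro y hy
      have : convexHull ℝ (A : Set (E d)) ⊆ {y | 0 < f (y, 0) + f (0, 1)} := by
        apply convexHull_min
        · intro z hz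
          have := h2 z (mem_union_left _ hz) hz
          rw [dual_hom] at this
          exact this
        · intro a ha b hb s t hs ht hst
          simp only [Set.mem_ofPred_eq] at *
          have e : f (s • a + t • b, 0) = s * f (a, 0) + t * f (b, 0) := by
            have : ((s • a + t • b, (0 : ℝ)) : E d × ℝ) = s • (a, 0) + t • (b, 0) := by simp
            rw [this, map_add, map_smul, map_smul, smul_eq_mul, smul_eq_mul]
          rw [e]
          have e2 : f (0, 1) = s * f (0, 1) + t * f (0, 1) := by rw [← add_mul, hst, one_mul]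
          rw [e2]
          rcases hs.eq_or_lt with h0 | h0
          · rw [← h0] at hst ⊢
            have : t = 1 := by linarith
            rw [this]; linarith
          · nlinarith [mul_pos h0 ha, mul_nonneg ht hb.le]
      exact this hy
    have hB : ∀ y ∈ convexHull ℝ (B : Set (E d)), f (y, 0) + f (0, 1) < 0 := by
      intro y hy
      have : convexHull ℝ (B : Set (E d)) ⊆ {y | f (y, 0) + f (0, 1) < 0} := by
        apply convexHull_min
        · intro z hz
          have := h3 z (mem_union_right _ hz)
            (fun hzA => Finset.disjoint_left.1 hd hzA hz)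
          rw [dual_hom] at this
          exact this
        · intro a ha b hb s t hs ht hst
          simp only [Set.mem_ofPred_eq] at *
          have e : f (s • a + t • b, 0) = s * f (a, 0) + t * f (b, 0) := by
            have : ((s • a + t • b, (0 : ℝ)) : E d × ℝ) = s • (a, 0) + t • (b, 0) := by simp
            rw [this, map_add, map_smul, map_smul, smul_eq_mul, smul_eq_mul]
          rw [e]
          have e2 : f (0, 1) = s * f (0, 1) + t * f (0, 1) := by rw [← add_mul, hst, one_mul]
          rw [e2]
          rcases hs.eq_or_lt with h0 | h0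
          · rw [← h0] at hst ⊢
            have : t = 1 := by linarith
            rw [this]; linarith
          · nlinarith [mul_neg_of_pos_of_neg h0 ha, mul_nonpos_of_nonneg_of_nonpos ht hb.le]
      exact this hy
    linarith [hA x hxA, hB x hxB]
  · intro h
    by_contra hne
    rw [Set.not_nonempty_iff_eq_empty, ← Set.disjoint_iff_inter_eq_empty] at hne
    apply h
    obtain ⟨f, u, w, h1, h2, h3⟩ := geometric_hahn_banach_compact_closed
      (convex_convexHull ℝ (B : Set (E d))) (B.finite_toSet.isCompact_convexHull ℝ)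
      (convex_convexHull ℝ (A : Set (E d))) (A.finite_toSet.isClosed_convexHull ℝ) hne.symm
    refine ⟨f.toLinearMap ∘ₗ LinearMap.fst ℝ (E d) ℝ - ((u + w) / 2) • LinearMap.snd ℝ (E d) ℝ,
      by simp, ?_, ?_⟩
    · intro x _ hx
      have := h3 x (subset_convexHull ℝ _ hx)
      simp [hom]
      linarith
    · intro x hx hxA
      have hxB : x ∈ B := (mem_union.1 hx).resolve_left hxA
      have := h1 x (subset_convexHull ℝ _ hxB)
      simp [hom]
      linarith

theorem hullsMeet_iff {d : ℕ} {A B : Finset (E d)} (hd : Disjoint A B) :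
    HullsMeet A B ↔ ¬ Cell (hom (d := d)) (A ∪ B) ∅ A := by
  rw [← hulls_iff hd]
  constructor
  · exact fun h => h.2.2.2
  · intro h
    refine ⟨?_, ?_, hd, h⟩
    · obtain ⟨x, hx, _⟩ := h
      have := convexHull_nonempty_iff.1 ⟨x, hx⟩
      exact_mod_cast this
    · obtain ⟨x, _, hx⟩ := h
      have := convexHull_nonempty_iff.1 ⟨x, hx⟩
      exact_mod_cast this

/-- Helly's theorem for cells -/
theorem helly {W : Type*} [AddCommGroup W] [Module ℝ W] [FiniteDimensional ℝ W]
    {ι : Type*} [DecidableEq ι] {v : ι → W} {J X : Finset ι}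
    (hJ : finrank ℝ W + 1 ≤ J.card) (h : ¬ Cell v J ∅ X) :
    ∃ T ⊆ J, T.card = finrank ℝ W + 1 ∧ ¬ Cell v T ∅ X := by
  by_contra hcon
  push Not at hcon
  apply h
  have hfr : finrank ℝ (Dual ℝ W) = finrank ℝ W := Subspace.dual_finrank_eq
  have key := Convex.helly_theorem (𝕜 := ℝ) (E := Dual ℝ W) (s := J)
    (F := fun i => {f : Dual ℝ W | (i ∈ X → 0 < f (v i)) ∧ (i ∉ X → f (v i) < 0)})
    (by rw [hfr]; exact hJ) ?_ ?_
  · obtain ⟨f, hf⟩ := key
    simp only [Set.mem_iInter, Set.mem_ofPred_eq] at hf
    exact ⟨f, by simp, fun i hi hx => (hf i hi).1 hx, fun i hi hx => (hf i hi).2 hx⟩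
  · intro i _
    intro f hf g hg a b ha hb hab
    simp only [Set.mem_ofPred_eq] at hf hg ⊢
    constructor
    · intro hx
      have h1 := hf.1 hx
      have h2 := hg.1 hx
      simp only [LinearMap.add_apply, LinearMap.smul_apply, smul_eq_mul]
      rcases ha.eq_or_lt with h0 | h0
      · rw [← h0] at hab ⊢
        have : b = 1 := by linarith
        rw [this]; linarith
      · nlinarith [mul_pos h0 h1, mul_nonneg hb h2.le]
    · intro hx
      have h1 := hf.2 hx
      have h2 := hg.2 hx
      simp only [LinearMap.add_apply, LinearMap.smul_apply, smul_eq_mul]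
      rcases ha.eq_or_lt with h0 | h0
      · rw [← h0] at hab ⊢
        have : b = 1 := by linarith
        rw [this]; linarith
      · nlinarith [mul_neg_of_pos_of_neg h0 h1, mul_nonpos_of_nonneg_of_nonpos hb h2.le]
  · intro I hI hc
    rw [hfr] at hc
    obtain ⟨f, _, h2, h3⟩ := hcon I hI hc
    refine ⟨f, ?_⟩
    simp only [Set.mem_iInter, Set.mem_ofPred_eq]
    exact fun i hi => ⟨h2 i hi, h3 i hi⟩

/-- primitive Radon partitions are the Radon partitions of the `(d + 2)`-subsets -/
theorem isPrimitive_iff {d : ℕ} {S A B : Finset (E d)} (h : GP (hom (d := d)) S) :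
    IsPrimitive S A B ↔ A ⊆ S ∧ B ⊆ S ∧ Disjoint A B ∧ A.card + B.card = d + 2 ∧
      ¬ Cell (hom (d := d)) (A ∪ B) ∅ A := by
  have small : ∀ A' B' : Finset (E d), A' ⊆ S → B' ⊆ S → Disjoint A' B' →
      A'.card + B'.card ≤ d + 1 → Cell (hom (d := d)) (A' ∪ B') ∅ A' := by
    intro A' B' hA hB hd hc
    apply cell_of_indep (disjoint_empty_right _)
    rw [union_empty]
    apply h _ (union_subset hA hB)
    rw [card_union_of_disjoint hd, finrank_W]
    exact hc
  constructor
  · rintro ⟨hA, hB, hm, hmin⟩
    have hd := hm.2.2.1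
    have hnc := (hullsMeet_iff hd).1 hm
    refine ⟨hA, hB, hd, ?_, hnc⟩
    have hge : d + 2 ≤ A.card + B.card := by
      by_contra hlt
      push Not at hlt
      exact hnc (small A B hA hB hd (by omega))
    obtain ⟨T, hT, hTc, hTn⟩ := helly (v := hom (d := d)) (J := A ∪ B) (X := A) (by
      rw [finrank_W, card_union_of_disjoint hd]; exact hge) hnc
    rw [finrank_W] at hTc
    have hdT : Disjoint (A ∩ T) (B ∩ T) :=
      Disjoint.mono inter_subset_left inter_subset_left hd
    have hU : A ∩ T ∪ B ∩ T = T := by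
      rw [← union_inter_distrib_right]
      exact inter_eq_right.2 hT
    have h1 : HullsMeet (A ∩ T) (B ∩ T) := by
      rw [hullsMeet_iff hdT, hU]
      intro hc
      apply hTn
      refine (Cell.congr ?_).1 hc
      intro i hi
      simp [hi]
    obtain ⟨h2, h3⟩ := hmin _ _ inter_subset_left inter_subset_left h1
    rw [h2, h3] at hU
    rw [← card_union_of_disjoint hd, hU, hTc]
  · rintro ⟨hA, hB, hd, hc, hnc⟩
    refine ⟨hA, hB, (hullsMeet_iff hd).2 hnc, ?_⟩
    intro A' B' hA' hB' hm
    by_contra hne
    have hd' := hm.2.2.1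
    have hnc' := (hullsMeet_iff hd').1 hm
    apply hnc'
    apply small A' B' (hA'.trans hA) (hB'.trans hB) hd'
    have c1 := card_le_card hA'
    have c2 := card_le_card hB'
    by_contra hlt
    push Not at hlt
    apply hne
    exact ⟨eq_of_subset_of_card_le hA' (by omega), eq_of_subset_of_card_le hB' (by omega)⟩

end Pool.Agent.T2h46.Radon
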