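import Pool.Agent.T2h46.Radon.Mutation

/-!
# The change of the Radon vectors under a mutation
-/

set_option autoImplicit false
set_option linter.unusedSectionVars false

open Module Finset

namespace Pool.Agent.T2h46.Radon

section mutsum
variable {W : Type*} [AddCommGroup W] [Module ℝ W] {ι : Type*} [DecidableEq ι]

theorem sum_RR_eq (v : ι → W) (J : Finset ι) (G : ℕ → ℝ) :
    ∑ i ∈ range (J.card + 1), G i * (RR v J i : ℝ) =
      ∑ X ∈ J.powerset, G X.card * (nn v J ∅ X : ℝ) := by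
  rw [Finset.sum_powerset]
  apply Finset.sum_congr rfl
  intro i _
  unfold RR
  push_cast
  rw [mul_sum]
  apply Finset.sum_congr rfl
  intro X hX
  rw [(mem_powersetCard.1 hX).2]

theorem sum_PP_eq (v : ι → W) (J : Finset ι) (m : ℕ) (G : ℕ → ℝ) :
    ∑ i ∈ range (m + 1), G i * (PP v J m i : ℝ) =
      ∑ T ∈ J.powersetCard m, ∑ X ∈ T.powerset, G X.card * (nn v T ∅ X : ℝ) := by
  unfold PP
  push_cast
  have : ∀ i ∈ range (m + 1), G i * ∑ T ∈ J.powersetCard m, ∑ Y ∈ T.powersetCard i,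
      (nn v T ∅ Y : ℝ) = ∑ T ∈ J.powersetCard m, G i * ∑ Y ∈ T.powersetCard i,
      (nn v T ∅ Y : ℝ) := fun i _ => mul_sum _ _ _
  rw [Finset.sum_congr rfl this, Finset.sum_comm]
  apply Finset.sum_congr rfl
  intro T hT
  rw [mem_powersetCard] at hT
  rw [← hT.2]
  have := sum_RR_eq v T G
  unfold RR at this
  push_cast at this
  exact this

variable {v : ι → W} {U T : Finset ι} {h : Dual ℝ W} {lam : ι → ℝ} {t0 : ι} {n0 : W} {ε : ℝ}
  [FiniteDimensional ℝ W]

theorem Degen.sum_inner (H : Degen v U T h lam t0 n0) (hs : Small v U t0 n0 ε)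
    (hε : 0 < ε * lam t0) {J : Finset ι} (hJ : J ⊆ U) (hTJ : T ⊆ J) (hne : T ≠ J) (G : ℕ → ℝ) :
    ∑ X ∈ J.powerset, G X.card * (nn (pert v t0 n0 ε) J ∅ X : ℝ) =
      ∑ X ∈ J.powerset, G X.card * (nn v J ∅ X : ℝ) - G (P1 v U T h lam ∩ J).card -
        G (J \ P1 v U T h lam).card := by
  have h1 : ∀ X ∈ J.powerset, G X.card * (nn (pert v t0 n0 ε) J ∅ X : ℝ) =
      G X.card * (nn v J ∅ X : ℝ) - (if X = P1 v U T h lam ∩ J then G X.card else 0) -
      (if X = J \ P1 v U T h lam then G X.card else 0) := by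
    intro X hX
    rw [H.change hs hε hJ hTJ hne (mem_powerset.1 hX)]
    push_cast
    split_ifs <;> ring
  rw [Finset.sum_congr rfl h1, Finset.sum_sub_distrib, Finset.sum_sub_distrib,
    Finset.sum_ite_eq', Finset.sum_ite_eq', if_pos (mem_powerset.2 inter_subset_right),
    if_pos (mem_powerset.2 sdiff_subset)]

/-- numbers of positive and negative coefficients and of points on both sides -/
structure Typ (v : ι → W) (U T : Finset ι) (h : Dual ℝ W) (lam : ι → ℝ) (t1 t2 a b : ℕ) :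
    Prop where
  t1 : (T.filter (fun i => 0 < lam i)).card = t1
  t2 : (T.filter (fun i => lam i < 0)).card = t2
  a : ((U \ T).filter (fun i => 0 < h (v i))).card = a
  b : ((U \ T).filter (fun i => h (v i) < 0)).card = b

theorem Degen.compl_P1 (H : Degen v U T h lam t0 n0) : U \ P1 v U T h lam =
    T.filter (fun i => lam i < 0) ∪ (U \ T).filter (fun i => h (v i) < 0) := by
  ext i
  rw [Finset.mem_sdiff, mem_union, mem_filter, mem_filter, Finset.mem_sdiff]
  constructor
  · rintro ⟨h1, h2⟩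
    by_cases hiT : i ∈ T
    · left
      refine ⟨hiT, lt_of_le_of_ne (not_lt.1 fun h' => h2 ((mem_P1_T hiT).2 h')) (H.lam0 i hiT)⟩
    · right
      exact ⟨⟨h1, hiT⟩, lt_of_le_of_ne (not_lt.1 fun h' => h2 ((mem_P1_U h1 hiT).2 h'))
        (H.hU i h1 hiT)⟩
  · rintro (⟨h1, h2⟩ | ⟨⟨h1, h2⟩, h3⟩)
    · exact ⟨H.sub h1, fun h' => by linarith [(mem_P1_T h1).1 h']⟩
    · exact ⟨h1, fun h' => by linarith [(mem_P1_U h1 h2).1 h']⟩

theorem Degen.sum_RR (H : Degen v U T h lam t0 n0) (hs : Small v U t0 n0 ε)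
    (hε : 0 < ε * lam t0) {t1 t2 a b : ℕ} (hT : Typ v U T h lam t1 t2 a b) (hne : T ≠ U)
    (G : ℕ → ℝ) :
    ∑ i ∈ range (U.card + 1), G i * (RR (pert v t0 n0 ε) U i : ℝ) =
      ∑ i ∈ range (U.card + 1), G i * (RR v U i : ℝ) - G (t1 + a) - G (t2 + b) := by
  rw [sum_RR_eq, sum_RR_eq, H.sum_inner hs hε (Subset.refl U) H.sub hne,
    inter_eq_left.2 (P1_sub H.sub), H.compl_P1]
  have c1 : (P1 v U T h lam).card = t1 + a := by
    unfold P1
    rw [card_union_of_disjoint, hT.t1, hT.a]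
    exact disjoint_filter_filter disjoint_sdiff
  have c2 : (T.filter (fun i => lam i < 0) ∪ (U \ T).filter (fun i => h (v i) < 0)).card =
      t2 + b := by
    rw [card_union_of_disjoint, hT.t2, hT.b]
    exact disjoint_filter_filter disjoint_sdiff
  rw [c1, c2]

omit [FiniteDimensional ℝ W] in
theorem filter_sup {n : ℕ} (hTU : T ⊆ U) (hn : T.card = n) :
    (U.powersetCard (n + 1)).filter (fun T' => T ⊆ T') = (U \ T).image (fun j => insert j T) := by
  ext T'
  rw [mem_filter, mem_powersetCard, mem_image]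
  constructor
  · rintro ⟨⟨h1, h2⟩, h3⟩
    obtain ⟨j, hj⟩ : ∃ j, T' \ T = {j} := by
      rw [← card_eq_one, card_sdiff_of_subset h3, h2, hn]
      omega
    have hj' : j ∈ T' \ T := by rw [hj]; exact mem_singleton_self j
    rw [Finset.mem_sdiff] at hj'
    refine ⟨j, Finset.mem_sdiff.2 ⟨h1 hj'.1, hj'.2⟩, ?_⟩
    rw [← union_sdiff_of_subset h3, hj, union_comm]
    rfl
  · rintro ⟨j, hj, rfl⟩
    rw [Finset.mem_sdiff] at hj
    refine ⟨⟨insert_subset hj.1 hTU, ?_⟩, subset_insert j T⟩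
    rw [card_insert_of_notMem hj.2, hn]

theorem Degen.sum_PP (H : Degen v U T h lam t0 n0) (hs : Small v U t0 n0 ε)
    (hε : 0 < ε * lam t0) {t1 t2 a b : ℕ} (hT : Typ v U T h lam t1 t2 a b) (G : ℕ → ℝ) :
    ∑ i ∈ range (finrank ℝ W + 1 + 1), G i * (PP (pert v t0 n0 ε) U (finrank ℝ W + 1) i : ℝ) =
      ∑ i ∈ range (finrank ℝ W + 1 + 1), G i * (PP v U (finrank ℝ W + 1) i : ℝ) -
        a * (G (t1 + 1) + G t2) - b * (G t1 + G (t2 + 1)) := by
  have hε0 : ε ≠ 0 := by rintro rfl; simp at hε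
  rw [sum_PP_eq, sum_PP_eq]
  have h1 : ∀ T' ∈ U.powersetCard (finrank ℝ W + 1),
      ∑ X ∈ T'.powerset, G X.card * (nn (pert v t0 n0 ε) T' ∅ X : ℝ) =
      ∑ X ∈ T'.powerset, G X.card * (nn v T' ∅ X : ℝ) -
      if T ⊆ T' then G (P1 v U T h lam ∩ T').card + G (T' \ P1 v U T h lam).card else 0 := by
    intro T' hT'
    rw [mem_powersetCard] at hT'
    split_ifs with hsub
    · rw [H.sum_inner hs hε hT'.1 hsub]
      · ring
      · rintro rfl
        have := H.card
        omega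
    · rw [sub_zero]
      apply Finset.sum_congr rfl
      intro X hX
      unfold nn
      rw [H.same hs hε0 hT'.1 hsub (mem_powerset.1 hX)]
  rw [Finset.sum_congr rfl h1, Finset.sum_sub_distrib, sub_sub, ← Finset.sum_filter,
    filter_sup H.sub H.card, Finset.sum_image]
  · congr 1
    have hpos : ∀ j ∈ (U \ T).filter (fun i => 0 < h (v i)),
        G (P1 v U T h lam ∩ insert j T).card + G (insert j T \ P1 v U T h lam).card =
        G (t1 + 1) + G t2 := by
      intro j hj
      rw [mem_filter, Finset.mem_sdiff] at hj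
      have e1 : P1 v U T h lam ∩ insert j T = insert j (T.filter (fun i => 0 < lam i)) := by
        ext i
        rw [mem_inter, mem_insert, mem_insert, mem_filter]
        constructor
        · rintro ⟨q1, rfl | q2⟩
          · exact Or.inl rfl
          · exact Or.inr ⟨q2, (mem_P1_T q2).1 q1⟩
        · rintro (rfl | ⟨q1, q2⟩)
          · exact ⟨(mem_P1_U hj.1.1 hj.1.2).2 hj.2, Or.inl rfl⟩
          · exact ⟨(mem_P1_T q1).2 q2, Or.inr q1⟩
      have e2 : insert j T \ P1 v U T h lam = T.filter (fun i => lam i < 0) := by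
        ext i
        rw [Finset.mem_sdiff, mem_insert, mem_filter]
        constructor
        · rintro ⟨rfl | q1, q2⟩
          · exact absurd ((mem_P1_U hj.1.1 hj.1.2).2 hj.2) q2
          · exact ⟨q1, lt_of_le_of_ne (not_lt.1 fun h' => q2 ((mem_P1_T q1).2 h'))
              (H.lam0 i q1)⟩
        · rintro ⟨q1, q2⟩
          exact ⟨Or.inr q1, fun h' => by linarith [(mem_P1_T q1).1 h']⟩
      rw [e1, e2, card_insert_of_notMem (fun h' => hj.1.2 (mem_filter.1 h').1), hT.t1, hT.t2]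
    have hneg : ∀ j ∈ (U \ T).filter (fun i => ¬ 0 < h (v i)),
        G (P1 v U T h lam ∩ insert j T).card + G (insert j T \ P1 v U T h lam).card =
        G t1 + G (t2 + 1) := by
      intro j hj
      rw [mem_filter, Finset.mem_sdiff] at hj
      have e1 : P1 v U T h lam ∩ insert j T = T.filter (fun i => 0 < lam i) := by
        ext i
        rw [mem_inter, mem_insert, mem_filter]
        constructor
        · rintro ⟨q1, rfl | q2⟩
          · exact absurd ((mem_P1_U hj.1.1 hj.1.2).1 q1) hj.2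
          · exact ⟨q2, (mem_P1_T q2).1 q1⟩
        · rintro ⟨q1, q2⟩
          exact ⟨(mem_P1_T q1).2 q2, Or.inr q1⟩
      have e2 : insert j T \ P1 v U T h lam = insert j (T.filter (fun i => lam i < 0)) := by
        ext i
        rw [Finset.mem_sdiff, mem_insert, mem_insert, mem_filter]
        constructor
        · rintro ⟨rfl | q1, q2⟩
          · exact Or.inl rfl
          · exact Or.inr ⟨q1, lt_of_le_of_ne (not_lt.1 fun h' => q2 ((mem_P1_T q1).2 h'))
              (H.lam0 i q1)⟩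
        · rintro (rfl | ⟨q1, q2⟩)
          · exact ⟨Or.inl rfl, fun h' => hj.2 ((mem_P1_U hj.1.1 hj.1.2).1 h')⟩
          · exact ⟨Or.inr q1, fun h' => by linarith [(mem_P1_T q1).1 h']⟩
      rw [e1, e2, card_insert_of_notMem (fun h' => hj.1.2 (mem_filter.1 h').1), hT.t1, hT.t2]
    rw [← sum_filter_add_sum_filter_not (U \ T) (fun i => 0 < h (v i)), Finset.sum_congr rfl hpos,
      Finset.sum_congr rfl hneg, sum_const, sum_const, nsmul_eq_mul, nsmul_eq_mul, hT.a]
    have hb : ((U \ T).filter (fun i => ¬ 0 < h (v i))).card = b := by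
      rw [← hT.b]
      congr 1
      apply filter_congr
      intro i hi
      rw [Finset.mem_sdiff] at hi
      rw [not_lt]
      exact ⟨fun h' => lt_of_le_of_ne h' (H.hU i hi.1 hi.2), fun h' => h'.le⟩
    rw [hb]
  · intro i hi j hj hij
    rw [mem_coe, Finset.mem_sdiff] at hi hj
    simp only at hij
    have : i ∈ insert j T := hij ▸ mem_insert_self i T
    rcases mem_insert.1 this with h' | h'
    · exact h'
    · exact absurd h' hi.2

/-- the difference of the two sides -/
theorem Degen.difference (H : Degen v U T h lam t0 n0) (hs : Small v U t0 n0 ε)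
    (hs' : Small v U t0 n0 (-ε))
    (hε : 0 < ε * lam t0) {t1 t2 a b : ℕ} (hT : Typ v U T h lam t1 t2 a b) (hne : T ≠ U)
    (G G' : ℕ → ℝ)
    (hG : ∑ i ∈ range (U.card + 1), G i * (RR (pert v t0 n0 ε) U i : ℝ) +
      ∑ i ∈ range (finrank ℝ W + 1 + 1), G' i *
        (PP (pert v t0 n0 ε) U (finrank ℝ W + 1) i : ℝ) =
      ∑ i ∈ range (U.card + 1), G i * (RR (pert v t0 n0 (-ε)) U i : ℝ) +
      ∑ i ∈ range (finrank ℝ W + 1 + 1), G' i *
        (PP (pert v t0 n0 (-ε)) U (finrank ℝ W + 1) i : ℝ)) :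
    G (t1 + a) + G (t2 + b) + a * (G' (t1 + 1) + G' t2) + b * (G' t1 + G' (t2 + 1)) =
    G (t1 + b) + G (t2 + a) + b * (G' (t1 + 1) + G' t2) + a * (G' t1 + G' (t2 + 1)) := by
  have e : pert v t0 n0 (-ε) = pert v t0 (-n0) ε := by
    rw [← pert_neg v t0 (-n0) ε, neg_neg]
  have hs2 : Small v U t0 (-n0) ε := by
    intro J hJ X hX hc
    rw [← e]
    exact hs' J hJ X hX hc
  have hT' : Typ v U T (-h) lam t1 t2 b a := by
    refine ⟨hT.t1, hT.t2, ?_, ?_⟩
    · rw [← hT.b]
      simp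
    · rw [← hT.a]
      simp
  rw [e, H.sum_RR hs hε hT hne, H.sum_PP hs hε hT, H.neg.sum_RR hs2 hε hT' hne,
    H.neg.sum_PP hs2 hε hT'] at hG
  linarith

end mutsum

end Pool.Agent.T2h46.Radon
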