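import Pool.Agent.T2h46.Radon.Vectors

/-!
# Mutations

A family of vectors is passed through a position in which exactly one `n`-subset `T` is dependent
(`n` the dimension); the change of the sign vectors is computed.
-/

set_option autoImplicit false
set_option linter.unusedSectionVars false

open Module Finset Filter Topology

namespace Pool.Agent.T2h46.Radon

section mutation
variable {W : Type*} [AddCommGroup W] [Module ℝ W] {ι : Type*} [DecidableEq ι]

theorem indep_of_cells {v : ι → W} {T : Finset ι} (h : ∀ X ⊆ T, Cell v T ∅ X) :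
    LinearIndepOn ℝ v (T : Set ι) := by
  rw [linearIndepOn_finset_iff]
  intro g hg i hi
  obtain ⟨f, -, h2, h3⟩ := h (T.filter (fun i => 0 < g i)) (filter_subset _ _)
  have h4 : ∑ i ∈ T, g i * f (v i) = 0 := by
    have := congrArg f hg
    rw [map_sum, map_zero] at this
    simpa [map_smul] using this
  have h5 : ∀ i ∈ T, 0 ≤ g i * f (v i) := by
    intro i hi
    by_cases hgi : 0 < g i
    · exact (mul_pos hgi (h2 i hi (mem_filter.2 ⟨hi, hgi⟩))).le
    · exact mul_nonneg_of_nonpos_of_nonpos (not_lt.1 hgi)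
        (h3 i hi (fun hh => hgi (mem_filter.1 hh).2)).le
  have h6 := (Finset.sum_eq_zero_iff_of_nonneg h5).1 h4 i hi
  rcases mul_eq_zero.1 h6 with h7 | h7
  · exact h7
  · exfalso
    by_cases hgi : 0 < g i
    · have := h2 i hi (mem_filter.2 ⟨hi, hgi⟩)
      linarith
    · have := h3 i hi (fun hh => hgi (mem_filter.1 hh).2)
      linarith

/-- moving the vector with index `t0` in direction `n0` -/
def pert (v : ι → W) (t0 : ι) (n0 : W) (ε : ℝ) : ι → W :=
  fun i => v i + (if i = t0 then ε else 0) • n0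

theorem pert_ne {v : ι → W} {t0 : ι} {n0 : W} {ε : ℝ} {i : ι} (h : i ≠ t0) :
    pert v t0 n0 ε i = v i := by
  unfold pert
  rw [if_neg h, zero_smul, add_zero]

theorem pert_self {v : ι → W} {t0 : ι} {n0 : W} {ε : ℝ} :
    pert v t0 n0 ε t0 = v t0 + ε • n0 := by
  unfold pert
  rw [if_pos rfl]

theorem eventually_cell {v : ι → W} (t0 : ι) (n0 : W) {J X : Finset ι} (h : Cell v J ∅ X) :
    ∀ᶠ ε : ℝ in 𝓝 0, Cell (pert v t0 n0 ε) J ∅ X := by
  obtain ⟨f, -, h2, h3⟩ := h
  have key : ∀ i ∈ J, ∀ᶠ ε : ℝ in 𝓝 0, (i ∈ X → 0 < f (pert v t0 n0 ε i)) ∧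
      (i ∉ X → f (pert v t0 n0 ε i) < 0) := by
    intro i hi
    have hc : Continuous fun ε : ℝ => f (pert v t0 n0 ε i) := by
      unfold pert
      simp only [map_add, map_smul, smul_eq_mul]
      split_ifs <;> fun_prop
    have h0 : f (pert v t0 n0 0 i) = f (v i) := by
      unfold pert
      simp
    by_cases hx : i ∈ X
    · have h4 : 0 < f (pert v t0 n0 0 i) := by rw [h0]; exact h2 i hi hx
      have h5 := hc.continuousAt.eventually (lt_mem_nhds h4)
      filter_upwards [h5] with ε hε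
      exact ⟨fun _ => hε, fun h => absurd hx h⟩
    · have h4 : f (pert v t0 n0 0 i) < 0 := by rw [h0]; exact h3 i hi hx
      have h5 := hc.continuousAt.eventually (gt_mem_nhds h4)
      filter_upwards [h5] with ε hε
      exact ⟨fun h => absurd h hx, fun _ => hε⟩
  filter_upwards [(Filter.eventually_all_finset J).2 key] with ε hε
  exact ⟨f, by simp, fun i hi => (hε i hi).1, fun i hi => (hε i hi).2⟩

/-- all cells persist -/
def Small (v : ι → W) (U : Finset ι) (t0 : ι) (n0 : W) (ε : ℝ) : Prop :=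
  ∀ J ∈ U.powerset, ∀ X ∈ U.powerset, Cell v J ∅ X → Cell (pert v t0 n0 ε) J ∅ X

theorem eventually_small (v : ι → W) (U : Finset ι) (t0 : ι) (n0 : W) :
    ∀ᶠ ε : ℝ in 𝓝 0, Small v U t0 n0 ε := by
  unfold Small
  rw [Filter.eventually_all_finset]
  intro J _
  rw [Filter.eventually_all_finset]
  intro X _
  by_cases h : Cell v J ∅ X
  · filter_upwards [eventually_cell t0 n0 h] with ε hε
    exact fun _ => hε
  · exact Eventually.of_forall fun ε h' => absurd h' h

/-- a position in which `T` is the only dependent set with at most `n` elements -/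
structure Degen (v : ι → W) (U T : Finset ι) (h : Dual ℝ W) (lam : ι → ℝ) (t0 : ι) (n0 : W) :
    Prop where
  sub : T ⊆ U
  card : T.card = finrank ℝ W
  hT : ∀ i ∈ T, h (v i) = 0
  hU : ∀ i ∈ U, i ∉ T → h (v i) ≠ 0
  hn : h n0 = 1
  mem : t0 ∈ T
  lam0 : ∀ i ∈ T, lam i ≠ 0
  rel : ∑ i ∈ T, lam i • v i = 0
  ind : ∀ T' ⊆ U, T'.card ≤ finrank ℝ W → T' ≠ T → LinearIndepOn ℝ v (T' : Set ι)

variable {v : ι → W} {U T : Finset ι} {h : Dual ℝ W} {lam : ι → ℝ} {t0 : ι} {n0 : W} {ε : ℝ}

theorem Small.cell (hs : Small v U t0 n0 ε) {J X : Finset ι} (hJ : J ⊆ U) (hc : Cell v J ∅ X) :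
    Cell (pert v t0 n0 ε) J ∅ X := by
  have h1 : Cell v J ∅ (X ∩ J) := (Cell.congr (by intro i hi; simp [hi])).1 hc
  have h2 := hs J (mem_powerset.2 hJ) (X ∩ J) (mem_powerset.2 (inter_subset_right.trans hJ)) h1
  exact (Cell.congr (by intro i hi; simp [hi])).1 h2

theorem Degen.neg (H : Degen v U T h lam t0 n0) : Degen v U T (-h) lam t0 (-n0) where
  sub := H.sub
  card := H.card
  hT := fun i hi => by simp [H.hT i hi]
  hU := fun i hi hn => by simpa using H.hU i hi hn
  hn := by simp [H.hn]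
  mem := H.mem
  lam0 := H.lam0
  rel := H.rel
  ind := H.ind

theorem pert_neg (v : ι → W) (t0 : ι) (n0 : W) (ε : ℝ) :
    pert v t0 (-n0) (-ε) = pert v t0 n0 ε := by
  funext i
  unfold pert
  split_ifs <;> simp

theorem Degen.gp (H : Degen v U T h lam t0 n0) (hs : Small v U t0 n0 ε) (hε : ε ≠ 0) :
    GP (pert v t0 n0 ε) U := by
  have key : ∀ T' ⊆ U, T'.card ≤ finrank ℝ W → T' ≠ T →
      LinearIndepOn ℝ (pert v t0 n0 ε) (T' : Set ι) := by
    intro T' hT' hc hne
    apply indep_of_cells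
    intro X _
    apply hs.cell hT'
    apply cell_of_indep (disjoint_empty_right _)
    rw [union_empty]
    exact H.ind T' hT' hc hne
  intro T' hT' hc
  by_cases hne : T' = T
  · subst hne
    have h1 : (T' : Set ι) = insert t0 ((T'.erase t0 : Finset ι) : Set ι) := by
      rw [← coe_insert, insert_erase H.mem]
    rw [h1]
    have h2 : LinearIndepOn ℝ (pert v t0 n0 ε) ((T'.erase t0 : Finset ι) : Set ι) := by
      apply key _ ((erase_subset _ _).trans hT')
      · exact (card_le_card (erase_subset _ _)).trans hc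
      · intro h3
        have := notMem_erase t0 T'
        rw [h3] at this
        exact this H.mem
    apply h2.insert
    intro h3
    have h4 : Submodule.span ℝ (pert v t0 n0 ε '' ((T'.erase t0 : Finset ι) : Set ι)) ≤
        LinearMap.ker h := by
      rw [Submodule.span_le]
      rintro _ ⟨i, hi, rfl⟩
      rw [mem_coe, mem_erase] at hi
      rw [SetLike.mem_coe, LinearMap.mem_ker, pert_ne hi.1]
      exact H.hT i hi.2
    have h5 := LinearMap.mem_ker.1 (h4 h3)
    rw [pert_self, map_add, map_smul, H.hT t0 H.mem, H.hn] at h5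
    simp at h5
    exact hε h5
  · exact key T' hT' hc hne

/-- values satisfying the relation are realized -/
theorem Degen.realize (H : Degen v U T h lam t0 n0) (y : ι → ℝ)
    (hy : ∑ i ∈ T, lam i * y i = 0) : ∃ f : Dual ℝ W, ∀ i ∈ T, f (v i) = y i := by
  have h1 : LinearIndepOn ℝ v ((T.erase t0 : Finset ι) : Set ι) := by
    apply H.ind _ ((erase_subset _ _).trans H.sub)
    · rw [← H.card]; exact card_le_card (erase_subset _ _)
    · intro h3
      have := notMem_erase t0 T
      rw [h3] at this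
      exact this H.mem
  obtain ⟨f, hf⟩ := prescribe h1 y
  refine ⟨f, fun i hi => ?_⟩
  by_cases hi0 : i = t0
  · subst hi0
    have h2 : ∑ j ∈ T, lam j * f (v j) = 0 := by
      have := congrArg f H.rel
      rw [map_sum, map_zero] at this
      simpa [map_smul] using this
    rw [← add_sum_erase T _ hi] at h2 hy
    have h3 : ∑ j ∈ T.erase i, lam j * f (v j) = ∑ j ∈ T.erase i, lam j * y j :=
      sum_congr rfl fun j hj => by rw [hf j hj]
    rw [h3] at h2
    have h4 : lam i * f (v i) = lam i * y i := by linarith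
    exact mul_left_cancel₀ (H.lam0 i hi) h4
  · exact hf i (mem_erase.2 ⟨hi0, hi⟩)

/-- sign vectors not equal to those of the relation are realized on `T ∪ {j}` -/
theorem Degen.cell_mixed (H : Degen v U T h lam t0 n0) {j : ι} (hj : j ∈ U) (hjT : j ∉ T)
    {X : Finset ι} {i1 i2 : ι} (h1 : i1 ∈ T) (h2 : i2 ∈ T) (h1' : i1 ∈ X ↔ 0 < lam i1)
    (h2' : ¬ (i2 ∈ X ↔ 0 < lam i2)) : Cell v (insert j T) ∅ X := by
  classical
  set P := T.filter (fun i => (i ∈ X ↔ 0 < lam i)) with hP
  set N := T.filter (fun i => ¬ (i ∈ X ↔ 0 < lam i)) with hN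
  set a := ∑ i ∈ P, |lam i| with ha
  set b := ∑ i ∈ N, |lam i| with hb
  have hapos : 0 < a := by
    apply sum_pos
    · intro i hi
      exact abs_pos.2 (H.lam0 i (mem_filter.1 hi).1)
    · exact ⟨i1, mem_filter.2 ⟨h1, h1'⟩⟩
  have hbpos : 0 < b := by
    apply sum_pos
    · intro i hi
      exact abs_pos.2 (H.lam0 i (mem_filter.1 hi).1)
    · exact ⟨i2, mem_filter.2 ⟨h2, h2'⟩⟩
  set y : ι → ℝ := fun i => (if i ∈ X then 1 else -1) * (if (i ∈ X ↔ 0 < lam i) then b else a)
    with hy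
  have hsum : ∑ i ∈ T, lam i * y i = 0 := by
    rw [← sum_filter_add_sum_filter_not T (fun i => (i ∈ X ↔ 0 < lam i))]
    have e1 : ∑ i ∈ T.filter (fun i => (i ∈ X ↔ 0 < lam i)), lam i * y i = a * b := by
      rw [ha, sum_mul]
      apply sum_congr rfl
      intro i hi
      rw [mem_filter] at hi
      simp only [hy]
      rw [if_pos hi.2]
      by_cases hx : i ∈ X
      · rw [if_pos hx, abs_of_pos (hi.2.1 hx)]; ring
      · have : lam i < 0 := lt_of_le_of_ne (not_lt.1 fun h => hx (hi.2.2 h)) (H.lam0 i hi.1)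
        rw [if_neg hx, abs_of_neg this]; ring
    have e2 : ∑ i ∈ T.filter (fun i => ¬ (i ∈ X ↔ 0 < lam i)), lam i * y i = -(b * a) := by
      rw [hb, sum_mul, ← sum_neg_distrib]
      apply sum_congr rfl
      intro i hi
      rw [mem_filter] at hi
      simp only [hy]
      rw [if_neg hi.2]
      by_cases hx : i ∈ X
      · have : lam i < 0 := lt_of_le_of_ne (not_lt.1 fun h => hi.2 ⟨fun _ => h, fun _ => hx⟩)
          (H.lam0 i hi.1)
        rw [if_pos hx, abs_of_neg this]; ring
      · have : 0 < lam i := by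
          by_contra hn
          exact hi.2 ⟨fun h => absurd h hx, fun h => absurd h hn⟩
        rw [if_neg hx, abs_of_pos this]; ring
    rw [e1, e2]; ring
  obtain ⟨f, hf⟩ := H.realize y hsum
  have hhj := H.hU j hj hjT
  refine ⟨f + (((if j ∈ X then 1 else -1) - f (v j)) / h (v j)) • h, by simp, ?_, ?_⟩
  · intro i hi hx
    rcases mem_insert.1 hi with rfl | hi
    · simp only [LinearMap.add_apply, LinearMap.smul_apply, smul_eq_mul, if_pos hx]
      rw [div_mul_cancel₀ _ hhj]; norm_num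
    · simp only [LinearMap.add_apply, LinearMap.smul_apply, smul_eq_mul]
      rw [H.hT i hi, mul_zero, add_zero, hf i hi]
      simp only [hy, if_pos hx]
      split_ifs <;> linarith
  · intro i hi hx
    rcases mem_insert.1 hi with rfl | hi
    · simp only [LinearMap.add_apply, LinearMap.smul_apply, smul_eq_mul, if_neg hx]
      rw [div_mul_cancel₀ _ hhj]; norm_num
    · simp only [LinearMap.add_apply, LinearMap.smul_apply, smul_eq_mul]
      rw [H.hT i hi, mul_zero, add_zero, hf i hi]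
      simp only [hy, if_neg hx]
      split_ifs <;> linarith

/-- the sign vector which appears -/
noncomputable def P1 (v : ι → W) (U T : Finset ι) (h : Dual ℝ W) (lam : ι → ℝ) : Finset ι :=
  T.filter (fun i => 0 < lam i) ∪ (U \ T).filter (fun i => 0 < h (v i))

theorem mem_P1_T {i : ι} (hi : i ∈ T) : i ∈ P1 v U T h lam ↔ 0 < lam i := by
  unfold P1
  simp [hi]

theorem mem_P1_U {i : ι} (hiU : i ∈ U) (hi : i ∉ T) : i ∈ P1 v U T h lam ↔ 0 < h (v i) := by
  unfold P1
  simp [hi, hiU]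

theorem P1_sub (hTU : T ⊆ U) : P1 v U T h lam ⊆ U := by
  unfold P1
  apply union_subset
  · exact (filter_subset _ _).trans hTU
  · exact (filter_subset _ _).trans sdiff_subset

theorem Degen.new_cell (H : Degen v U T h lam t0 n0) (hε : 0 < ε * lam t0) :
    Cell (pert v t0 n0 ε) U ∅ (P1 v U T h lam) := by
  have h1 : LinearIndepOn ℝ v ((T.erase t0 : Finset ι) : Set ι) := by
    apply H.ind _ ((erase_subset _ _).trans H.sub)
    · rw [← H.card]; exact card_le_card (erase_subset _ _)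
    · intro h3
      have := notMem_erase t0 T
      rw [h3] at this
      exact this H.mem
  obtain ⟨g, hg⟩ := prescribe h1 lam
  have hht0 : h (pert v t0 n0 ε t0) = ε := by
    rw [pert_self, map_add, map_smul, H.hT t0 H.mem, H.hn]; simp
  obtain ⟨c, hc, hcc⟩ := perturb (v := pert v t0 n0 ε) (J := U \ T.erase t0) (K := ∅)
    (X := P1 v U T h lam) (f := h) (g := g) (by simp) (by simp) (by
      intro i hi hx
      rw [Finset.mem_sdiff, mem_erase, not_and] at hi
      by_cases hit : i = t0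
      · subst hit
        rw [hht0]
        have := (mem_P1_T H.mem).1 hx
        by_contra hn
        nlinarith [mul_nonneg (neg_nonneg.2 (not_lt.1 hn)) this.le]
      · rw [pert_ne hit]
        exact (mem_P1_U hi.1 (hi.2 hit)).1 hx) (by
      intro i hi hx
      rw [Finset.mem_sdiff, mem_erase, not_and] at hi
      by_cases hit : i = t0
      · subst hit
        rw [hht0]
        have := not_lt.1 (fun h' => hx ((mem_P1_T H.mem).2 h'))
        by_contra hn
        nlinarith [mul_nonneg (not_lt.1 hn) (neg_nonneg.2 this)]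
      · rw [pert_ne hit]
        have := fun h' => hx ((mem_P1_U hi.1 (hi.2 hit)).2 h')
        exact lt_of_le_of_ne (not_lt.1 this) (H.hU i hi.1 (hi.2 hit)))
  obtain ⟨-, h3, h4⟩ := hcc c (by rw [abs_of_pos hc])
  refine ⟨h + c • g, by simp, ?_, ?_⟩
  · intro i hi hx
    by_cases hiT : i ∈ T.erase t0
    · rw [mem_erase] at hiT
      rw [pert_ne hiT.1]
      simp only [LinearMap.add_apply, LinearMap.smul_apply, smul_eq_mul]
      rw [H.hT i hiT.2, hg i (mem_erase.2 hiT), zero_add]
      exact mul_pos hc ((mem_P1_T hiT.2).1 hx)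
    · exact h3 i (Finset.mem_sdiff.2 ⟨hi, hiT⟩) hx
  · intro i hi hx
    by_cases hiT : i ∈ T.erase t0
    · rw [mem_erase] at hiT
      rw [pert_ne hiT.1]
      simp only [LinearMap.add_apply, LinearMap.smul_apply, smul_eq_mul]
      rw [H.hT i hiT.2, hg i (mem_erase.2 hiT), zero_add]
      have := fun h' => hx ((mem_P1_T hiT.2).2 h')
      exact mul_neg_of_pos_of_neg hc (lt_of_le_of_ne (not_lt.1 this) (H.lam0 i hiT.2))
    · exact h4 i (Finset.mem_sdiff.2 ⟨hi, hiT⟩) hx

/-- the new sign vector is not realized in the degenerate position -/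
theorem Degen.not_cell (H : Degen v U T h lam t0 n0) {J X : Finset ι} (hJ : T ⊆ J)
    (hX : ∀ i ∈ T, i ∈ X ↔ 0 < lam i) : ¬ Cell v J ∅ X := by
  rintro ⟨f, -, h2, h3⟩
  have h4 : ∑ j ∈ T, lam j * f (v j) = 0 := by
    have := congrArg f H.rel
    rw [map_sum, map_zero] at this
    simpa [map_smul] using this
  have h5 : 0 < ∑ j ∈ T, lam j * f (v j) := by
    apply sum_pos
    · intro i hi
      by_cases hl : 0 < lam i
      · exact mul_pos hl (h2 i (hJ hi) ((hX i hi).2 hl))
      · exact mul_pos_of_neg_of_neg (lt_of_le_of_ne (not_lt.1 hl) (H.lam0 i hi))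
          (h3 i (hJ hi) (fun h' => hl ((hX i hi).1 h')))
    · exact ⟨t0, H.mem⟩
  linarith

variable [FiniteDimensional ℝ W]

/-- sets not containing `T` do not change -/
theorem Degen.same (H : Degen v U T h lam t0 n0) (hs : Small v U t0 n0 ε) (hε : ε ≠ 0)
    {J : Finset ι} (hJ : J ⊆ U) (hT : ¬ T ⊆ J) {X : Finset ι} (hX : X ⊆ J) :
    cc (pert v t0 n0 ε) J ∅ X = cc v J ∅ X := by
  have g1 : GP (pert v t0 n0 ε) J := fun T' hT' hc => H.gp hs hε T' (hT'.trans hJ) hc
  have g2 : GP v J := fun T' hT' hc => H.ind T' (hT'.trans hJ) hc (by rintro rfl; exact hT hT')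
  have a1 : Adm (pert v t0 n0 ε) J J ∅ :=
    ⟨g1, Subset.refl _, empty_subset _, disjoint_empty_right _, by simp⟩
  have a2 : Adm v J J ∅ :=
    ⟨g2, Subset.refl _, empty_subset _, disjoint_empty_right _, by simp⟩
  have e : ∑ X ∈ J.powerset, cc v J ∅ X = ∑ X ∈ J.powerset, cc (pert v t0 n0 ε) J ∅ X := by
    rw [total J ∅ a1, total J ∅ a2]
  have hle : ∀ X ∈ J.powerset, cc v J ∅ X ≤ cc (pert v t0 n0 ε) J ∅ X := by
    intro X _
    by_cases hc : Cell v J ∅ X
    · rw [cc_eq_one hc, cc_eq_one (hs.cell hJ hc)]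
    · rw [cc_eq_zero hc]
      unfold cc
      split_ifs <;> norm_num
  exact ((Finset.sum_eq_sum_iff_of_le hle).1 e X (mem_powerset.2 hX)).symm

theorem Degen.same' (H : Degen v U T h lam t0 n0) (hs : Small v U t0 n0 ε) (hε : ε ≠ 0)
    {J : Finset ι} (hJ : J ⊆ U) (hT : ¬ T ⊆ J) {X : Finset ι}
    (hc : Cell (pert v t0 n0 ε) J ∅ X) : Cell v J ∅ X := by
  have h1 : Cell (pert v t0 n0 ε) J ∅ (X ∩ J) := (Cell.congr (by intro i hi; simp [hi])).1 hc
  have h2 := H.same hs hε hJ hT (X := X ∩ J) inter_subset_right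
  rw [cc_eq_one h1] at h2
  by_contra h3
  have h4 : ¬ Cell v J ∅ (X ∩ J) := fun h5 => h3 ((Cell.congr (by intro i hi; simp [hi])).1 h5)
  rw [cc_eq_zero h4] at h2
  norm_num at h2

/-- on `T ∪ {j}` only one extension of the sign vector of the relation is realized -/
theorem Degen.forced (H : Degen v U T h lam t0 n0) (hs : Small v U t0 n0 ε)
    (hε : 0 < ε * lam t0) {j : ι} (hj : j ∈ U) (hjT : j ∉ T) {X : Finset ι}
    (hX : ∀ i ∈ T, i ∈ X ↔ 0 < lam i) (hc : Cell (pert v t0 n0 ε) (insert j T) ∅ X) :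
    j ∈ X ↔ 0 < h (v j) := by
  by_contra hbad
  have hJU : insert j T ⊆ U := insert_subset hj H.sub
  -- all sign vectors with the sign pattern of the relation on T are cells
  have key : ∀ Y : Finset ι, (∀ i ∈ T, i ∈ Y ↔ 0 < lam i) →
      Cell (pert v t0 n0 ε) (insert j T) ∅ Y := by
    intro Y hY
    by_cases hjY : j ∈ Y ↔ 0 < h (v j)
    · refine (Cell.congr ?_).1 ((H.new_cell hε).mono hJU)
      intro i hi
      rcases mem_insert.1 hi with rfl | hi
      · rw [mem_P1_U hj hjT, hjY]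
      · rw [mem_P1_T hi, hY i hi]
    · refine (Cell.congr ?_).1 hc
      intro i hi
      rcases mem_insert.1 hi with rfl | hi
      · tauto
      · rw [hX i hi, hY i hi]
  have hall : ∀ Y ⊆ insert j T, Cell (pert v t0 n0 ε) (insert j T) ∅ Y := by
    intro Y hY
    by_cases h1 : ∀ i ∈ T, i ∈ Y ↔ 0 < lam i
    · exact key Y h1
    · by_cases h2 : ∀ i ∈ T, ¬ (i ∈ Y ↔ 0 < lam i)
      · rw [← cell_compl]
        apply key
        intro i hi
        have := h2 i hi
        rw [Finset.mem_sdiff]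
        have hi' : i ∈ insert j T := mem_insert_of_mem hi
        tauto
      · obtain ⟨i2, hi2, hi2'⟩ : ∃ i ∈ T, ¬ (i ∈ Y ↔ 0 < lam i) := by
          by_contra hcon
          exact h1 fun i hi => by_contra fun h' => hcon ⟨i, hi, h'⟩
        obtain ⟨i1, hi1, hi1'⟩ : ∃ i ∈ T, (i ∈ Y ↔ 0 < lam i) := by
          by_contra hcon
          exact h2 fun i hi h' => hcon ⟨i, hi, h'⟩
        exact hs.cell hJU (H.cell_mixed hj hjT hi1 hi2 hi1' hi2')
  have hind := indep_of_cells hall
  have hcard : (insert j T).card ≤ finrank ℝ W := by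
    have h1 : LinearIndependent ℝ (fun i : ((insert j T : Finset ι) : Set ι) =>
      pert v t0 n0 ε i) := hind
    have h2 := h1.fintype_card_le_finrank
    simpa using h2
  rw [card_insert_of_notMem hjT, H.card] at hcard
  omega

theorem Degen.change_aux (H : Degen v U T h lam t0 n0) (hs : Small v U t0 n0 ε)
    (hε : 0 < ε * lam t0) {J : Finset ι} (hJ : J ⊆ U) {X : Finset ι} (hXJ : X ⊆ J)
    (hX : ∀ i ∈ T, i ∈ X ↔ 0 < lam i) (hTJ : T ⊆ J) (hc : Cell (pert v t0 n0 ε) J ∅ X) :
    X = P1 v U T h lam ∩ J := by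
  ext i
  rw [mem_inter]
  constructor
  · intro hi
    refine ⟨?_, hXJ hi⟩
    by_cases hiT : i ∈ T
    · rw [mem_P1_T hiT, ← hX i hiT]; exact hi
    · rw [mem_P1_U (hJ (hXJ hi)) hiT]
      exact (H.forced hs hε (hJ (hXJ hi)) hiT hX
        (hc.mono (insert_subset (hXJ hi) hTJ))).1 hi
  · rintro ⟨hi, hiJ⟩
    by_cases hiT : i ∈ T
    · rw [mem_P1_T hiT, ← hX i hiT] at hi; exact hi
    · rw [mem_P1_U (hJ hiJ) hiT] at hi
      exact (H.forced hs hε (hJ hiJ) hiT hX
        (hc.mono (insert_subset hiJ hTJ))).2 hi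

/-- the change of the sign vectors -/
theorem Degen.change (H : Degen v U T h lam t0 n0) (hs : Small v U t0 n0 ε)
    (hε : 0 < ε * lam t0) {J : Finset ι} (hJ : J ⊆ U) (hTJ : T ⊆ J) (hne : T ≠ J)
    {X : Finset ι} (hXJ : X ⊆ J) :
    nn (pert v t0 n0 ε) J ∅ X = nn v J ∅ X - (if X = P1 v U T h lam ∩ J then 1 else 0) -
      (if X = J \ P1 v U T h lam then 1 else 0) := by
  have hε0 : ε ≠ 0 := by rintro rfl; simp at hε
  have hcard : finrank ℝ W + 1 ≤ J.card := by
    rw [← H.card]
    exact card_lt_card (ssubset_of_subset_of_ne hTJ hne)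
  have hQ : ∀ i ∈ T, i ∈ P1 v U T h lam ∩ J ↔ 0 < lam i := by
    intro i hi
    rw [mem_inter, mem_P1_T hi]
    exact ⟨fun h => h.1, fun h => ⟨h, hTJ hi⟩⟩
  have hcell : Cell (pert v t0 n0 ε) J ∅ (P1 v U T h lam ∩ J) := by
    refine (Cell.congr ?_).1 ((H.new_cell hε).mono hJ)
    intro i hi
    rw [mem_inter]
    exact ⟨fun h' => ⟨h', hi⟩, fun h' => h'.1⟩
  have hncell : ¬ Cell v J ∅ (P1 v U T h lam ∩ J) := H.not_cell hTJ hQ
  have hcompl : J \ P1 v U T h lam = J \ (P1 v U T h lam ∩ J) := by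
    ext i; simp only [Finset.mem_sdiff, mem_inter]; tauto
  have hdiff : P1 v U T h lam ∩ J ≠ J \ P1 v U T h lam := by
    intro he
    have h1 := hQ t0 H.mem
    by_cases hl : 0 < lam t0
    · have h2 := h1.2 hl
      have h3 := he ▸ h2
      rw [Finset.mem_sdiff] at h3
      exact h3.2 (mem_inter.1 h2).1
    · have h2 : t0 ∉ P1 v U T h lam := fun h' => hl ((mem_P1_T H.mem).1 h')
      have h3 : t0 ∈ J \ P1 v U T h lam := Finset.mem_sdiff.2 ⟨hTJ H.mem, h2⟩
      rw [← he] at h3
      exact h2 (mem_inter.1 h3).1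
  by_cases c1 : X = P1 v U T h lam ∩ J
  · subst c1
    rw [if_pos rfl, if_neg hdiff, nn_eq_zero hcell, nn_eq_one hncell]
    norm_num
  by_cases c2 : X = J \ P1 v U T h lam
  · rw [if_neg c1, if_pos c2, c2, hcompl, nn_eq_zero (cell_compl.2 hcell),
      nn_eq_one (fun hh => hncell (cell_compl.1 hh))]
    norm_num
  rw [if_neg c1, if_neg c2, sub_zero, sub_zero]
  by_cases hcv : Cell v J ∅ X
  · rw [nn_eq_zero hcv, nn_eq_zero (hs.cell hJ hcv)]
  rw [nn_eq_one hcv, nn_eq_one]
  intro hcp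
  obtain ⟨T', hT'J, hT'c, hT'n⟩ := helly hcard hcv
  have hcp' := hcp.mono hT'J
  have hTT' : T ⊆ T' := by
    by_contra hnot
    exact hT'n (H.same' hs hε0 (hT'J.trans hJ) hnot hcp')
  obtain ⟨j, hj⟩ : ∃ j, T' \ T = {j} := by
    rw [← card_eq_one, card_sdiff_of_subset hTT', hT'c, H.card]
    omega
  have hj' : j ∈ T' \ T := by rw [hj]; exact mem_singleton_self j
  rw [Finset.mem_sdiff] at hj'
  have hT'eq : T' = insert j T := by
    rw [← union_sdiff_of_subset hTT', hj, union_comm]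
    rfl
  have hjU : j ∈ U := hJ (hT'J hj'.1)
  rw [hT'eq] at hT'n
  by_cases h1 : ∀ i ∈ T, i ∈ X ↔ 0 < lam i
  · exact c1 (H.change_aux hs hε hJ hXJ h1 hTJ hcp)
  · by_cases h2 : ∀ i ∈ T, ¬ (i ∈ X ↔ 0 < lam i)
    · have h3 : ∀ i ∈ T, i ∈ J \ X ↔ 0 < lam i := by
        intro i hi
        have := h2 i hi
        have hiJ := hTJ hi
        rw [Finset.mem_sdiff]
        tauto
      have h4 := H.change_aux hs hε hJ sdiff_subset h3 hTJ (cell_compl.2 hcp)
      apply c2
      rw [hcompl, ← h4, Finset.sdiff_sdiff_eq_self hXJ]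
    · obtain ⟨i2, hi2, hi2'⟩ : ∃ i ∈ T, ¬ (i ∈ X ↔ 0 < lam i) := by
        by_contra hcon
        exact h1 fun i hi => by_contra fun h' => hcon ⟨i, hi, h'⟩
      obtain ⟨i1, hi1, hi1'⟩ : ∃ i ∈ T, (i ∈ X ↔ 0 < lam i) := by
        by_contra hcon
        exact h2 fun i hi h' => hcon ⟨i, hi, h'⟩
      exact hT'n (H.cell_mixed hjU hj'.2 hi1 hi2 hi1' hi2')

end mutation

end Pool.Agent.T2h46.Radon
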