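import Pool.Agent.T2h46.Radon.Geom

/-!
# From unordered to ordered counts
-/

set_option autoImplicit false
set_option linter.unusedSectionVars false

open Module Finset

namespace Pool.Agent.T2h46.Radon

theorem coord_eq_sum {m : ℕ} (v : Fin m → ℝ) (j : ℕ) :
    coord v j = ∑ k : Fin m, if j = (k : ℕ) + 1 then v k else 0 := by
  unfold coord
  split_ifs with h
  · rw [Finset.sum_eq_single (⟨j - 1, by omega⟩ : Fin m)]
    · rw [if_pos (by simp; omega)]
    · intro k _ hk
      apply if_neg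
      intro h1
      apply hk
      apply Fin.ext
      simp
      omega
    · intro h1
      exact absurd (mem_univ _) h1
  · symm
    apply Finset.sum_eq_zero
    intro k _
    apply if_neg
    intro h1
    exact h ⟨by omega, by omega⟩

theorem ordered_eq_sum (n : ℕ) (v : Fin (n / 2) → ℝ) {i : ℕ} (hi : i ≤ n) :
    ordered n v i = ∑ k : Fin (n / 2), ((if i = (k : ℕ) + 1 then v k else 0) +
      if i = n - ((k : ℕ) + 1) then v k else 0) := by
  unfold ordered
  split_ifs with h
  · rw [coord_eq_sum, mul_sum]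
    apply Finset.sum_congr rfl
    intro k _
    have hk : (k : ℕ) < n / 2 := k.2
    have : (i = n - ((k : ℕ) + 1)) ↔ i = (k : ℕ) + 1 := by omega
    simp only [this]
    ring
  · rw [coord_eq_sum]
    apply Finset.sum_congr rfl
    intro k _
    have hk : (k : ℕ) < n / 2 := k.2
    rcases lt_or_gt_of_ne h with h1 | h1
    · have a1 : (min i (n - i) = (k : ℕ) + 1) ↔ i = (k : ℕ) + 1 := by omega
      have a2 : ¬ i = n - ((k : ℕ) + 1) := by omega
      simp only [a1, a2, if_false, add_zero]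
    · have a1 : (min i (n - i) = (k : ℕ) + 1) ↔ i = n - ((k : ℕ) + 1) := by omega
      have a2 : ¬ i = (k : ℕ) + 1 := by omega
      simp only [a1, a2, if_false, zero_add]

/-- weighted sums of ordered counts -/
theorem sum_ordered (n : ℕ) (v : Fin (n / 2) → ℝ) (G : ℕ → ℝ) :
    ∑ i ∈ range (n + 1), G i * ordered n v i =
      ∑ k : Fin (n / 2), (G ((k : ℕ) + 1) + G (n - ((k : ℕ) + 1))) * v k := by
  have h1 : ∀ i ∈ range (n + 1), G i * ordered n v i =
      ∑ k : Fin (n / 2), ((if i = (k : ℕ) + 1 then G i * v k else 0) +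
      if i = n - ((k : ℕ) + 1) then G i * v k else 0) := by
    intro i hi
    rw [ordered_eq_sum n v (by simpa [Nat.lt_succ_iff] using hi), mul_sum]
    apply Finset.sum_congr rfl
    intro k _
    split_ifs <;> ring
  rw [Finset.sum_congr rfl h1, Finset.sum_comm]
  apply Finset.sum_congr rfl
  intro k _
  have hk : (k : ℕ) < n / 2 := k.2
  rw [Finset.sum_add_distrib, Finset.sum_ite_eq', Finset.sum_ite_eq',
    if_pos (by rw [mem_range]; omega), if_pos (by rw [mem_range]; omega)]
  ring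

section sym
variable {α : Type*}

/-- ordered pairs -/
def Ord (Q : α → α → Prop) (c : α → ℕ) (i k : ℕ) : Set (α × α) :=
  {p | Q p.1 p.2 ∧ c p.1 = i ∧ c p.2 = k}

/-- unordered pairs -/
def Unord (Q : α → α → Prop) (c : α → ℕ) (i k : ℕ) : Set (Sym2 α) :=
  {z | ∃ a b, z = s(a, b) ∧ Q a b ∧ c a = i ∧ c b = k}

theorem unord_symm {Q : α → α → Prop} (hQ : ∀ a b, Q a b → Q b a) (c : α → ℕ) (i k : ℕ) :
    Unord Q c i k = Unord Q c k i := by
  ext z
  constructor
  · rintro ⟨a, b, rfl, h1, h2, h3⟩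
    exact ⟨b, a, Sym2.eq_swap, hQ a b h1, h3, h2⟩
  · rintro ⟨a, b, rfl, h1, h2, h3⟩
    exact ⟨b, a, Sym2.eq_swap, hQ a b h1, h3, h2⟩

theorem unord_eq_image (Q : α → α → Prop) (c : α → ℕ) (i k : ℕ) :
    Unord Q c i k = (fun p : α × α => s(p.1, p.2)) '' Ord Q c i k := by
  ext z
  constructor
  · rintro ⟨a, b, rfl, h1, h2, h3⟩
    exact ⟨(a, b), ⟨h1, h2, h3⟩, rfl⟩
  · rintro ⟨⟨a, b⟩, ⟨h1, h2, h3⟩, rfl⟩
    exact ⟨a, b, rfl, h1, h2, h3⟩

theorem ncard_ord_ne {Q : α → α → Prop} {c : α → ℕ} {i k : ℕ} (hik : i ≠ k) :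
    (Ord Q c i k).ncard = (Unord Q c i k).ncard := by
  rw [unord_eq_image, Set.InjOn.ncard_image]
  rintro ⟨a, b⟩ ⟨_, h2, _⟩ ⟨a', b'⟩ ⟨_, _, h3'⟩ he
  simp only [Sym2.eq_iff] at he h2 h3'
  rcases he with ⟨rfl, rfl⟩ | ⟨h1, h2'⟩
  · rfl
  · exfalso
    apply hik
    rw [← h2, h1, h3']

theorem ncard_ord_eq {Q : α → α → Prop} (hQ : ∀ a b, Q a b → Q b a)
    (hne : ∀ a b, Q a b → a ≠ b) {c : α → ℕ} {i : ℕ} (hf : (Ord Q c i i).Finite) :
    (Ord Q c i i).ncard = 2 * (Unord Q c i i).ncard := by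
  classical
  rw [unord_eq_image]
  have h1 : (fun p : α × α => s(p.1, p.2)) '' Ord Q c i i =
      ((hf.toFinset.image (fun p : α × α => s(p.1, p.2)) : Finset (Sym2 α)) : Set (Sym2 α)) := by
    simp
  rw [h1, Set.ncard_coe_finset, Set.ncard_eq_toFinset_card _ hf,
    Finset.card_eq_sum_card_image (fun p : α × α => s(p.1, p.2)) hf.toFinset]
  rw [Finset.sum_const_nat (m := 2)]
  · ring
  · intro z hz
    rw [Finset.mem_image] at hz
    obtain ⟨⟨a, b⟩, hab, rfl⟩ := hz
    rw [Set.Finite.mem_toFinset] at hab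
    obtain ⟨q1, q2, q3⟩ := hab
    have : hf.toFinset.filter (fun p : α × α => s(p.1, p.2) = s(a, b)) = {(a, b), (b, a)} := by
      ext ⟨x, y⟩
      simp only [mem_filter, Set.Finite.mem_toFinset, mem_insert, mem_singleton, Prod.mk.injEq,
        Sym2.eq_iff]
      constructor
      · rintro ⟨_, h⟩
        exact h
      · rintro (⟨rfl, rfl⟩ | ⟨rfl, rfl⟩)
        · exact ⟨⟨q1, q2, q3⟩, Or.inl ⟨rfl, rfl⟩⟩
        · exact ⟨⟨hQ _ _ q1, q3, q2⟩, Or.inr ⟨rfl, rfl⟩⟩
    rw [this, Finset.card_pair]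
    intro h
    exact hne a b q1 (congrArg Prod.fst h)

/-- `ordered` computes ordered counts -/
theorem ordered_ncard {Q : α → α → Prop} (hQ : ∀ a b, Q a b → Q b a)
    (hne : ∀ a b, Q a b → a ≠ b) {c : α → ℕ} (hc : ∀ a b, Q a b → 0 < c a)
    (hf : ∀ i k, (Ord Q c i k).Finite) (n : ℕ) (v : Fin (n / 2) → ℝ)
    (hv : ∀ k : Fin (n / 2), v k = (Unord Q c (k + 1) (n - (k + 1))).ncard) (i : ℕ) :
    ordered n v i = (Ord Q c i (n - i)).ncard := by
  by_cases hi : 1 ≤ i ∧ i < n
  · unfold ordered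
    split_ifs with h
    · have hni : n - i = i := by omega
      have hco : coord v i = (Unord Q c i i).ncard := by
        unfold coord
        rw [dif_pos ⟨hi.1, by omega⟩, hv]
        simp only
        rw [Nat.sub_add_cancel hi.1, hni]
      rw [hco, hni, ncard_ord_eq hQ hne (hf i i)]
      push_cast
      ring
    · have hni : i ≠ n - i := by omega
      rw [ncard_ord_ne hni]
      rcases lt_or_gt_of_ne h with h1 | h1
      · have hmin : min i (n - i) = i := by omega
        rw [hmin]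
        unfold coord
        rw [dif_pos ⟨hi.1, by omega⟩, hv]
        simp only
        rw [Nat.sub_add_cancel hi.1]
      · have hmin : min i (n - i) = n - i := by omega
        rw [hmin, unord_symm hQ]
        unfold coord
        rw [dif_pos ⟨by omega, by omega⟩, hv]
        simp only
        rw [Nat.sub_add_cancel (by omega : 1 ≤ n - i), Nat.sub_sub_self hi.2.le]
  · have hempty : Ord Q c i (n - i) = ∅ := by
      rw [Set.eq_empty_iff_forall_notMem]
      rintro ⟨a, b⟩ ⟨h1, h2, h3⟩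
      have a1 := hc a b h1
      have a2 := hc b a (hQ a b h1)
      simp only at h2 h3
      omega
    rw [hempty, Set.ncard_empty, Nat.cast_zero]
    unfold ordered
    have hmin : min i (n - i) = 0 := by omega
    split_ifs with h
    · have : i = 0 := by omega
      rw [this]
      simp [coord]
    · rw [hmin]
      simp [coord]

end sym

section vec
variable {W : Type*} [AddCommGroup W] [Module ℝ W] {ι : Type*} [DecidableEq ι]

/-- ordered numbers of sign vectors which are not realized -/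
noncomputable def RR (v : ι → W) (J : Finset ι) (i : ℕ) : ℤ :=
  ∑ X ∈ J.powersetCard i, nn v J ∅ X

/-- ordered numbers of sign vectors on `m`-subsets which are not realized -/
noncomputable def PP (v : ι → W) (J : Finset ι) (m j : ℕ) : ℤ :=
  ∑ T ∈ J.powersetCard m, ∑ Y ∈ T.powersetCard j, nn v T ∅ Y

theorem sum_card (J : Finset ι) (F : Finset ι → ℤ) (G : ℕ → ℤ) :
    ∑ i ∈ range (J.card + 1), G i * ∑ X ∈ J.powersetCard i, F X =
      ∑ X ∈ J.powerset, G X.card * F X := by
  rw [Finset.sum_powerset]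
  apply Finset.sum_congr rfl
  intro i _
  rw [mul_sum]
  apply Finset.sum_congr rfl
  intro X hX
  rw [(mem_powersetCard.1 hX).2]

end vec

open scoped Classical in
theorem sum_nn_eq_card {W : Type*} [AddCommGroup W] [Module ℝ W] {ι : Type*} [DecidableEq ι]
    (v : ι → W) (J : Finset ι) (A : Finset (Finset ι)) :
    ∑ X ∈ A, nn v J ∅ X = ((A.filter (fun X => ¬ Cell v J ∅ X)).card : ℤ) := by
  rw [Finset.card_filter]
  push_cast
  apply Finset.sum_congr rfl
  intro X _
  unfold nn cc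
  split_ifs <;> norm_num

/-- the Radon vector -/
theorem radonVector_ordered {d : ℕ} (S : Finset (E d)) (i : ℕ) :
    ordered S.card (radonVector S.card S) i = (RR (hom (d := d)) S i : ℝ) := by
  classical
  set Q : Finset (E d) → Finset (E d) → Prop := fun A B => HullsMeet A B ∧
    (A : Set (E d)) ∪ (B : Set (E d)) = (S : Set (E d)) with hQdef
  have hunion : ∀ A B, Q A B → A ∪ B = S := by
    intro A B h
    apply Finset.coe_injective
    rw [coe_union]
    exact h.2
  have hcard : ∀ A B, Q A B → A.card + B.card = S.card := by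
    intro A B h
    rw [← hunion A B h, card_union_of_disjoint h.1.2.2.1]
  have hsymm : ∀ A B, Q A B → Q B A := by
    rintro A B ⟨⟨h1, h2, h3, h4⟩, h5⟩
    exact ⟨⟨h2, h1, h3.symm, by rwa [Set.inter_comm]⟩, by rwa [Set.union_comm]⟩
  have hne : ∀ A B, Q A B → A ≠ B := by
    rintro A B ⟨⟨⟨x, hx⟩, h2, h3, h4⟩, h5⟩ rfl
    exact Finset.disjoint_left.1 h3 hx hx
  have hpos : ∀ A B : Finset (E d), Q A B → 0 < A.card := fun A B h => card_pos.2 h.1.1
  have hfin : ∀ i k, (Ord Q Finset.card i k).Finite := by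
    intro i k
    apply ((S.powerset ×ˢ S.powerset).finite_toSet).subset
    rintro ⟨A, B⟩ ⟨h, -, -⟩
    have := hunion A B h
    simp only [coe_product, Set.mem_prod, mem_coe, mem_powerset]
    exact ⟨this ▸ subset_union_left, this ▸ subset_union_right⟩
  have hU : ∀ i : ℕ, radonPartitions S i = Unord Q Finset.card i (S.card - i) := by
    intro i
    ext z
    constructor
    · rintro ⟨A, B, rfl, h1, h2, h3⟩
      refine ⟨A, B, rfl, ⟨h1, h2⟩, h3, ?_⟩
      have := hcard A B ⟨h1, h2⟩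
      omega
    · rintro ⟨A, B, rfl, ⟨h1, h2⟩, h3, _⟩
      exact ⟨A, B, rfl, h1, h2, h3⟩
  rw [ordered_ncard hsymm hne hpos hfin S.card _ (fun k => by
    unfold radonVector; rw [hU])]
  unfold RR
  rw [sum_nn_eq_card]
  have hbij : Ord Q Finset.card i (S.card - i) =
      (fun X : Finset (E d) => (X, S \ X)) ''
        (((S.powersetCard i).filter (fun X => ¬ Cell (hom (d := d)) S ∅ X) :
          Finset (Finset (E d))) : Set (Finset (E d))) := by
    ext ⟨A, B⟩
    constructor
    · rintro ⟨h, h2, h3⟩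
      simp only at h h2 h3
      have hu := hunion A B h
      have hB : S \ A = B := by
        rw [← hu, union_sdiff_left]
        exact sdiff_eq_self_of_disjoint h.1.2.2.1.symm
      refine ⟨A, ?_, by show (A, S \ A) = (A, B); rw [hB]⟩
      rw [mem_coe, mem_filter, mem_powersetCard]
      refine ⟨⟨hu ▸ subset_union_left, h2⟩, ?_⟩
      have := (hullsMeet_iff h.1.2.2.1).1 h.1
      rwa [hu] at this
    · rintro ⟨X, hX, he⟩
      rw [Prod.mk.injEq] at he
      obtain ⟨rfl, rfl⟩ := he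
      rw [mem_coe, mem_filter, mem_powersetCard] at hX
      obtain ⟨⟨hX1, hX2⟩, hX3⟩ := hX
      have hu : X ∪ (S \ X) = S := union_sdiff_of_subset hX1
      refine ⟨⟨?_, ?_⟩, hX2, ?_⟩
      · rw [hullsMeet_iff disjoint_sdiff, hu]
        exact hX3
      · rw [← coe_union, hu]
      · rw [card_sdiff_of_subset hX1, hX2]
  rw [hbij, Set.InjOn.ncard_image, Set.ncard_coe_finset]
  · push_cast
    rfl
  · intro X _ Y _ h
    exact congrArg Prod.fst h

/-- the primitive Radon vector -/
theorem primitiveVector_ordered {d : ℕ} {S : Finset (E d)} (hS : GP (hom (d := d)) S) (i : ℕ) :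
    ordered (d + 2) (primitiveVector S) i = (PP (hom (d := d)) S (d + 2) i : ℝ) := by
  classical
  set Q : Finset (E d) → Finset (E d) → Prop := fun A B => IsPrimitive S A B with hQdef
  have hQ' : ∀ A B, Q A B ↔ A ⊆ S ∧ B ⊆ S ∧ Disjoint A B ∧ A.card + B.card = d + 2 ∧
      ¬ Cell (hom (d := d)) (A ∪ B) ∅ A := fun A B => isPrimitive_iff hS
  have hsymm : ∀ A B, Q A B → Q B A := by
    rintro A B ⟨h1, h2, ⟨h3, h4, h5, h6⟩, h7⟩
    refine ⟨h2, h1, ⟨h4, h3, h5.symm, by rwa [Set.inter_comm]⟩, ?_⟩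
    rintro A' B' hA' hB' ⟨g1, g2, g3, g4⟩
    have := h7 B' A' hB' hA' ⟨g2, g1, g3.symm, by rwa [Set.inter_comm]⟩
    exact ⟨this.2, this.1⟩
  have hne : ∀ A B, Q A B → A ≠ B := by
    rintro A B ⟨_, _, ⟨⟨x, hx⟩, h2, h3, h4⟩, h5⟩ rfl
    exact Finset.disjoint_left.1 h3 hx hx
  have hpos : ∀ A B : Finset (E d), Q A B → 0 < A.card := fun A B h => card_pos.2 h.2.2.1.1
  have hfin : ∀ i k, (Ord Q Finset.card i k).Finite := by
    intro i k
    apply ((S.powerset ×ˢ S.powerset).finite_toSet).subset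
    rintro ⟨A, B⟩ ⟨h, -, -⟩
    simp only [coe_product, Set.mem_prod, mem_coe, mem_powerset]
    exact ⟨h.1, h.2.1⟩
  rw [ordered_ncard hsymm hne hpos hfin (d + 2) _ (fun k => by
    unfold primitiveVector
    rfl)]
  unfold PP
  have h1 : ∀ T ∈ S.powersetCard (d + 2), ∑ Y ∈ T.powersetCard i, nn (hom (d := d)) T ∅ Y =
      (((T.powersetCard i).filter (fun X => ¬ Cell (hom (d := d)) T ∅ X)).card : ℤ) := by
    intro T _
    rw [sum_nn_eq_card]
  rw [Finset.sum_congr rfl h1]
  have hbij : Ord Q Finset.card i (d + 2 - i) =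
      (fun p : (_ : Finset (E d)) × Finset (E d) => (p.2, p.1 \ p.2)) ''
        (((S.powersetCard (d + 2)).sigma (fun T => (T.powersetCard i).filter
          (fun X => ¬ Cell (hom (d := d)) T ∅ X)) : Finset _) :
            Set ((_ : Finset (E d)) × Finset (E d))) := by
    ext ⟨A, B⟩
    constructor
    · rintro ⟨h, h2, h3⟩
      simp only at h h2 h3
      obtain ⟨q1, q2, q3, q4, q5⟩ := (hQ' A B).1 h
      refine ⟨⟨A ∪ B, A⟩, ?_, ?_⟩
      · rw [mem_coe, mem_sigma, mem_filter, mem_powersetCard, mem_powersetCard]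
        refine ⟨⟨union_subset q1 q2, ?_⟩, ⟨subset_union_left, h2⟩, q5⟩
        rw [card_union_of_disjoint q3, q4]
      · simp only
        rw [union_sdiff_left, sdiff_eq_self_of_disjoint q3.symm]
    · rintro ⟨⟨T, X⟩, hX, he⟩
      rw [Prod.mk.injEq] at he
      obtain ⟨rfl, rfl⟩ := he
      rw [mem_coe, mem_sigma, mem_filter, mem_powersetCard, mem_powersetCard] at hX
      obtain ⟨⟨hT1, hT2⟩, ⟨hX1, hX2⟩, hX3⟩ := hX
      simp only at hT1 hT2 hX1 hX2 hX3
      have hu : X ∪ (T \ X) = T := union_sdiff_of_subset hX1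
      have hc := card_sdiff_of_subset hX1
      have hle := card_le_card hX1
      refine ⟨(hQ' _ _).2 ⟨hX1.trans hT1, sdiff_subset.trans hT1, disjoint_sdiff, ?_, ?_⟩, hX2, ?_⟩
      · simp only
        omega
      · simp only
        rw [hu]
        exact hX3
      · simp only
        omega
  rw [hbij, Set.InjOn.ncard_image, Set.ncard_coe_finset, Finset.card_sigma]
  · push_cast
    rfl
  · rintro ⟨T, X⟩ hX ⟨T', X'⟩ hX' h
    rw [mem_coe, mem_sigma, mem_filter, mem_powersetCard, mem_powersetCard] at hX hX'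
    simp only [Prod.mk.injEq] at h
    obtain ⟨h1, h2⟩ := h
    have e1 : X ∪ (T \ X) = T := union_sdiff_of_subset hX.2.1.1
    have e2 : X' ∪ (T' \ X') = T' := union_sdiff_of_subset hX'.2.1.1
    have e3 : T = T' := by rw [← e1, ← e2, h2, h1]
    subst e3
    subst h1
    rfl

end Pool.Agent.T2h46.Radon
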